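import Mathlib
import Pool.Agent.Lib.H55P.I3

/-! # H41S: L-values in a cyclic extension of degree p^(n+1): definitions

CH p N f φ: φ is a function on the primes of K with values in the N-th roots of unity, trivial on the principal ideals
(x), x = 1 modulo f (a ray class character of order dividing N, modulus f prime to p). tw ψ f φ j: the conjugate of the
Hecke character times the j-th power of φ, 0 at the ideals which are not prime to f. -/

open NumberField IsDedekindDomain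

namespace H41S

open H55N H55P
open H55R (Pl es fs pv tI)

/-- A ray class character of order dividing N with modulus f prime to p, given by its values at the primes. -/
structure CH {K : Type} [Field K] [NumberField K] (p N : ℕ) (f : Ideal (𝓞 K)) (φ : Pl K → ℂˣ) : Prop where
  ne : f ≠ ⊥
  cop : IsCoprime f (Ideal.span {(p : 𝓞 K)})
  val : φ ^ N = 1
  per : ∀ x y : 𝓞 K, x ≠ 0 → y ≠ 0 → IsCoprime (Ideal.span {x}) f → x - y ∈ f →
    pv φ (Ideal.span {x}) = pv φ (Ideal.span {y})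

/-- The twists. -/
noncomputable def tw {F : Type} [Field F] [NumberField F] [IQ F] {K : Type} [Field K] [NumberField K] [Algebra F K]
    (ψ : Ideal (𝓞 F) →*₀ 𝓞 F) (f : Ideal (𝓞 K)) (φ : Pl K → ℂˣ) (j : ℕ) : Ideal (𝓞 K) →*₀ ℂ :=
  PsiP K ψ * tI f (φ ^ j)

theorem tw_apply {F : Type} [Field F] [NumberField F] [IQ F] {K : Type} [Field K] [NumberField K] [Algebra F K]
    (ψ : Ideal (𝓞 F) →*₀ 𝓞 F) (f : Ideal (𝓞 K)) (φ : Pl K → ℂˣ) (j : ℕ) {a : Ideal (𝓞 K)} (ha : a ≠ ⊥)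
    (h : IsCoprime a f) : tw ψ f φ j a = PsiP K ψ a * (pv φ a : ℂ) ^ j := by
  show PsiP K ψ a * tI f (φ ^ j) a = _
  rw [H55R.tI_apply _ _ ha h, H55R.pv_pow, Units.val_pow_eq_pow_val]

theorem tw_zero {F : Type} [Field F] [NumberField F] [IQ F] {K : Type} [Field K] [NumberField K] [Algebra F K]
    (ψ : Ideal (𝓞 F) →*₀ 𝓞 F) (f : Ideal (𝓞 K)) (φ : Pl K → ℂˣ) (j : ℕ) {a : Ideal (𝓞 K)}
    (h : ¬ IsCoprime a f) : tw ψ f φ j a = 0 := by
  show PsiP K ψ a * tI f (φ ^ j) a = _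
  rw [H55R.tI_zero _ _ h, mul_zero]

theorem CH.tI_pow {K : Type} [Field K] [NumberField K] {p N : ℕ} {f : Ideal (𝓞 K)} {φ : Pl K → ℂˣ}
    (h : CH p N f φ) (j : ℕ) (a : Ideal (𝓞 K)) : tI f (φ ^ j) a ^ N = 1 ∨ tI f (φ ^ j) a = 0 := by
  by_cases ha : a ≠ ⊥ ∧ IsCoprime a f
  · left
    rw [H55R.tI_apply _ _ ha.1 ha.2, ← Units.val_pow_eq_pow_val, ← H55R.pv_pow, ← pow_mul, mul_comm, pow_mul, h.val,
      one_pow, H55R.pv_one_fun, Units.val_one]
  · right
    exact if_neg ha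

theorem CH.norm_le {K : Type} [Field K] [NumberField K] {p N : ℕ} (hN : N ≠ 0) {f : Ideal (𝓞 K)} {φ : Pl K → ℂˣ}
    (h : CH p N f φ) (j : ℕ) (a : Ideal (𝓞 K)) : ‖tI f (φ ^ j) a‖ ≤ 1 := by
  rcases h.tI_pow j a with h1 | h1
  · exact (Complex.norm_eq_one_of_pow_eq_one h1 hN).le
  · rw [h1, norm_zero]
    exact zero_le_one

/-- the values depend only on the primes containing the ideal -/
theorem pv_congr {K : Type} [Field K] [NumberField K] (φ φ' : Pl K → ℂˣ) (a : Ideal (𝓞 K))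
    (h : ∀ v : Pl K, a ≤ v.asIdeal → φ v = φ' v) : pv φ a = pv φ' a := by
  unfold H55R.pv
  congr 1
  refine Multiset.map_congr rfl fun P hP => ?_
  by_cases h1 : P.IsPrime ∧ P ≠ ⊥
  · rw [dif_pos h1, dif_pos h1]
    exact h ⟨P, h1.1, h1.2⟩ (Ideal.dvd_iff_le.1 (UniqueFactorizationMonoid.dvd_of_mem_normalizedFactors hP))
  · rw [dif_neg h1, dif_neg h1]

end H41S
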