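import Mathlib
import Pool.Agent.Lib.H41S.D

/-! # H41S, A1: the constants of the classes for all powers of the character (port of exists_kappaP of H55P/T2.lean) -/

open NumberField IsDedekindDomain

namespace H41S

open H55N H55P
open H55B (g)
open H55R (Pl es fs pv tI)

variable {F : Type} [Field F] [NumberField F] [IQ F] {K : Type} [Field K] [NumberField K]
  [Algebra F K] {m : ℕ}

theorem kappa (p : ℕ) (hp : p.Prime) {M : Ideal (𝓞 F)} {ψ : Ideal (𝓞 F) →*₀ 𝓞 F}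
    (h : IsHecke M ψ) {N : ℕ} (f : Ideal (𝓞 K))
    (φ : Pl K → ℂˣ) (hφ : CH p N f φ) (b : Ideal (𝓞 K)) (hb : b ≠ ⊥)
    (hbc : IsCoprime b (Ideal.span {(p : 𝓞 K)} * (mK K M * f))) (c₀ : 𝓞 K) (hc : c₀ ∈ b)
    (hpr : ∀ w : HeightOneSpectrum (𝓞 K), mK K M * f ≤ w.asIdeal → c₀ ∉ w.asIdeal * b) :
    ∃ κ' ζ : ℂ, (∀ V : ValuationSubring ℂ, V.valuation (p : ℂ) < 1 → V.valuation κ' = 1) ∧
      ζ ^ N = 1 ∧
      ∀ x ∈ XS (mK K M * f * b) c₀, ∀ a : Ideal (𝓞 K), a * b = Ideal.span {x} → x ≠ 0 ∧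
        ∀ j : ℕ, tw ψ f φ j a = κ' * ζ ^ j * (starRingEnd ℂ) (embF F (Algebra.norm F (x : K))) := by
  classical
  have hm0 : mK K M ≠ ⊥ := PT2_mK M h.ne
  have hJ0 : mK K M * f ≠ ⊥ := mul_ne_zero hm0 hφ.ne
  have hbJ : IsCoprime b (mK K M * f) := hbc.of_mul_right_right
  have hbp : IsCoprime b (Ideal.span {(p : 𝓞 K)}) := hbc.of_mul_right_left
  have hbM : IsCoprime b (mK K M) := hbJ.of_mul_right_left
  have hbf : IsCoprime b f := hbJ.of_mul_right_right
  have hcop : IsCoprime (Ideal.span {c₀}) (mK K M * f) := by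
    rw [Ideal.isCoprime_iff_sup_eq]
    by_contra hne
    obtain ⟨P, hP, hle⟩ := Ideal.exists_le_maximal _ hne
    have hPf : mK K M * f ≤ P := le_sup_right.trans hle
    have hPc : Ideal.span {c₀} ≤ P := le_sup_left.trans hle
    have hP0 : P ≠ ⊥ := by
      rintro rfl
      exact hJ0 (le_bot_iff.1 hPf)
    have hbP : ¬ b ≤ P := by
      intro h1
      rw [Ideal.isCoprime_iff_sup_eq] at hbJ
      exact hP.ne_top (top_le_iff.1 (hbJ ▸ sup_le h1 hPf))
    obtain ⟨d, hd⟩ := Ideal.dvd_iff_le.2 ((Ideal.span_singleton_le_iff_mem b).2 hc)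
    rw [hd] at hPc
    have hdP : d ≤ P := (hP.isPrime.mul_le.1 hPc).resolve_left hbP
    refine hpr ⟨P, hP.isPrime, hP0⟩ hPf ?_
    have h1 : c₀ ∈ b * d := by rw [← hd]; exact Ideal.mem_span_singleton_self _
    rw [mul_comm]
    exact Ideal.mul_mono_right hdP h1
  have hXcop : ∀ x ∈ XS (mK K M * f * b) c₀,
      IsCoprime (Ideal.span {x}) (mK K M * f) := by
    intro x hx
    have hx' : x - c₀ ∈ mK K M * f :=
      Ideal.mul_le_left (show x - c₀ ∈ mK K M * f * b from hx)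
    rw [Ideal.isCoprime_iff_exists] at hcop ⊢
    obtain ⟨i, hi, j, hj, hij⟩ := hcop
    obtain ⟨r, rfl⟩ := Ideal.mem_span_singleton.1 hi
    refine ⟨x * r, Ideal.mul_mem_right _ _ (Ideal.mem_span_singleton_self x),
      j - (x - c₀) * r, Ideal.sub_mem _ hj (Ideal.mul_mem_right _ _ hx'), ?_⟩
    linear_combination hij
  have hcM : IsCoprime (Ideal.span {c₀}) (mK K M) := hcop.of_mul_right_left
  have hc0 : c₀ ≠ 0 := PT2_ne M h.ntop c₀ hcM
  have hc0' : Ideal.span {c₀} ≠ ⊥ := fun h1 => hc0 (Ideal.span_singleton_eq_bot.1 h1)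
  have hPb : PsiP K ψ b ≠ 0 := (PsiP_ne h b hb).2 hbM
  have hNc := (PsiP_cop h (Ideal.span {c₀}) hc0').2 hcM
  rw [Ideal.relNorm_singleton] at hNc
  obtain ⟨nc, hnc⟩ : ∃ nc, nc = Algebra.intNorm (𝓞 F) (𝓞 K) c₀ := ⟨_, rfl⟩
  rw [← hnc] at hNc
  have hnc0 : nc ≠ 0 := by
    rintro rfl
    have h1 := Ideal.relNorm_singleton (𝓞 F) c₀
    rw [← hnc, Ideal.span_singleton_eq_bot.2 rfl] at h1
    exact hc0' (Ideal.relNorm_eq_bot_iff.1 h1)
  obtain ⟨A, hA⟩ : ∃ A, A = (starRingEnd ℂ) (eF F (ψ (Ideal.span {nc}))) := ⟨_, rfl⟩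
  obtain ⟨B, hB⟩ : ∃ B, B = (starRingEnd ℂ) (eF F nc) := ⟨_, rfl⟩
  have hB0 : B ≠ 0 := by
    rw [hB, map_ne_zero]
    exact eF_ne hnc0
  refine ⟨A / (B * PsiP K ψ b), ((pv φ (Ideal.span {c₀}) * (pv φ b)⁻¹ : ℂˣ) : ℂ), ?_, ?_, ?_⟩
  · intro V hV
    have h1 := (PsiP_unit p hp h b hb hbM hbp V hV).1
    obtain ⟨u, hu⟩ := Ideal.span_singleton_eq_span_singleton.1 (h.gen _ hNc)
    have h2 : V.valuation A = V.valuation B := by
      rw [hB, ← hu, map_mul, map_mul, map_mul, PT2_unit u V, mul_one, hA]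
    rw [map_div₀, map_mul, h1, mul_one, h2]
    exact div_self ((Valuation.ne_zero_iff _).2 hB0)
  · rw [← Units.val_pow_eq_pow_val, mul_pow, inv_pow, ← H55R.pv_pow, ← H55R.pv_pow, hφ.val, H55R.pv_one_fun,
      H55R.pv_one_fun, inv_one, mul_one, Units.val_one]
  · intro x hx a hab
    have hxc := hXcop x hx
    have hxM : IsCoprime (Ideal.span {x}) (mK K M) := hxc.of_mul_right_left
    have hx0 : x ≠ 0 := PT2_ne M h.ntop x hxM
    have hx0' : Ideal.span {x} ≠ ⊥ := fun h1 => hx0 (Ideal.span_singleton_eq_bot.1 h1)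
    have hxJ : x - c₀ ∈ mK K M * f :=
      Ideal.mul_le_left (show x - c₀ ∈ mK K M * f * b from hx)
    have hxm : x - c₀ ∈ mK K M := Ideal.mul_le_left hxJ
    have hxf : x - c₀ ∈ f := Ideal.mul_le_right hxJ
    have hNx := (PsiP_cop h (Ideal.span {x}) hx0').2 hxM
    rw [Ideal.relNorm_singleton] at hNx
    have hper := h.per _ _ hNx hNc (by rw [hnc]; exact intNorm_cong M x c₀ hxm)
    have ha0 : a ≠ ⊥ := by
      rintro rfl
      apply hx0
      rw [← Ideal.span_singleton_eq_bot, ← hab]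
      exact zero_mul b
    have haf : IsCoprime a f := by
      have h1 : IsCoprime (a * b) f := by rw [hab]; exact hxc.of_mul_right_right
      exact h1.of_mul_left_left
    have hPx : PsiP K ψ (Ideal.span {x}) * B = A * (starRingEnd ℂ) (embF F (Algebra.norm F (x : K))) := by
      rw [PsiP_apply, Ideal.relNorm_singleton, hA, hB, PT2_norm, ← map_mul, ← map_mul, ← map_mul,
        ← map_mul, hper]
    have hPa : PsiP K ψ a = A / (B * PsiP K ψ b) *
        (starRingEnd ℂ) (embF F (Algebra.norm F (x : K))) := by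
      have h1 : PsiP K ψ a * PsiP K ψ b = PsiP K ψ (Ideal.span {x}) := by rw [← map_mul, hab]
      rw [div_mul_eq_mul_div, ← hPx, ← h1, eq_div_iff (mul_ne_zero hB0 hPb)]
      ring
    have hχa : pv φ a = pv φ (Ideal.span {c₀}) * (pv φ b)⁻¹ := by
      have h1 : pv φ a * pv φ b = pv φ (Ideal.span {x}) := by rw [← H55R.pv_mul φ ha0 hb, hab]
      rw [hφ.per x c₀ hx0 hc0 hxc.of_mul_right_right hxf] at h1
      rw [← h1, mul_inv_cancel_right]
    refine ⟨hx0, fun j => ?_⟩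
    rw [tw_apply ψ f φ j ha0 haf, hPa, hχa]
    ring

end H41S
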