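import Mathlib
import Pool.Agent.Lib.H41S.D

/-! # H41S, A2: the smoothing factors and removal of Euler factors (ports of H55P/T6.lean) -/

open NumberField IsDedekindDomain

namespace H41S

open H55N H55P
open H55B (g)
open H55R (Pl es fs pv tI)

variable {F : Type} [Field F] [NumberField F] [IQ F] {K : Type} [Field K] [NumberField K]
  [Algebra F K] {m : ℕ}

theorem tw_norm_le {M : Ideal (𝓞 F)} {ψ : Ideal (𝓞 F) →*₀ 𝓞 F} (h : IsHecke M ψ) {p N : ℕ} (hN : N ≠ 0)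
    {f : Ideal (𝓞 K)} {φ : Pl K → ℂˣ} (hφ : CH p N f φ) (j : ℕ) (a : Ideal (𝓞 K)) :
    ‖tw ψ f φ j a‖ ^ 2 ≤ Ideal.absNorm a := by
  refine le_trans ?_ (PsiP_norm_le h a)
  have h4 : tw ψ f φ j a = PsiP K ψ a * tI f (φ ^ j) a := rfl
  rw [h4, norm_mul, mul_pow]
  exact mul_le_of_le_one_right (by positivity) (pow_le_one₀ (norm_nonneg _) (hφ.norm_le hN j a))

/-- removal of the Euler factors at the primes containing f, for any completely multiplicative function -/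
theorem one_sumG (h : Ideal (𝓞 K) →*₀ ℂ) (hb : ∀ a, ‖h a‖ ^ 2 ≤ (Ideal.absNorm a : ℝ)) (f : Ideal (𝓞 K))
    (hf : f ≠ ⊥) :
    ∃ S : Finset (HeightOneSpectrum (𝓞 K)), (∀ w, w ∈ S ↔ f ≤ w.asIdeal) ∧
      ∀ s : ℂ, 3 / 2 < s.re →
        HasSum (tm (h * oneI f : Ideal (𝓞 K) →*₀ ℂ) s)
          ((∏ w ∈ S, (1 - tm h s w.asIdeal)) * ∑' a, tm h s a) := by
  classical
  have hfin : {w : HeightOneSpectrum (𝓞 K) | w.asIdeal ∣ f}.Finite := Ideal.finite_factors hf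
  have hS : ∀ w, w ∈ hfin.toFinset ↔ f ≤ w.asIdeal := by
    intro w
    rw [Set.Finite.mem_toFinset]
    exact Ideal.dvd_iff_le
  refine ⟨hfin.toFinset, hS, fun s hs => ?_⟩
  set S := hfin.toFinset with hSd
  have hk : Summable fun a => ‖tmH h s a‖ := tm_summable h hb s hs
  have h1 := smooth_sum (tmH h s) hk (fun w : S => w.1.asIdeal) (fun w => w.1.isPrime)
    (fun w => w.1.ne_bot) (fun w w' h => Subtype.ext (HeightOneSpectrum.ext h)) (fun _ => 1)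
  have h2 : (∏ w : S, (1 - 1 * (tmH h s) w.1.asIdeal)) =
      ∏ w ∈ S, (1 - tm h s w.asIdeal) := by
    rw [← Finset.prod_coe_sort S]
    refine Finset.prod_congr rfl fun w _ => ?_
    rw [one_mul]
    rfl
  rw [h2] at h1
  refine h1.congr_fun fun a => ?_
  have h3 : tm (h * oneI f : Ideal (𝓞 K) →*₀ ℂ) s a = tmH h s a * oneI f a := by
    show (h a * oneI f a) * (Ideal.absNorm a : ℂ) ^ (-s) =
      (h a * (Ideal.absNorm a : ℂ) ^ (-s)) * oneI f a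
    ring
  rw [h3]
  by_cases ha : a = ⊥
  · rw [ha]
    have h4 : tmH h s (⊥ : Ideal (𝓞 K)) = 0 := (tmH h s).map_zero
    rw [h4, zero_mul, zero_mul]
  · congr 1
    have h5 : oneI f a = if a ≠ ⊥ ∧ IsCoprime a f then 1 else 0 := rfl
    rw [h5]
    by_cases hc : IsCoprime a f
    · rw [if_pos ⟨ha, hc⟩]
      symm
      refine Finset.prod_eq_one fun w _ => ?_
      rw [if_neg ((TW2_coprime a f ha S hS).1 hc w.1 w.2)]
    · rw [if_neg (fun h => hc h.2)]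
      rw [TW2_coprime a f ha S hS] at hc
      push Not at hc
      obtain ⟨w, hw, haw⟩ := hc
      symm
      refine Finset.prod_eq_zero (Finset.mem_univ (⟨w, hw⟩ : S)) ?_
      rw [if_pos haw, sub_self]

theorem tw_P_ne {M : Ideal (𝓞 F)} {ψ : Ideal (𝓞 F) →*₀ 𝓞 F} (h : IsHecke M ψ) (χ : Ideal (𝓞 K) →*₀ ℂ)
    (c : Ideal (𝓞 K)) (hχ : χ c = 0 ∨ ‖χ c‖ = 1) (q : ℕ) (hq : q.Prime)
    (hc : Ideal.absNorm c = q) (s : ℂ) (hs : s.re < 3 / 2) :
    1 - (q : ℂ) * tm (PsiP K ψ * χ : Ideal (𝓞 K) →*₀ ℂ) s c ≠ 0 := by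
  have hp0 : (0 : ℝ) < q := by exact_mod_cast hq.pos
  have hp1 : (1 : ℝ) < q := by exact_mod_cast hq.one_lt
  have hc0 : c ≠ ⊥ := by
    intro h
    rw [h, Ideal.absNorm_bot] at hc
    exact hq.ne_zero hc.symm
  intro hh
  have h1 : (q : ℂ) * tm (PsiP K ψ * χ : Ideal (𝓞 K) →*₀ ℂ) s c = 1 := by linear_combination -hh
  have h2 : tm (PsiP K ψ * χ : Ideal (𝓞 K) →*₀ ℂ) s c = PsiP K ψ c * χ c * (q : ℂ) ^ (-s) := by
    unfold tm
    rw [hc]
    rfl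
  rw [h2] at h1
  have h3 : PsiP K ψ c ≠ 0 := by
    intro h0
    rw [h0] at h1
    simp at h1
  have h4 : χ c ≠ 0 := by
    intro h0
    rw [h0] at h1
    simp at h1
  have h5 : ‖χ c‖ = 1 := hχ.resolve_left h4
  have h6 : ‖PsiP K ψ c‖ ^ 2 = q := by
    rw [PsiP_norm h c hc0 ((PsiP_ne h c hc0).1 h3), hc]
  have h7 : ‖PsiP K ψ c‖ = (q : ℝ) ^ (1 / 2 : ℝ) := by
    rw [← Real.sqrt_eq_rpow, ← h6, Real.sqrt_sq (norm_nonneg _)]
  have h8 := congrArg norm h1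
  rw [norm_mul, norm_mul, norm_mul, h5, h7, NormOneClass.norm_one, Complex.norm_natCast,
    Complex.norm_natCast_cpow_of_pos hq.pos, mul_one, Complex.neg_re] at h8
  have h9 : (q : ℝ) * ((q : ℝ) ^ (1 / 2 : ℝ) * (q : ℝ) ^ (-s.re)) = (q : ℝ) ^ (3 / 2 - s.re) := by
    have h11 : (3 / 2 - s.re) = 1 + (1 / 2 + -s.re) := by ring
    rw [h11, Real.rpow_add hp0, Real.rpow_add hp0, Real.rpow_one]
  rw [h9] at h8
  have h10 : 1 < (q : ℝ) ^ (3 / 2 - s.re) := Real.one_lt_rpow hp1 (by linarith)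
  rw [h8] at h10
  exact lt_irrefl _ h10

/-- roots of unity of p-power order are congruent to 1 -/
theorem root_maxQ (p : ℕ) (hp : p.Prime) (V : ValuationSubring ℂ) (hV : V.valuation (p : ℂ) < 1) (ζ : ℂ) (e : ℕ)
    (h : ζ ^ p ^ e = 1) : V.valuation (ζ - 1) < 1 := by
  have h1 : V.valuation ζ = 1 := by
    apply pt6_le (pow_ne_zero e hp.ne_zero)
    rw [← map_pow, h, map_one]
  have h2 : V.valuation (1 - ζ) ≤ 1 :=
    (Valuation.map_sub _ _ _).trans (max_le (by rw [map_one]) h1.le)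
  rw [Valuation.map_sub_swap]
  refine lt_of_le_of_ne h2 fun h3 => ?_
  have h4 := pow_max p hp V hV ζ h1.le h3 e
  rw [h, sub_self, map_zero] at h4
  exact zero_ne_one h4

/-- the smoothing factors are units -/
theorem factorQ (p : ℕ) (hp : p.Prime) (V : ValuationSubring ℂ) (hV : V.valuation (p : ℂ) < 1)
    (ψ : Ideal (𝓞 F) →*₀ 𝓞 F) (χ : Ideal (𝓞 K) →*₀ ℂ) (c : Ideal (𝓞 K)) (q : ℕ) (hq : q.Prime)
    (hc : Ideal.absNorm c = q) (hu : V.valuation (1 - PsiP K ψ c) = 1) (e : ℕ)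
    (hχ : χ c ^ p ^ e = 1 ∨ χ c = 0) :
    V.valuation (1 - (q : ℂ) * tm (PsiP K ψ * χ : Ideal (𝓞 K) →*₀ ℂ) 1 c) = 1 := by
  have hq0 : (q : ℂ) ≠ 0 := by exact_mod_cast hq.ne_zero
  have h2 : (q : ℂ) * tm (PsiP K ψ * χ : Ideal (𝓞 K) →*₀ ℂ) 1 c = PsiP K ψ c * χ c := by
    have h1 : tm (PsiP K ψ * χ : Ideal (𝓞 K) →*₀ ℂ) 1 c = PsiP K ψ c * χ c * (q : ℂ) ^ (-1 : ℂ) := by
      unfold tm
      rw [hc]
      rfl
    rw [h1, Complex.cpow_neg_one]
    field_simp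
  rw [h2]
  rcases hχ with h | h
  · have h3 : 1 - PsiP K ψ c * χ c = -(PsiP K ψ c * (χ c - 1)) + (1 - PsiP K ψ c) := by ring
    rw [h3, Valuation.map_add_eq_of_lt_right, hu]
    rw [hu, Valuation.map_neg, map_mul]
    exact lt_of_le_of_lt (mul_le_of_le_one_left' (PsiP_int ψ c V).1) (root_maxQ p hp V hV _ e h)
  · rw [h, mul_zero, sub_zero, map_one]

end H41S
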