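import Mathlib
import Pool.Agent.Lib.H41S.A1
import Pool.Agent.Lib.H41S.A2

/-! # H41S, A3: the smoothed L-values of all powers of the character are the values of one polynomial over O_V -/

open NumberField IsDedekindDomain

namespace H41S

open H55N H55P
open H55B (g)
open H55R (Pl es fs pv tI)

variable {F : Type} [Field F] [NumberField F] [IQ F] {K : Type} [Field K] [NumberField K]
  [Algebra F K]

theorem smv (p : ℕ) (hp : p.Prime) {M : Ideal (𝓞 F)} {ψ : Ideal (𝓞 F) →*₀ 𝓞 F}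
    (h : IsHecke M ψ) (hMp : IsCoprime M (Ideal.span {(p : 𝓞 F)})) (hK : UnrP p K)
    (Ac Bc Om : ℂ) (hper : Per F Ac Bc Om) (V : ValuationSubring ℂ)
    (hV : V.valuation (p : ℂ) < 1) (hg : GoodV Ac Bc V) {N : ℕ} (hN : 0 < N) (f : Ideal (𝓞 K))
    (φ : Pl K → ℂˣ) (hφ : CH p N f φ) (η : ℂ) (hη : IsPrimitiveRoot η N) {m : ℕ}
    (hm : Module.finrank F K = m + 1) :
    ∃ Bad : Set (Ideal (𝓞 K)), Bad.Finite ∧
      ∀ (c : Fin (m + 1) × Fin 2 → Ideal (𝓞 K)) (q : Fin (m + 1) × Fin 2 → ℕ), Smooth c q →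
        (∀ i, (c i).IsPrime ∧ c i ∉ Bad) → ∃ P : Polynomial V, ∀ j : ℕ, ∃ Λ : ℂ → ℂ,
          AnalyticOnNhd ℂ Λ {s | 1 / 2 < s.re} ∧
          (∀ s : ℂ, 3 / 2 < s.re → HasSum (tm (tw ψ f φ j) s) (Λ s)) ∧
          (∏ i, (1 - (q i : ℂ) * tm (tw ψ f φ j) 1 (c i))) * (Λ 1 / Om ^ Module.finrank F K) =
            Polynomial.aeval (η ^ j) P := by
  classical
  obtain ⟨l, hl⟩ := h.toMod p hMp
  obtain ⟨w0, hw0l, hw0M⟩ := pt9_prime K hl
  have hJM : mK K M * f ≤ mK K M := Ideal.mul_le_left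
  have hJ0 : mK K M * f ≠ ⊥ := mul_ne_zero (pt9_mK_ne h.ne) hφ.ne
  have hJ1 : mK K M * f ≠ ⊤ := by
    intro h1
    apply w0.isPrime.ne_top
    rw [← top_le_iff, ← h1]
    exact hJM.trans hw0M
  have hg0 : Ideal.span {(p : 𝓞 K)} * (mK K M * f) ≠ ⊥ := by
    refine mul_ne_zero ?_ hJ0
    have h1 : Ideal.span {(p : 𝓞 K)} ≠ ⊥ := by
      rw [Ne, Ideal.span_singleton_eq_bot, Nat.cast_eq_zero]
      exact hp.ne_zero
    exact h1
  have hgJ : Ideal.span {(p : 𝓞 K)} * (mK K M * f) ≤ mK K M * f := Ideal.mul_le_right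
  obtain ⟨ι, hι, b, c₀, T, hcd⟩ := exists_CDJ (mK K M * f) (Ideal.span {(p : 𝓞 K)} * (mK K M * f))
    hJ0 hg0 hgJ hJ1
  have hbp : ∀ i, IsCoprime (b i) (Ideal.span {(p : 𝓞 K)}) := fun i =>
    (hcd.cop i).of_mul_right_left
  have hlam : ∀ i, c₀ i ∉ Ideal.span {algebraMap (𝓞 F) (𝓞 K) l} * b i := by
    intro i hi
    refine hcd.prim i w0 (hJM.trans hw0M) (Ideal.mul_mono_left ?_ hi)
    rw [Ideal.span_singleton_le_iff_mem]
    exact hw0l
  have hcore := fun i => core p hp hl K m hm hK (b i) f (hcd.ne i) (hbp i) hφ.ne hφ.cop (c₀ i)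
    (hcd.mem i) (hlam i)
  choose Bad hBad hcore using hcore
  have hnop := fun i => nopoles p hp hl K m hm (b i) f (hcd.ne i) hφ.ne (c₀ i) (hcd.mem i) (hlam i)
  choose Z0 hZ0 hZ0s using hnop
  refine ⟨(⋃ i, Bad i) ∪ ⋃ i, {w : Ideal (𝓞 K) | b i ≤ w},
    (Set.finite_iUnion hBad).union (Set.finite_iUnion fun i => pt9_finite (b i) (hcd.ne i)), ?_⟩
  intro c q hs hcb
  have hcp : ∀ j, (c j).IsPrime := fun j => (hcb j).1
  have hbc : ∀ i j, IsCoprime (b i) (c j) := by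
    intro i j
    rw [Ideal.isCoprime_iff_sup_eq]
    by_contra h
    have hmax : (c j).IsMaximal := (hcp j).isMaximal (pt3_ne hs j)
    have h1 : c j ≤ b i ⊔ c j := le_sup_right
    have h2 : b i ⊔ c j = c j := (hmax.eq_of_le h h1).symm
    apply (hcb j).2
    refine Or.inr (Set.mem_iUnion.2 ⟨i, ?_⟩)
    show b i ≤ c j
    rw [← h2]
    exact le_sup_left
  have hZex := fun i => hcore i c q hs (fun j hj => (hcb j).2 (Or.inl (Set.mem_iUnion.2 ⟨i, hj⟩)))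
  choose Z hZa hZs hZi using hZex
  have hkap := fun i => kappa p hp h f φ hφ (b i) (hcd.ne i) (hcd.cop i) (c₀ i)
    (hcd.mem i) (hcd.prim i)
  choose κ' ζ hκu hζ hκ using hkap
  have hroot : ∀ i, ∃ e : ℕ, η ^ e = ζ i := fun i => by
    have : NeZero N := ⟨hN.ne'⟩
    obtain ⟨e, -, he⟩ := hη.eq_pow_of_pow_eq_one (hζ i)
    exact ⟨e, he⟩
  choose e he using hroot
  have hint : ∀ i, κ' i * ((Ideal.absNorm (b i) : ℕ) : ℂ) * (Z i 1 / Om ^ (m + 1)) ∈ V := by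
    intro i
    rw [← V.valuation_le_one_iff, map_mul, map_mul, hκu i V hV, one_mul]
    exact mul_le_one' (pt9_nat V _) (hZi i Ac Bc Om hper V hV hg)
  have hC : ∀ j : ℕ, CoefP F (mK K M * f) ι b c₀ (tw ψ f φ j) (fun i => κ' i * ζ i ^ j) := fun j =>
    coef_mulP h (fun a ha => H55R.tI_zero _ _ ha) (fun a => hφ.norm_le hN.ne' j a)
      (fun i x hx a ha => ⟨(hκ i x hx a ha).1, (hκ i x hx a ha).2 j⟩)
  have hNb : ∀ i, Ideal.absNorm (b i) ≠ 0 := fun i => by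
    rw [Ne, Ideal.absNorm_eq_zero_iff]
    exact hcd.ne i
  have hZsum : ∀ i s, 3 / 2 < s.re → HasSum (fun x : T i => gw c q x * nf F s (x : 𝓞 K)) (Z i s) :=
    fun i s hs' => hZs i (T i) (hcd.trans i) s hs'
  refine ⟨∑ i, Polynomial.C (⟨_, hint i⟩ : V) * Polynomial.X ^ e i, fun j => ?_⟩
  have e1 : ∀ s : ℂ, 3 / 2 < s.re →
      (∏ i, (1 - (q i : ℂ) * tm (tw ψ f φ j) s (c i))) *
      ∑' a, tm (tw ψ f φ j) s a =
        ∑ i, κ' i * ζ i ^ j * (Ideal.absNorm (b i) : ℂ) ^ s * Z i s :=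
    fun s hs' => series_eqP hgJ hJ1 hcd (hC j) hs hcp hbc Z s hs' fun i => hZsum i s hs'
  have e3 : ∀ s : ℂ, 3 / 2 < s.re → HasSum (tm (tw ψ f φ j) s)
      (∑ i, κ' i * ζ i ^ j * (Ideal.absNorm (b i) : ℂ) ^ s * Z0 i s) :=
    fun s hs' => series_eq0P hgJ hJ1 hcd (hC j) Z0 s fun i => hZ0s i (T i) (hcd.trans i) s hs'
  have hGa : AnalyticOnNhd ℂ
      (fun s : ℂ => ∑ i, κ' i * ζ i ^ j * (Ideal.absNorm (b i) : ℂ) ^ s * Z i s) {s | 1 / 2 < s.re} := by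
    intro s hs'
    exact Finset.analyticAt_fun_sum _ fun i _ =>
      (analyticAt_const.mul (pt3_pow_analytic _ (hNb i) Set.univ s trivial)).mul (hZa i s hs')
  have hZ0a : AnalyticOnNhd ℂ
      (fun s : ℂ => ∑ i, κ' i * ζ i ^ j * (Ideal.absNorm (b i) : ℂ) ^ s * Z0 i s)
      {s | 3 / 2 - 1 / (2 * (m + 1 : ℝ)) < s.re} := by
    intro s hs'
    exact Finset.analyticAt_fun_sum _ fun i _ =>
      (analyticAt_const.mul (pt3_pow_analytic _ (hNb i) Set.univ s trivial)).mul (hZ0 i s hs')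
  have hPa : AnalyticOnNhd ℂ
      (fun s : ℂ => ∏ i, (1 - (q i : ℂ) * tm (tw ψ f φ j) s (c i))) {s | 1 / 2 < s.re} := by
    intro s hs'
    exact Finset.analyticAt_fun_prod _ fun i _ =>
      (analyticAt_const.sub (analyticAt_const.mul
        (pt3_tm_analytic (tw ψ f φ j) (c i) (pt3_ne hs i) Set.univ s trivial)))
  obtain ⟨Λ, hΛa, hΛ, hΛG⟩ := glue (1 / (2 * (m + 1 : ℝ))) (by positivity)
    (fun s : ℂ => ∑ i, κ' i * ζ i ^ j * (Ideal.absNorm (b i) : ℂ) ^ s * Z i s)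
    (fun s : ℂ => ∑ i, κ' i * ζ i ^ j * (Ideal.absNorm (b i) : ℂ) ^ s * Z0 i s)
    (fun s : ℂ => ∏ i, (1 - (q i : ℂ) * tm (tw ψ f φ j) s (c i)))
    hGa hZ0a hPa
    (fun s hs' => Finset.prod_ne_zero_iff.2 fun i _ => tw_P_ne h _ (c i) (by
      rcases hφ.tI_pow j (c i) with h1 | h1
      · exact Or.inr (Complex.norm_eq_one_of_pow_eq_one h1 hN.ne')
      · exact Or.inl h1) (q i) (hs.prime i) (hs.norm i) s hs')
    (fun s hs' => by
      show _ = _ * _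
      rw [← e1 s hs', (e3 s hs').tsum_eq])
  refine ⟨Λ, hΛa, fun s hs' => ?_, ?_⟩
  · rw [hΛ s hs']
    exact e3 s hs'
  have h1re : (1 / 2 : ℝ) < (1 : ℂ).re := by norm_num
  have e5 := hΛG 1 h1re
  rw [← mul_div_assoc, ← e5, map_sum, hm, Finset.sum_div]
  refine Finset.sum_congr rfl fun i _ => ?_
  rw [map_mul, Polynomial.aeval_C, map_pow, Polynomial.aeval_X, Complex.cpow_one, ← he i]
  show _ = κ' i * ((Ideal.absNorm (b i) : ℕ) : ℂ) * (Z i 1 / Om ^ (m + 1)) * (η ^ j) ^ e i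
  ring

end H41S
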