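import Mathlib
import Pool.Agent.Lib.H41S.A3

/-! # H41S, A4: the twist by the p-th power of the character -/

open NumberField IsDedekindDomain

namespace H41S

open H55N H55P
open H55B (g)
open H55R (Pl es fs pv tI)

variable {F : Type} [Field F] [NumberField F] [IQ F] {K : Type} [Field K] [NumberField K]
  [Algebra F K]

theorem cop_iff {K : Type} [Field K] [NumberField K] (a f : Ideal (𝓞 K)) (ha : a ≠ ⊥) :
    IsCoprime a f ↔ ∀ v : Pl K, a ≤ v.asIdeal → ¬ f ≤ v.asIdeal := by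
  rw [Ideal.isCoprime_iff_sup_eq]
  constructor
  · intro h v h1 h2
    apply v.isPrime.ne_top
    rw [eq_top_iff, ← h]
    exact sup_le h1 h2
  · intro h
    by_contra hne
    obtain ⟨P, hP, hle⟩ := Ideal.exists_le_maximal _ hne
    have h1 : a ≤ P := le_sup_left.trans hle
    have hP0 : P ≠ ⊥ := by
      rintro rfl
      exact ha (le_bot_iff.1 h1)
    exact h ⟨P, hP.isPrime, hP0⟩ h1 (le_sup_right.trans hle)

open Classical in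
theorem oneI_one {K : Type} [Field K] [NumberField K] (f a : Ideal (𝓞 K)) (ha : a ≠ ⊥) (hc : IsCoprime a f) :
    oneI f a = 1 := by
  show (if a ≠ ⊥ ∧ IsCoprime a f then (1 : ℂ) else 0) = 1
  rw [if_pos ⟨ha, hc⟩]

/-- the trivial twist -/
theorem tw_triv (ψ : Ideal (𝓞 F) →*₀ 𝓞 F) (f : Ideal (𝓞 K)) (φ : Pl K → ℂˣ) :
    tw ψ f φ 0 = (PsiP K ψ * oneI f : Ideal (𝓞 K) →*₀ ℂ) := by
  ext a
  show PsiP K ψ a * tI f (φ ^ 0) a = PsiP K ψ a * oneI f a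
  by_cases ha : a = ⊥
  · have : PsiP K ψ a = 0 := by
      rw [ha]
      exact (PsiP K ψ).map_zero
    rw [this, zero_mul, zero_mul]
  · by_cases hc : IsCoprime a f
    · rw [H55R.tI_apply _ _ ha hc, oneI_one f a ha hc, pow_zero, H55R.pv_one_fun, Units.val_one]
    · rw [H55R.tI_zero _ _ hc, pt3_oneI_zero f a hc]

/-- the p-th power of φ is φ' without the Euler factors at f -/
theorem tw_cmp (ψ : Ideal (𝓞 F) →*₀ 𝓞 F) {p : ℕ} (f f' : Ideal (𝓞 K)) (φ φ' : Pl K → ℂˣ)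
    (hff : ∀ v : Pl K, f' ≤ v.asIdeal → f ≤ v.asIdeal)
    (hφ : ∀ v : Pl K, ¬ f ≤ v.asIdeal → φ' v = φ v ^ p) (j : ℕ) :
    tw ψ f φ (p * j) = (tw ψ f' φ' j * oneI f : Ideal (𝓞 K) →*₀ ℂ) := by
  ext a
  show tw ψ f φ (p * j) a = tw ψ f' φ' j a * oneI f a
  by_cases ha : a = ⊥
  · rw [ha]
    have h1 : tw ψ f φ (p * j) ⊥ = 0 := (tw ψ f φ (p * j)).map_zero
    have h2 : tw ψ f' φ' j ⊥ = 0 := (tw ψ f' φ' j).map_zero
    rw [h1, h2, zero_mul]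
  · by_cases hc : IsCoprime a f
    · have hc' : IsCoprime a f' := by
        rw [cop_iff a f' ha]
        rw [cop_iff a f ha] at hc
        exact fun v h1 h2 => hc v h1 (hff v h2)
      rw [oneI_one f a ha hc, mul_one, tw_apply ψ f φ _ ha hc, tw_apply ψ f' φ' _ ha hc']
      have h1 : pv φ' a = pv φ a ^ p := by
        rw [← H55R.pv_pow]
        refine pv_congr φ' (φ ^ p) a fun v hv => ?_
        rw [hφ v ((cop_iff a f ha).1 hc v hv)]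
        rfl
      rw [h1, Units.val_pow_eq_pow_val, pow_mul]
    · rw [pt3_oneI_zero f a hc, tw_zero ψ f φ _ hc, mul_zero]

/-- the L-series and its value at 1 -/
theorem tw_cmpL {M : Ideal (𝓞 F)} {ψ : Ideal (𝓞 F) →*₀ 𝓞 F} (h : IsHecke M ψ) {p N' : ℕ} (hN' : N' ≠ 0)
    (f f' : Ideal (𝓞 K)) (hf : f ≠ ⊥) (φ φ' : Pl K → ℂˣ) (hφ' : CH p N' f' φ')
    (hff : ∀ v : Pl K, f' ≤ v.asIdeal → f ≤ v.asIdeal)
    (hφ : ∀ v : Pl K, ¬ f ≤ v.asIdeal → φ' v = φ v ^ p) (j : ℕ) (Λ Λ' : ℂ → ℂ)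
    (ha : AnalyticOnNhd ℂ Λ {s | 1 / 2 < s.re}) (ha' : AnalyticOnNhd ℂ Λ' {s | 1 / 2 < s.re})
    (hs : ∀ s : ℂ, 3 / 2 < s.re → HasSum (tm (tw ψ f φ (p * j)) s) (Λ s))
    (hs' : ∀ s : ℂ, 3 / 2 < s.re → HasSum (tm (tw ψ f' φ' j) s) (Λ' s))
    (S : Finset (Pl K)) (hS : ∀ w, w ∈ S ↔ f ≤ w.asIdeal) :
    Λ 1 = (∏ w ∈ S, (1 - tm (tw ψ f' φ' j) 1 w.asIdeal)) * Λ' 1 := by
  obtain ⟨S', hS', hsum⟩ := one_sumG (tw ψ f' φ' j) (fun a => tw_norm_le h hN' hφ' j a) f hf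
  have hSS : S' = S := by
    ext w
    rw [hS', hS]
  subst hSS
  refine ident Λ (fun s => (∏ w ∈ S', (1 - tm (tw ψ f' φ' j) s w.asIdeal)) * Λ' s) ha ?_ (fun s hs1 => ?_) 1
    (by norm_num)
  · refine AnalyticOnNhd.mul ?_ ha'
    intro z hz
    exact Finset.analyticAt_fun_prod _ fun w _ =>
      (analyticAt_const.sub (pt3_tm_analytic (tw ψ f' φ' j) w.asIdeal w.ne_bot Set.univ z trivial))
  · have h1 := hs s hs1
    rw [tw_cmp ψ f f' φ φ' hff hφ j] at h1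
    have h2 := h1.unique (hsum s hs1)
    rw [h2, (hs' s hs1).tsum_eq]

/-- the trivial twist, value at 1 -/
theorem tw_trivL {M : Ideal (𝓞 F)} {ψ : Ideal (𝓞 F) →*₀ 𝓞 F} (h : IsHecke M ψ)
    (f : Ideal (𝓞 K)) (hf : f ≠ ⊥) (φ : Pl K → ℂˣ) (Λ Λ' : ℂ → ℂ)
    (ha : AnalyticOnNhd ℂ Λ {s | 1 / 2 < s.re}) (ha' : AnalyticOnNhd ℂ Λ' {s | 1 / 2 < s.re})
    (hs : ∀ s : ℂ, 3 / 2 < s.re → HasSum (tm (tw ψ f φ 0) s) (Λ s))
    (hs' : ∀ s : ℂ, 3 / 2 < s.re → HasSum (tm (PsiP K ψ) s) (Λ' s)) :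
    ∃ S : Finset (Pl K), (∀ w, w ∈ S ↔ f ≤ w.asIdeal) ∧
      Λ 1 = (∏ w ∈ S, (1 - tm (PsiP K ψ) 1 w.asIdeal)) * Λ' 1 := by
  obtain ⟨S, hS, hsum⟩ := one_sumG (PsiP K ψ) (fun a => PsiP_norm_le h a) f hf
  refine ⟨S, hS, ident Λ (fun s => (∏ w ∈ S, (1 - tm (PsiP K ψ) s w.asIdeal)) * Λ' s) ha ?_ (fun s hs1 => ?_) 1
    (by norm_num)⟩
  · refine AnalyticOnNhd.mul ?_ ha'
    intro z hz
    exact Finset.analyticAt_fun_prod _ fun w _ =>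
      (analyticAt_const.sub (pt3_tm_analytic (PsiP K ψ) w.asIdeal w.ne_bot Set.univ z trivial))
  · have h1 := hs s hs1
    rw [tw_triv ψ f φ] at h1
    have h2 := h1.unique (hsum s hs1)
    rw [h2, (hs' s hs1).tsum_eq]

end H41S
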