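import Mathlib
import Pool.Agent.Lib.H41S.D
import Pool.Agent.Lib.H55P.I1

/-! # H41S, A5: valuations of the Euler factors -/

open NumberField IsDedekindDomain

namespace H41S

open H55N H55P
open H55B (g)
open H55R (Pl es fs pv tI)

variable {F : Type} [Field F] [NumberField F] [IQ F] {K : Type} [Field K] [NumberField K]
  [Algebra F K]

/-- integral elements of F which are not units at V are divisible by p (p unramified in F) -/
theorem a5_disc {p : ℕ} (hF : UnrP p F) (V : ValuationSubring ℂ) (hV : V.valuation (p : ℂ) < 1) (x : 𝓞 F)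
    (hx : V.valuation (eF F x) < 1) : V.valuation (eF F x) ≤ V.valuation (p : ℂ) := by
  let P : Ideal (𝓞 F) :=
    { carrier := {y | V.valuation (eF F y) < 1}
      zero_mem' := by
        show V.valuation (eF F 0) < 1
        rw [map_zero, map_zero]
        exact zero_lt_one
      add_mem' := by
        intro a b ha hb
        show V.valuation (eF F (a + b)) < 1
        rw [map_add]
        exact Valuation.map_add_lt _ ha hb
      smul_mem' := by
        intro c a ha
        show V.valuation (eF F (c * a)) < 1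
        rw [map_mul, map_mul]
        exact lt_of_le_of_lt (mul_le_of_le_one_left' (PT1_int (eF F) c V)) ha }
  have hmem : ∀ y, y ∈ P ↔ V.valuation (eF F y) < 1 := fun y => Iff.rfl
  have hp : (p : 𝓞 F) ∈ P := by
    rw [hmem, map_natCast]
    exact hV
  have hne : P ≠ ⊤ := by
    intro h
    have h1 : (1 : 𝓞 F) ∈ P := by rw [h]; exact Submodule.mem_top
    rw [hmem, map_one, map_one] at h1
    exact lt_irrefl _ h1
  obtain ⟨π, hπ⟩ := (IsPrincipalIdealRing.principal P).principal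
  have hπ' : P = Ideal.span {π} := hπ
  have hd : ∀ y, V.valuation (eF F y) < 1 → ∃ z, y = π * z := by
    intro y hy
    have h1 : y ∈ Ideal.span {π} := by rw [← hπ']; exact hy
    obtain ⟨z, rfl⟩ := Ideal.mem_span_singleton.1 h1
    exact ⟨z, rfl⟩
  obtain ⟨u, hu⟩ := hd _ hp
  have hu1 : V.valuation (eF F u) = 1 := by
    refine le_antisymm (PT1_int (eF F) u V) ?_
    by_contra hlt
    obtain ⟨t, ht⟩ := hd u (not_le.1 hlt)
    have h1 : Ideal.span {π} * Ideal.span {π} ∣ Ideal.span {(p : 𝓞 F)} := by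
      rw [Ideal.span_singleton_mul_span_singleton, Ideal.dvd_iff_le, Ideal.span_singleton_le_span_singleton]
      exact ⟨t, by rw [hu, ht]; ring⟩
    have h2 := hF _ h1
    rw [Ideal.isUnit_iff, ← hπ'] at h2
    exact hne h2
  have h3 : V.valuation (eF F π) = V.valuation (p : ℂ) := by
    have h4 : (p : ℂ) = eF F π * eF F u := by rw [← map_mul, ← hu, map_natCast]
    rw [h4, map_mul, hu1, mul_one]
  obtain ⟨z, hz⟩ := hd x hx
  rw [hz, map_mul, map_mul, h3]
  exact mul_le_of_le_one_right' (PT1_int (eF F) z V)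

/-- the anomalous primes -/
theorem a5_an {p : ℕ} (hp : p.Prime) (hF : UnrP p F) {M : Ideal (𝓞 F)} {ψ : Ideal (𝓞 F) →*₀ 𝓞 F} (h : IsHecke M ψ)
    (V : ValuationSubring ℂ) (hV : V.valuation (p : ℂ) < 1) (w : Pl K)
    (hwp : IsCoprime w.asIdeal (Ideal.span {(p : 𝓞 K)}))
    (hw : V.valuation (1 - (starRingEnd ℂ) (PsiP K ψ w.asIdeal)) ≠ 1) :
    V.valuation (1 - tm (PsiP K ψ) 1 w.asIdeal) ≤ V.valuation (p : ℂ) := by
  have h0 : PsiP K ψ w.asIdeal ≠ 0 := by
    intro h0
    apply hw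
    rw [h0, map_zero, sub_zero, map_one]
  have hcop := (PsiP_ne h w.asIdeal w.ne_bot).1 h0
  have hn := PsiP_norm h w.asIdeal w.ne_bot hcop
  have hu := PsiP_unit p hp h w.asIdeal w.ne_bot hcop hwp V hV
  have hc0 : (starRingEnd ℂ) (PsiP K ψ w.asIdeal) ≠ 0 := by
    rw [Ne, map_eq_zero]
    exact h0
  have hN : (Ideal.absNorm w.asIdeal : ℂ) =
      PsiP K ψ w.asIdeal * (starRingEnd ℂ) (PsiP K ψ w.asIdeal) := by
    rw [Complex.mul_conj, Complex.normSq_eq_norm_sq, hn]
    push_cast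
    rfl
  have h1 : 1 - tm (PsiP K ψ) 1 w.asIdeal =
      -((1 - (starRingEnd ℂ) (PsiP K ψ w.asIdeal)) / (starRingEnd ℂ) (PsiP K ψ w.asIdeal)) := by
    unfold tm
    rw [Complex.cpow_neg_one, hN]
    field_simp
    ring
  rw [h1, Valuation.map_neg, map_div₀, hu.2, div_one]
  have h2 : 1 - (starRingEnd ℂ) (PsiP K ψ w.asIdeal) = eF F (1 - ψ (Ideal.relNorm (𝓞 F) w.asIdeal)) := by
    rw [PsiP_apply, Complex.conj_conj, map_sub, map_one]
  rw [h2] at hw ⊢
  exact a5_disc hF V hV _ (lt_of_le_of_ne (PT1_int (eF F) _ V) hw)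

/-- the absolute value of the Euler term -/
theorem a5_le {p : ℕ} (hp : p.Prime) {M : Ideal (𝓞 F)} {ψ : Ideal (𝓞 F) →*₀ 𝓞 F} (h : IsHecke M ψ)
    (V : ValuationSubring ℂ) (hV : V.valuation (p : ℂ) < 1) (w : Pl K)
    (hwp : IsCoprime w.asIdeal (Ideal.span {(p : 𝓞 K)})) :
    V.valuation (tm (PsiP K ψ) 1 w.asIdeal) ≤ 1 := by
  have h1 := (tm_one p hp V hV h w hwp).1
  have h2 : tm (PsiP K ψ) 1 w.asIdeal = 1 - (1 - tm (PsiP K ψ) 1 w.asIdeal) := by ring
  rw [h2]
  exact (Valuation.map_sub _ _ _).trans (max_le (by rw [map_one]) h1)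

end H41S
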