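import Mathlib

/-! # H41S, C1: valuations of 1 - (root of unity of p-power order) -/

namespace H41S

variable (V : ValuationSubring ℂ) {p : ℕ}

/-- PROOF. If z^k = 1, k > 0, then V(z) = 1 (V(z)^k = 1). For j arbitrary, 1 - z^j = (1 - z) (1 + z + ... + z^(j-1)) (geom_sum_mul / mul_neg_geom_sum),
the second factor is in V. -/
theorem c1_le {z : ℂ} {k : ℕ} (hk : 0 < k) (hz : z ^ k = 1) (j : ℕ) : V.valuation (1 - z ^ j) ≤ V.valuation (1 - z) := by
  have h1 : V.valuation z ≤ 1 := by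
    by_contra h
    push Not at h
    have h2 := one_lt_pow₀ h hk.ne'
    rw [← map_pow, hz, map_one] at h2
    exact lt_irrefl _ h2
  have hzV : z ∈ V := (V.valuation_le_one_iff z).1 h1
  have h2 : V.valuation (∑ i ∈ Finset.range j, z ^ i) ≤ 1 :=
    (V.valuation_le_one_iff _).2 (sum_mem fun i _ => pow_mem hzV i)
  rw [← mul_neg_geom_sum z j, map_mul]
  exact mul_le_of_le_one_right' h2

/-- PROOF. c1_le for z, and for z^j: z = (z^j)^i with i j = 1 mod N (IsPrimitiveRoot, j coprime to N). -/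
theorem c1_eq {z : ℂ} {N : ℕ} (hN : 0 < N) (hz : IsPrimitiveRoot z N) {j : ℕ} (hj : Nat.Coprime j N) :
    V.valuation (1 - z ^ j) = V.valuation (1 - z) := by
  refine le_antisymm (c1_le V hN hz.pow_eq_one j) ?_
  have h1 := hz.pow_of_coprime j hj
  have : NeZero N := ⟨hN.ne'⟩
  obtain ⟨i, -, hi⟩ := h1.eq_pow_of_pow_eq_one hz.pow_eq_one
  have h2 := c1_le V hN h1.pow_eq_one i
  rwa [hi] at h2

/-- PROOF. The value at 1 of the cyclotomic polynomial is p (Polynomial.eval_one_cyclotomic_prime_pow) and it is the product of the 1 - ζ over the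
primitive roots ζ (Polynomial.cyclotomic_eq_prod_X_sub_primitiveRoots); every primitive root is η^j, j coprime to N (IsPrimitiveRoot.eq_pow_of_mem_rootsOfUnity or
IsPrimitiveRoot.isPrimitiveRoot_iff), so has V(1 - ζ) = V(1 - η) (c1_eq); their number is totient (p^(n+1)) = p^n (p - 1) (IsPrimitiveRoot.card_primitiveRoots, Nat.totient_prime_pow_succ). -/
theorem c1_root (hp : p.Prime) {n : ℕ} {η : ℂ} (hη : IsPrimitiveRoot η (p ^ (n + 1))) :
    V.valuation (1 - η) ^ (p ^ n * (p - 1)) = V.valuation (p : ℂ) := by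
  have : Fact p.Prime := ⟨hp⟩
  have hN : 0 < p ^ (n + 1) := pow_pos hp.pos _
  have hNZ : NeZero (p ^ (n + 1)) := ⟨hN.ne'⟩
  have h1 := Polynomial.eval_one_cyclotomic_prime_pow (R := ℂ) (p := p) n
  rw [Polynomial.cyclotomic_eq_prod_X_sub_primitiveRoots hη, Polynomial.eval_prod] at h1
  simp only [Polynomial.eval_sub, Polynomial.eval_X, Polynomial.eval_C] at h1
  rw [← h1, map_prod]
  have h2 : ∀ ζ ∈ primitiveRoots (p ^ (n + 1)) ℂ, V.valuation (1 - ζ) = V.valuation (1 - η) := by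
    intro ζ hζ
    have h3 := isPrimitiveRoot_of_mem_primitiveRoots hζ
    obtain ⟨i, -, hi, rfl⟩ := (hη.isPrimitiveRoot_iff).1 h3
    exact c1_eq V hN hη hi
  rw [Finset.prod_congr rfl h2, Finset.prod_const, hη.card_primitiveRoots, Nat.totient_prime_pow_succ hp]

/-- PROOF. η^(p^k) is a primitive p^(n+1-k)-th root (IsPrimitiveRoot.pow), n + 1 - k = (n - k) + 1, so by c1_root
V(1 - η^(p^k))^(p^(n-k) (p-1)) = V(p) = V(1 - η)^(p^n (p-1)) = (V(1 - η)^(p^k))^(p^(n-k) (p-1)); pow_left_inj₀ (the exponent is positive). Then η^(p^k m) = (η^(p^k))^m,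
c1_eq. -/
theorem c1_pow (hp : p.Prime) {n k m : ℕ} {η : ℂ} (hη : IsPrimitiveRoot η (p ^ (n + 1))) (hk : k ≤ n) (hm : ¬ p ∣ m) :
    V.valuation (1 - η ^ (p ^ k * m)) = V.valuation (1 - η) ^ p ^ k := by
  have h1 : IsPrimitiveRoot (η ^ p ^ k) (p ^ (n - k + 1)) := by
    refine hη.pow (pow_pos hp.pos _) ?_
    rw [← pow_add]
    congr 1
    omega
  have hcop : Nat.Coprime m (p ^ (n - k + 1)) :=
    Nat.Coprime.pow_right _ ((Nat.Prime.coprime_iff_not_dvd hp).2 hm).symm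
  rw [pow_mul, c1_eq V (pow_pos hp.pos _) h1 hcop]
  have h2 := c1_root V hp h1
  have h3 := c1_root V hp hη
  have hexp : p ^ (n - k) * (p - 1) ≠ 0 := by
    have := hp.two_le
    exact Nat.mul_ne_zero (pow_pos hp.pos _).ne' (by omega)
  refine (pow_left_inj₀ zero_le' zero_le' hexp).1 ?_
  rw [h2, ← h3, ← pow_mul]
  congr 1
  rw [← mul_assoc, ← pow_add]
  congr 2
  omega

/-- PROOF. c1_root: if V(1 - η) >= 1 then V(p) >= 1 (one_le_pow₀; the exponent is positive). -/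
theorem c1_lt (hp : p.Prime) (hV : V.valuation (p : ℂ) < 1) {n : ℕ} {η : ℂ} (hη : IsPrimitiveRoot η (p ^ (n + 1))) :
    V.valuation (1 - η) < 1 ∧ 0 < V.valuation (1 - η) := by
  constructor
  · by_contra h
    push Not at h
    have h1 := one_le_pow₀ (n := p ^ n * (p - 1)) h
    rw [c1_root V hp hη] at h1
    exact absurd hV (not_lt.2 h1)
  · rw [zero_lt_iff]
    intro h
    rw [map_eq_zero, sub_eq_zero] at h
    have h1 : 1 < p ^ (n + 1) := Nat.one_lt_pow (Nat.succ_ne_zero n) hp.one_lt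
    exact hη.ne_one h1 h.symm

/-- PROOF. g = gcd(a, p^n) divides p^n so g = p^k, k < n ((Nat.dvd_prime_pow hp).1), a = p^k m, p does not divide m (otherwise p^(k+1) divides both a and p^n). c1_pow. -/
theorem c1_gcd (hp : p.Prime) {n a : ℕ} {η : ℂ} (hη : IsPrimitiveRoot η (p ^ (n + 1))) (hg : Nat.gcd a (p ^ n) < p ^ n) :
    V.valuation (1 - η ^ a) = V.valuation (1 - η) ^ Nat.gcd a (p ^ n) := by
  obtain ⟨k, hkn, hk⟩ := (Nat.dvd_prime_pow hp).1 (Nat.gcd_dvd_right a (p ^ n))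
  rw [hk] at hg ⊢
  have hkn' : k < n := (Nat.pow_lt_pow_iff_right hp.one_lt).1 hg
  obtain ⟨m, hm⟩ : p ^ k ∣ a := by
    rw [← hk]
    exact Nat.gcd_dvd_left _ _
  have hpm : ¬ p ∣ m := by
    rintro ⟨m', rfl⟩
    have h1 : p ^ (k + 1) ∣ a := ⟨m', by rw [hm, pow_succ]; ring⟩
    have h2 : p ^ (k + 1) ∣ p ^ n := pow_dvd_pow _ hkn'
    have h3 := Nat.dvd_gcd h1 h2
    rw [hk] at h3
    have h4 := Nat.le_of_dvd (pow_pos hp.pos _) h3
    rw [pow_succ] at h4
    have h5 : p ^ k * 1 < p ^ k * p := (Nat.mul_lt_mul_left (pow_pos hp.pos _)).2 hp.one_lt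
    omega
  rw [hm]
  exact c1_pow V hp hη hkn'.le hpm

end H41S
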