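import Mathlib
import Pool.Agent.Lib.H41S.C1

/-! # H41S, C2: the value of the polynomial at a primitive root -/

namespace H41S

variable (V : ValuationSubring ℂ) {p : ℕ}

theorem c2_aeval_mem (P : Polynomial V) (y : ℂ) (hy : V.valuation y ≤ 1) :
    V.valuation (Polynomial.aeval y P) ≤ 1 := by
  obtain ⟨y', rfl⟩ : ∃ y' : V, algebraMap V ℂ y' = y := ⟨⟨y, (V.valuation_le_one_iff y).1 hy⟩, rfl⟩
  rw [Polynomial.aeval_algebraMap_apply]
  exact V.valuation_le_one _

/-- PROOF. X^N - 1 is monic (Polynomial.monic_X_pow_sub_C with C 1 = 1), D = (X^N - 1) Q + R in V[X], R = D %ₘ (X^N - 1) (Polynomial.modByMonic_add_div), deg R < N; aeval at the N distinct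
numbers z^j, j < N, of R is 0 (both other terms are 0, (z^j)^N = 1), so R, mapped to ℂ[X] (V is injected), is 0 (Polynomial.card_roots' or Polynomial.eq_zero_of_natDegree_lt_card_of_eval_eq_zero';
injectivity IsPrimitiveRoot.pow_inj). So D = (X^N - 1) Q, aeval y D = (y^N - 1) aeval y Q and aeval y Q is in V: y = algebraMap of an element y' of V (valuation_le_one_iff), Polynomial.aeval_algebraMap_apply. -/
theorem c2_poly {N : ℕ} (hN : 0 < N) {z : ℂ} (hz : IsPrimitiveRoot z N) (D : Polynomial V)
    (hD : ∀ j : ℕ, Polynomial.aeval (z ^ j) D = 0) (y : ℂ) (hy : V.valuation y ≤ 1) :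
    V.valuation (Polynomial.aeval y D) ≤ V.valuation (y ^ N - 1) := by
  classical
  have hmon : (Polynomial.X ^ N - 1 : Polynomial V).Monic := by
    have := Polynomial.monic_X_pow_sub_C (1 : V) hN.ne'
    simpa using this
  have hdec := Polynomial.modByMonic_add_div D (Polynomial.X ^ N - 1 : Polynomial V)
  set R := D %ₘ (Polynomial.X ^ N - 1 : Polynomial V) with hR
  set Q := D /ₘ (Polynomial.X ^ N - 1 : Polynomial V) with hQ
  have hdeg : R.natDegree < N := by
    have h1 : R.natDegree < (Polynomial.X ^ N - 1 : Polynomial V).natDegree := by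
      refine Polynomial.natDegree_modByMonic_lt D hmon ?_
      intro h
      have := congrArg Polynomial.natDegree h
      have h2 : (Polynomial.X ^ N - 1 : Polynomial V).natDegree = N := by
        have := Polynomial.natDegree_X_pow_sub_C (n := N) (r := (1 : V))
        simpa using this
      rw [h2] at this
      simp at this
      omega
    have h2 : (Polynomial.X ^ N - 1 : Polynomial V).natDegree = N := by
      have := Polynomial.natDegree_X_pow_sub_C (n := N) (r := (1 : V))
      simpa using this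
    rwa [h2] at h1
  have hR0 : R = 0 := by
    have hinj : Function.Injective (algebraMap V ℂ) := Subtype.val_injective
    have hm : R.map (algebraMap V ℂ) = 0 := by
      refine Polynomial.eq_zero_of_natDegree_lt_card_of_eval_eq_zero' (R.map (algebraMap V ℂ))
        ((Finset.range N).image (fun j => z ^ j)) ?_ ?_
      · intro w hw
        obtain ⟨j, -, rfl⟩ := Finset.mem_image.1 hw
        have h1 : Polynomial.aeval (z ^ j) R = 0 := by
          have h2 := congrArg (Polynomial.aeval (z ^ j)) hdec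
          rw [map_add, map_mul, hD j] at h2
          have h3 : Polynomial.aeval (z ^ j) (Polynomial.X ^ N - 1 : Polynomial V) = 0 := by
            rw [map_sub, map_pow, Polynomial.aeval_X, map_one, ← pow_mul, mul_comm j N, pow_mul, hz.pow_eq_one, one_pow, sub_self]
          rw [h3, zero_mul, add_zero] at h2
          exact h2
        rw [Polynomial.eval_map_algebraMap]
        exact h1
      · rw [Finset.card_image_of_injOn, Finset.card_range]
        · exact lt_of_le_of_lt Polynomial.natDegree_map_le hdeg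
        · intro i hi j hj hij
          exact hz.pow_inj (Finset.mem_range.1 hi) (Finset.mem_range.1 hj) hij
    exact (Polynomial.map_eq_zero_iff hinj).1 hm
  have h4 := congrArg (Polynomial.aeval y) hdec
  rw [hR0, zero_add, map_mul, map_sub, map_pow, Polynomial.aeval_X, map_one] at h4
  rw [← h4, map_mul]
  calc V.valuation (y ^ N - 1) * V.valuation (Polynomial.aeval y Q) ≤ V.valuation (y ^ N - 1) * 1 := by
        gcongr
        exact c2_aeval_mem V Q y hy
    _ = _ := mul_one _

/-- PROOF. (y - 1) divides P(y) - P(1) in V (Polynomial.sub_dvd_eval_sub), V(y - 1) < 1, V(P(1)) = 1. -/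
theorem c2_unit (P : Polynomial V) (h1 : V.valuation (Polynomial.aeval (1 : ℂ) P) = 1) (y : ℂ) (hy : V.valuation (1 - y) < 1) :
    V.valuation (Polynomial.aeval y P) = 1 := by
  have hy1 : V.valuation y ≤ 1 := by
    have : y = 1 - (1 - y) := by ring
    rw [this]
    refine (V.valuation.map_sub _ _).trans ?_
    rw [map_one]
    exact max_le le_rfl hy.le
  obtain ⟨y', rfl⟩ : ∃ y' : V, algebraMap V ℂ y' = y := ⟨⟨y, (V.valuation_le_one_iff y).1 hy1⟩, rfl⟩
  obtain ⟨c, hc⟩ := Polynomial.sub_dvd_eval_sub (R := V) y' 1 P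
  have h2 : Polynomial.aeval (algebraMap V ℂ y') P = Polynomial.aeval (1 : ℂ) P + (algebraMap V ℂ y' - 1) * algebraMap V ℂ c := by
    have h3 := congrArg (algebraMap V ℂ) hc
    rw [map_sub, map_mul, map_sub, map_one] at h3
    have h4 : Polynomial.aeval (algebraMap V ℂ y') P = algebraMap V ℂ (Polynomial.eval y' P) := by
      rw [Polynomial.aeval_algebraMap_apply, Polynomial.aeval_def]; simp [Polynomial.eval₂_eq_eval_map]
    have h5 : Polynomial.aeval (1 : ℂ) P = algebraMap V ℂ (Polynomial.eval 1 P) := by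
      rw [← map_one (algebraMap V ℂ), Polynomial.aeval_algebraMap_apply, Polynomial.aeval_def]; simp [Polynomial.eval₂_eq_eval_map]
    rw [h4, h5]
    linear_combination h3
  rw [h2]
  have h6 : V.valuation ((algebraMap V ℂ y' - 1) * algebraMap V ℂ c) < 1 := by
    rw [map_mul]
    have h7 : V.valuation (algebraMap V ℂ y' - 1) < 1 := by
      rw [V.valuation.map_sub_swap]; exact hy
    have h8 : V.valuation (algebraMap V ℂ c) ≤ 1 := V.valuation_le_one c
    calc V.valuation (algebraMap V ℂ y' - 1) * V.valuation (algebraMap V ℂ c) ≤ V.valuation (algebraMap V ℂ y' - 1) * 1 := by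
          gcongr
      _ = V.valuation (algebraMap V ℂ y' - 1) := mul_one _
      _ < 1 := h7
  rw [Valuation.map_add_eq_of_lt_left _ (by rw [h1]; exact h6), h1]

/-- PROOF. Let π = V(1 - η) < 1, π > 0 (c1_lt). For j prime to p put y = η^j, V(y) = 1. (i) For w in R, not in A: 1 - β y^a = (1 - β) + β (1 - y^a), V(1 - y^a) < 1 (c1_le, c1_lt), so V = 1.
(ii) For w in A: g = gcd(a, p^n) is at most the sum, so < p^n; V(1 - y^a) = π^g (c1_gcd for the primitive root η^j; V(1 - η^j) = π by c1_eq), and V(1 - β) <= V(p) = π^(p^n (p-1)) < π^g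
(p^n (p - 1) >= p^n > g; pow_lt_pow_right_of_lt_one₀); 1 - β y^a = (1 - β) + β (1 - y^a), V(β) = 1: V = π^g. So V(prod over R) = π^S, S = the sum of the g_w over A (Finset.prod over R, factors outside A are 1).
(iii) D = P - prod (1 - C β' X^a) P' in V[X] (β' in V with value β; use Finset.prod over R.attach or choose β' w := if V(β w) <= 1 then .. else 0) vanishes at all powers of η^p, which is a primitive p^n-th root
(IsPrimitiveRoot.pow): by c2_poly V(D(y)) <= V(y^(p^n) - 1) = π^(p^n) (c1_pow with k = n for the exponent p^n j) < π^S. (iv) V(P'(y)) = 1 (c2_unit), so V(prod * P'(y)) = π^S > V(D(y)), and V(P(y)) = π^S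
(Valuation.map_add_eq_of_lt_right). -/
theorem c2_main (hp : p.Prime) (hV : V.valuation (p : ℂ) < 1) {n : ℕ} {η : ℂ} (hη : IsPrimitiveRoot η (p ^ (n + 1)))
    {ι : Type} (R A : Finset ι) (hA : A ⊆ R) (β : ι → ℂ) (a : ι → ℕ) (P P' : Polynomial V)
    (hβ : ∀ w ∈ R, V.valuation (β w) ≤ 1) (h1 : ∀ w ∈ R, w ∉ A → V.valuation (1 - β w) = 1)
    (h2 : ∀ w ∈ A, V.valuation (1 - β w) ≤ V.valuation (p : ℂ))
    (hr : ∑ w ∈ A, Nat.gcd (a w) (p ^ n) < p ^ n) (hP' : V.valuation (Polynomial.aeval (1 : ℂ) P') = 1)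
    (hc : ∀ j : ℕ, Polynomial.aeval (η ^ (p * j)) P =
      (∏ w ∈ R, (1 - β w * (η ^ (p * j)) ^ a w)) * Polynomial.aeval (η ^ (p * j)) P')
    (j : ℕ) (hj : ¬ p ∣ j) :
    V.valuation (Polynomial.aeval (η ^ j) P) = V.valuation (1 - η) ^ (∑ w ∈ A, Nat.gcd (a w) (p ^ n)) := by
  classical
  obtain ⟨hπ1, hπ0⟩ := c1_lt V hp hV hη
  have hcop : Nat.Coprime j (p ^ (n + 1)) := Nat.Coprime.pow_right _ ((Nat.Prime.coprime_iff_not_dvd hp).2 hj).symm
  have hpos : 0 < p ^ (n + 1) := pow_pos hp.pos _
  have hy : IsPrimitiveRoot (η ^ j) (p ^ (n + 1)) := hη.pow_of_coprime j hcop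
  have hπy : V.valuation (1 - η ^ j) = V.valuation (1 - η) := c1_eq V hpos hη hcop
  set y : ℂ := η ^ j with hydef
  have hyN : y ^ (p ^ (n + 1)) = 1 := hy.pow_eq_one
  have hpn : 0 < p ^ n := pow_pos hp.pos _
  have hyle : V.valuation y ≤ 1 := by
    have : y = 1 - (1 - y) := by ring
    rw [this]
    refine (V.valuation.map_sub _ _).trans ?_
    rw [map_one, hπy]
    exact max_le le_rfl hπ1.le
  have hpw : ∀ k : ℕ, ∀ m : ℕ, m < k → V.valuation (1 - η) ^ k < V.valuation (1 - η) ^ m := fun k m hkm =>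
    pow_lt_pow_right_of_lt_one₀ hπ0 hπ1 hkm
  -- the factors
  have hout : ∀ w ∈ R, w ∉ A → V.valuation (1 - β w * y ^ a w) = 1 := by
    intro w hw hwA
    have e : 1 - β w * y ^ a w = (1 - β w) + β w * (1 - y ^ a w) := by ring
    have hlt : V.valuation (β w * (1 - y ^ a w)) < V.valuation (1 - β w) := by
      rw [h1 w hw hwA, map_mul]
      have hle := c1_le V hpos hyN (a w)
      rw [hπy] at hle
      calc V.valuation (β w) * V.valuation (1 - y ^ a w) ≤ 1 * V.valuation (1 - η) := by
            gcongr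
            exact hβ w hw
        _ = V.valuation (1 - η) := one_mul _
        _ < 1 := hπ1
    rw [e, Valuation.map_add_eq_of_lt_left _ hlt, h1 w hw hwA]
  have hin : ∀ w ∈ A, V.valuation (1 - β w * y ^ a w) = V.valuation (1 - η) ^ Nat.gcd (a w) (p ^ n) := by
    intro w hw
    have hg : Nat.gcd (a w) (p ^ n) < p ^ n :=
      lt_of_le_of_lt (Finset.single_le_sum (f := fun w => Nat.gcd (a w) (p ^ n)) (fun _ _ => Nat.zero_le _) hw) hr
    have hva := c1_gcd V hp hy hg
    rw [hπy] at hva
    have hple : V.valuation (1 - β w) < V.valuation (1 - η) ^ Nat.gcd (a w) (p ^ n) := by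
      refine lt_of_le_of_lt (h2 w hw) ?_
      rw [← c1_root V hp hη]
      apply hpw
      calc Nat.gcd (a w) (p ^ n) < p ^ n * 1 := by simpa using hg
        _ ≤ p ^ n * (p - 1) := Nat.mul_le_mul_left _ (by have := hp.two_le; omega)
    have hβ1 : V.valuation (β w) = 1 := by
      have e : β w = 1 - (1 - β w) := by ring
      have hlt : V.valuation (1 - β w) < V.valuation (1 : ℂ) := by
        rw [map_one]
        exact lt_of_lt_of_le hple (pow_le_one₀ zero_le hπ1.le)
      rw [e, Valuation.map_sub_eq_of_lt_left _ hlt, map_one]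
    have e : 1 - β w * y ^ a w = (1 - β w) + β w * (1 - y ^ a w) := by ring
    have hval : V.valuation (β w * (1 - y ^ a w)) = V.valuation (1 - η) ^ Nat.gcd (a w) (p ^ n) := by
      rw [map_mul, hβ1, one_mul, hva]
    rw [e, Valuation.map_add_eq_of_lt_right _ (by rw [hval]; exact hple), hval]
  have hprod : V.valuation (∏ w ∈ R, (1 - β w * y ^ a w)) = V.valuation (1 - η) ^ (∑ w ∈ A, Nat.gcd (a w) (p ^ n)) := by
    rw [map_prod, ← Finset.prod_subset hA (fun w hw hwA => hout w hw hwA), Finset.prod_congr rfl hin,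
      Finset.prod_pow_eq_pow_sum]
  -- the polynomial D
  let β' : ι → V := fun w => if h : V.valuation (β w) ≤ 1 then ⟨β w, (V.valuation_le_one_iff _).1 h⟩ else 0
  have hβ' : ∀ w ∈ R, algebraMap V ℂ (β' w) = β w := by
    intro w hw
    have : β' w = ⟨β w, (V.valuation_le_one_iff _).1 (hβ w hw)⟩ := dif_pos (hβ w hw)
    rw [this]
    rfl
  have hDx : ∀ x : ℂ, Polynomial.aeval x (P - (∏ w ∈ R, (1 - Polynomial.C (β' w) * Polynomial.X ^ a w)) * P') =
      Polynomial.aeval x P - (∏ w ∈ R, (1 - β w * x ^ a w)) * Polynomial.aeval x P' := by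
    intro x
    rw [map_sub, map_mul, map_prod]
    congr 2
    refine Finset.prod_congr rfl (fun w hw => ?_)
    rw [map_sub, map_one, map_mul, map_pow, Polynomial.aeval_X, Polynomial.aeval_C, hβ' w hw]
  have hz : IsPrimitiveRoot (η ^ p) (p ^ n) := hη.pow hpos (by rw [pow_succ, mul_comm])
  have hD := c2_poly V hpn hz (P - (∏ w ∈ R, (1 - Polynomial.C (β' w) * Polynomial.X ^ a w)) * P')
    (fun i => by rw [hDx, ← pow_mul, hc i, sub_self]) y hyle
  have hyp : V.valuation (y ^ (p ^ n) - 1) = V.valuation (1 - η) ^ p ^ n := by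
    rw [V.valuation.map_sub_swap, hydef, ← pow_mul, mul_comm j, c1_pow V hp hη le_rfl hj]
  rw [hyp] at hD
  have hlt := lt_of_le_of_lt hD (hpw _ _ hr)
  rw [hDx] at hlt
  have hP'y : V.valuation (Polynomial.aeval y P') = 1 := c2_unit V P' hP' y (by rw [hπy]; exact hπ1)
  have hmain : V.valuation ((∏ w ∈ R, (1 - β w * y ^ a w)) * Polynomial.aeval y P') = V.valuation (1 - η) ^ (∑ w ∈ A, Nat.gcd (a w) (p ^ n)) := by
    rw [map_mul, hprod, hP'y, mul_one]
  have e : Polynomial.aeval y P = (Polynomial.aeval y P - (∏ w ∈ R, (1 - β w * y ^ a w)) * Polynomial.aeval y P') +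
      (∏ w ∈ R, (1 - β w * y ^ a w)) * Polynomial.aeval y P' := by ring
  rw [e, Valuation.map_add_eq_of_lt_right _ (by rw [hmain]; exact hlt), hmain]

end H41S
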