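import Mathlib
import Pool.Agent.Lib.H41S.A4
import Pool.Agent.Lib.H41S.A5
import Pool.Agent.Lib.H41S.C2

/-! # H41S, A6: the valuations of the L-values of the faithful powers of the character -/

open NumberField IsDedekindDomain

namespace H41S

open H55N H55P
open H55B (g)
open H55R (Pl es fs pv tI)

variable {F : Type} [Field F] [NumberField F] [IQ F] {K : Type} [Field K] [NumberField K]
  [Algebra F K]

theorem a6_gcd {p n a g : ℕ} (hp : p.Prime) {z : ℂ} (hz : IsPrimitiveRoot z (p ^ n)) (hg : g * orderOf (z ^ a) = p ^ n) :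
    Nat.gcd a (p ^ n) = g := by
  have hpos : 0 < p ^ n := pow_pos hp.pos n
  have hfin : IsOfFinOrder z := isOfFinOrder_iff_pow_eq_one.2 ⟨p ^ n, hpos, hz.pow_eq_one⟩
  have h1 : orderOf z = p ^ n := hz.eq_orderOf.symm
  have h2 : orderOf (z ^ a) = p ^ n / Nat.gcd (p ^ n) a := by
    rw [hfin.orderOf_pow, h1]
  have h3 : Nat.gcd (p ^ n) a ∣ p ^ n := Nat.gcd_dvd_left _ _
  have h4 : Nat.gcd (p ^ n) a * (p ^ n / Nat.gcd (p ^ n) a) = p ^ n := Nat.mul_div_cancel' h3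
  rw [h2] at hg
  have h5 : 0 < p ^ n / Nat.gcd (p ^ n) a := by
    rcases Nat.eq_zero_or_pos (p ^ n / Nat.gcd (p ^ n) a) with h | h
    · rw [h, mul_zero] at h4
      omega
    · exact h
  rw [Nat.gcd_comm]
  exact Nat.eq_of_mul_eq_mul_right h5 (h4.trans hg.symm)

theorem tw_val (p : ℕ) (hp : p.Prime) {M : Ideal (𝓞 F)} {ψ : Ideal (𝓞 F) →*₀ 𝓞 F}
    (h : IsHecke M ψ) (hMp : IsCoprime M (Ideal.span {(p : 𝓞 F)})) (hF : UnrP p F) (hK : UnrP p K)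
    (Ac Bc Om : ℂ) (hper : Per F Ac Bc Om) (V : ValuationSubring ℂ)
    (hV : V.valuation (p : ℂ) < 1) (hg : GoodV Ac Bc V) (hNT : NTP K p M ψ V) {n : ℕ} (f f' : Ideal (𝓞 K))
    (φ φ' : Pl K → ℂˣ) (hφ : CH p (p ^ (n + 1)) f φ) (hφ' : CH p (p ^ n) f' φ')
    (hff : ∀ v : Pl K, f' ≤ v.asIdeal → f ≤ v.asIdeal)
    (hcmp : ∀ v : Pl K, ¬ f ≤ v.asIdeal → φ' v = φ v ^ p)
    (hLM : LVP F V Om (PsiP K ψ))
    (hna : ∀ w : Pl K, f' ≤ w.asIdeal → V.valuation (1 - (starRingEnd ℂ) (PsiP K ψ w.asIdeal)) = 1)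
    (A : Finset (Pl K))
    (hA : ∀ w, w ∈ A ↔ f ≤ w.asIdeal ∧ V.valuation (1 - (starRingEnd ℂ) (PsiP K ψ w.asIdeal)) ≠ 1)
    (gg : Pl K → ℕ) (hgg : ∀ w ∈ A, gg w * orderOf (φ' w) = p ^ n) (hr : ∑ w ∈ A, gg w < p ^ n)
    (η : ℂ) (hη : IsPrimitiveRoot η (p ^ (n + 1))) (j : ℕ) (hj : ¬ p ∣ j) :
    ∃ Λ : ℂ → ℂ, AnalyticOnNhd ℂ Λ {s | 1 / 2 < s.re} ∧
      (∀ s : ℂ, 3 / 2 < s.re → HasSum (tm (tw ψ f φ j) s) (Λ s)) ∧
      V.valuation (Λ 1 / Om ^ Module.finrank F K) = V.valuation (1 - η) ^ (∑ w ∈ A, gg w) := by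
  classical
  have hN : 0 < p ^ (n + 1) := pow_pos hp.pos _
  have hN' : 0 < p ^ n := pow_pos hp.pos _
  have hη' : IsPrimitiveRoot (η ^ p) (p ^ n) := hη.pow hN (by rw [pow_succ, mul_comm])
  obtain ⟨m, hm⟩ : ∃ m, Module.finrank F K = m + 1 :=
    ⟨Module.finrank F K - 1, (Nat.sub_add_cancel Module.finrank_pos).symm⟩
  obtain ⟨Bad1, hB1, hP1⟩ := smv p hp h hMp hK Ac Bc Om hper V hV hg hN f φ hφ η hη hm
  obtain ⟨Bad2, hB2, hP2⟩ := smv p hp h hMp hK Ac Bc Om hper V hV hg hN' f' φ' hφ' (η ^ p) hη' hm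
  obtain ⟨c, q, hs, hcb, hun⟩ := exists_smoothP p hp h hMp V hV hNT m
    (Bad1 ∪ Bad2 ∪ {w : Ideal (𝓞 K) | f ≤ w}) ((hB1.union hB2).union (pt9_finite f hφ.ne))
  have hcp : ∀ i, (c i).IsPrime := fun i => (hcb i).1
  obtain ⟨P, hP⟩ := hP1 c q hs fun i => ⟨hcp i, fun h1 => (hcb i).2 (Or.inl (Or.inl h1))⟩
  obtain ⟨P', hP'⟩ := hP2 c q hs fun i => ⟨hcp i, fun h1 => (hcb i).2 (Or.inl (Or.inr h1))⟩
  choose Λ hΛa hΛs hΛe using hP
  choose Λ' hΛa' hΛs' hΛe' using hP'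
  have hcf : ∀ i, IsCoprime (c i) f := by
    intro i
    rw [cop_iff _ _ (pt3_ne hs i)]
    intro v hv hfv
    have h1 : c i = v.asIdeal := ((hcp i).isMaximal (pt3_ne hs i)).eq_of_le v.isPrime.ne_top hv
    apply (hcb i).2
    right
    show f ≤ c i
    rw [h1]
    exact hfv
  -- the primes containing f
  have hfin : {w : HeightOneSpectrum (𝓞 K) | w.asIdeal ∣ f}.Finite := Ideal.finite_factors hφ.ne
  obtain ⟨S, hS⟩ : ∃ S : Finset (Pl K), ∀ w, w ∈ S ↔ f ≤ w.asIdeal := ⟨hfin.toFinset, fun w => by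
    rw [Set.Finite.mem_toFinset]
    exact Ideal.dvd_iff_le⟩
  obtain ⟨R, hR⟩ : ∃ R : Finset (Pl K), R = S.filter (fun w => ¬ f' ≤ w.asIdeal) := ⟨_, rfl⟩
  have hRmem : ∀ w, w ∈ R ↔ f ≤ w.asIdeal ∧ ¬ f' ≤ w.asIdeal := fun w => by
    rw [hR, Finset.mem_filter, hS]
  have hwp : ∀ w : Pl K, f ≤ w.asIdeal → IsCoprime w.asIdeal (Ideal.span {(p : 𝓞 K)}) := by
    intro w hw
    have h1 := hφ.cop
    rw [Ideal.isCoprime_iff_sup_eq] at h1 ⊢
    rw [← top_le_iff, ← h1]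
    exact sup_le_sup_right hw _
  have hroot : ∀ w : Pl K, ∃ a : ℕ, (η ^ p) ^ a = (φ' w : ℂ) := fun w => by
    have : NeZero (p ^ n) := ⟨hN'.ne'⟩
    have h1 : (φ' w : ℂ) ^ (p ^ n) = 1 := by
      rw [← Units.val_pow_eq_pow_val, Units.val_eq_one]
      exact congrFun hφ'.val w
    obtain ⟨a, -, ha⟩ := hη'.eq_pow_of_pow_eq_one h1
    exact ⟨a, ha⟩
  choose a ha using hroot
  have hAR : A ⊆ R := by
    intro w hw
    rw [hA] at hw
    rw [hRmem]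
    exact ⟨hw.1, fun h1 => hw.2 (hna w h1)⟩
  have hgcd : ∀ w ∈ A, Nat.gcd (a w) (p ^ n) = gg w := by
    intro w hw
    refine a6_gcd hp hη' ?_
    rw [ha w, orderOf_units]
    exact hgg w hw
  have hsum : ∑ w ∈ A, Nat.gcd (a w) (p ^ n) = ∑ w ∈ A, gg w := Finset.sum_congr rfl hgcd
  -- the comparison
  have hc : ∀ j : ℕ, Polynomial.aeval (η ^ (p * j)) P =
      (∏ w ∈ R, (1 - tm (PsiP K ψ) 1 w.asIdeal * (η ^ (p * j)) ^ a w)) * Polynomial.aeval (η ^ (p * j)) P' := by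
    intro j
    have e1 := hΛe (p * j)
    have e2 := hΛe' j
    rw [← pow_mul] at e2
    rw [← e1, ← e2, tw_cmpL h hN'.ne' f f' hφ.ne φ φ' hφ' hff hcmp j (Λ (p * j)) (Λ' j) (hΛa _) (hΛa' _)
      (hΛs _) (hΛs' _) S hS]
    have e3 : ∏ i, (1 - (q i : ℂ) * tm (tw ψ f φ (p * j)) 1 (c i)) =
        ∏ i, (1 - (q i : ℂ) * tm (tw ψ f' φ' j) 1 (c i)) := by
      refine Finset.prod_congr rfl fun i _ => ?_
      have e4 : tm (tw ψ f φ (p * j)) 1 (c i) = tm (tw ψ f' φ' j) 1 (c i) := by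
        rw [tw_cmp ψ f f' φ φ' hff hcmp j]
        show (tw ψ f' φ' j (c i) * oneI f (c i)) * _ = tw ψ f' φ' j (c i) * _
        rw [oneI_one f _ (pt3_ne hs i) (hcf i), mul_one]
      rw [e4]
    have e5 : ∏ w ∈ S, (1 - tm (tw ψ f' φ' j) 1 w.asIdeal) =
        ∏ w ∈ R, (1 - tm (PsiP K ψ) 1 w.asIdeal * (η ^ (p * j)) ^ a w) := by
      rw [hR, Finset.prod_filter]
      refine Finset.prod_congr rfl fun w hw => ?_
      by_cases hfw : f' ≤ w.asIdeal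
      · rw [if_neg (not_not.2 hfw)]
        have e6 : tw ψ f' φ' j w.asIdeal = 0 := by
          refine tw_zero ψ f' φ' j fun hcop => ?_
          exact (cop_iff _ _ w.ne_bot).1 hcop w le_rfl hfw
        unfold tm
        rw [e6, zero_mul, sub_zero]
      · rw [if_pos hfw]
        have e6 : tw ψ f' φ' j w.asIdeal = PsiP K ψ w.asIdeal * (φ' w : ℂ) ^ j := by
          rw [tw_apply ψ f' φ' j w.ne_bot (H55R.cop_prime w _ hfw), H55R.pv_prime]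
        unfold tm
        rw [e6, ← ha w]
        ring
    rw [e3, e5]
    ring
  -- the unit
  have u1 : ∀ (f : Ideal (𝓞 K)) (φ : Pl K → ℂˣ) (e : ℕ) (_ : CH p (p ^ e) f φ) (j : ℕ),
      V.valuation (∏ i, (1 - (q i : ℂ) * tm (tw ψ f φ j) 1 (c i))) = 1 := by
    intro f φ e hφ j
    rw [map_prod]
    refine Finset.prod_eq_one fun i _ => factorQ p hp V hV ψ (tI f (φ ^ j)) (c i) (q i) (hs.prime i) (hs.norm i)
      (hun i) e (hφ.tI_pow j (c i))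
  have hP1u : V.valuation (Polynomial.aeval (1 : ℂ) P') = 1 := by
    obtain ⟨ΛK, hKa, hKs, hKu⟩ := hLM
    obtain ⟨S', hS', hval⟩ := tw_trivL h f' hφ'.ne φ' (Λ' 0) ΛK (hΛa' 0) hKa (hΛs' 0) hKs
    have e1 := hΛe' 0
    rw [pow_zero] at e1
    rw [← e1, map_mul, u1 f' φ' n hφ' 0, one_mul, hval, mul_div_assoc, map_mul, hKu, mul_one, map_prod]
    refine Finset.prod_eq_one fun w hw => ?_
    exact EfacP p hp V hV h w (hwp w (hff w ((hS' w).1 hw))) (hna w ((hS' w).1 hw))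
  have hmain := c2_main V hp hV hη R A hAR (fun w => tm (PsiP K ψ) 1 w.asIdeal) a P P'
    (fun w hw => a5_le hp h V hV w (hwp w ((hRmem w).1 hw).1))
    (fun w hw hwA => by
      refine EfacP p hp V hV h w (hwp w ((hRmem w).1 hw).1) ?_
      by_contra hne
      exact hwA ((hA w).2 ⟨((hRmem w).1 hw).1, hne⟩))
    (fun w hw => a5_an hp hF h V hV w (hwp w ((hA w).1 hw).1) ((hA w).1 hw).2)
    (by rw [hsum]; exact hr) hP1u hc j hj
  refine ⟨Λ j, hΛa j, hΛs j, ?_⟩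
  rw [← hsum, ← hmain, ← hΛe j, map_mul, u1 f φ (n + 1) hφ j, one_mul]

end H41S
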