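import Mathlib

/-! # H41S, B1: faithful characters of cyclic groups -/

namespace H41S

/-- PROOF. G has a generator g of order N = Nat.card G; mulEquivOfCyclicCardEq between G and rootsOfUnity N ℂ (cyclic, card N: IsPrimitiveRoot.card_rootsOfUnity / Complex.card_rootsOfUnity),
composed with the inclusion (Subgroup.subtype). -/
theorem b1_theta {G : Type} [Group G] [Finite G] (hc : IsCyclic G) : ∃ θ : G →* ℂˣ, Function.Injective θ := by
  have hN : NeZero (Nat.card G) := ⟨Nat.card_pos.ne'⟩
  have h1 : Nat.card G = Nat.card (rootsOfUnity (Nat.card G) ℂ) := (Complex.card_rootsOfUnity _).symm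
  have h2 : IsCyclic (rootsOfUnity (Nat.card G) ℂ) := rootsOfUnity.isCyclic ℂ _
  refine ⟨(rootsOfUnity (Nat.card G) ℂ).subtype.comp (mulEquivOfCyclicCardEq h1).toMonoidHom, ?_⟩
  exact Subtype.val_injective.comp (mulEquivOfCyclicCardEq h1).injective

/-- PROOF. The kernel of r has p elements (card G = card ker * card G'), is contained in {s : s^p = 1}, which has at most p elements (IsCyclic.card_pow_eq_one_le), so s^p = 1 iff r s = 1. θ from b1_theta;
s ↦ θ(s)^p is a homomorphism, trivial on ker r, so factors through r: θ' (MonoidHom.liftOfSurjective, or QuotientGroup). θ'(r s) = 1 implies θ(s^p) = 1, s^p = 1, r s = 1: injective. -/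
theorem b1_pair {G G' : Type} [Group G] [Group G'] [Finite G] [Finite G'] (hc : IsCyclic G) {p n : ℕ} (hp : p.Prime)
    (hG : Nat.card G = p ^ (n + 1)) (hG' : Nat.card G' = p ^ n) (r : G →* G') (hr : Function.Surjective r) :
    ∃ (θ : G →* ℂˣ) (θ' : G' →* ℂˣ), Function.Injective θ ∧ Function.Injective θ' ∧ ∀ s, θ' (r s) = θ s ^ p := by
  classical
  obtain ⟨θ, hθ⟩ := b1_theta hc
  have hpn : 0 < p ^ n := pow_pos hp.pos n
  have hker : Nat.card r.ker = p := by
    have h1 := Subgroup.card_mul_index r.ker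
    rw [Subgroup.index_ker, MonoidHom.range_eq_top.2 hr, Subgroup.card_top, hG, hG', pow_succ'] at h1
    exact Nat.eq_of_mul_eq_mul_right hpn h1
  have hk1 : ∀ s ∈ r.ker, s ^ p = 1 := by
    intro s hs
    have h2 : (⟨s, hs⟩ : r.ker) ^ Nat.card r.ker = 1 := pow_card_eq_one'
    rw [hker] at h2
    have h3 := congrArg Subtype.val h2
    simpa using h3
  have hk2 : ∀ s : G, s ^ p = 1 → r s = 1 := by
    intro s hs
    have : Fintype G := Fintype.ofFinite G
    have h3 : (Finset.univ.filter fun a : G => a ^ p = 1).card ≤ p := IsCyclic.card_pow_eq_one_le hp.pos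
    have h4 : (Finset.univ.filter fun a : G => a ∈ r.ker).card = p := by
      rw [← hker, Nat.card_eq_fintype_card, Fintype.card_subtype]
    have h5 : (Finset.univ.filter fun a : G => a ∈ r.ker) ⊆ Finset.univ.filter fun a : G => a ^ p = 1 := by
      intro a ha
      rw [Finset.mem_filter] at ha ⊢
      exact ⟨ha.1, hk1 a ha.2⟩
    have h6 := Finset.eq_of_subset_of_card_le h5 (by rw [h4]; exact h3)
    have h7 : s ∈ Finset.univ.filter fun a : G => a ^ p = 1 := Finset.mem_filter.2 ⟨Finset.mem_univ _, hs⟩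
    rw [← h6, Finset.mem_filter] at h7
    exact h7.2
  have hle : r.ker ≤ ((powMonoidHom p).comp θ).ker := by
    intro s hs
    rw [MonoidHom.mem_ker, MonoidHom.comp_apply, powMonoidHom_apply, ← map_pow, hk1 s hs, map_one]
  have hval : ∀ s, (r.liftOfSurjective hr ⟨(powMonoidHom p).comp θ, hle⟩) (r s) = θ s ^ p := by
    intro s
    exact MonoidHom.liftOfRightInverse_comp_apply r (Function.surjInv hr) (Function.rightInverse_surjInv hr)
      ⟨(powMonoidHom p).comp θ, hle⟩ s
  refine ⟨θ, r.liftOfSurjective hr ⟨(powMonoidHom p).comp θ, hle⟩, hθ, ?_, hval⟩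
  rw [injective_iff_map_eq_one]
  intro y hy
  obtain ⟨s, rfl⟩ := hr y
  rw [hval, ← map_pow] at hy
  exact hk2 s (hθ (hy.trans (map_one θ).symm))

end H41S
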