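import Mathlib
import Pool.Agent.Lib.H41S.D
import Pool.Agent.Lib.H35M.SX1

/-! # H41S, B2: the ray class character of a cyclic extension unramified above p -/

open NumberField IsDedekindDomain

namespace H41S

open H55N H55P
open H55R (Pl es fs pv tI)

/-- PROOF. Model: H35M.rec_full (Lib/H35M/SX1.lean), simpler here (no primes above p, any modulus). S = the finite set of ramified primes (H55R.ram_fin), N from CFT.artin (hab from θ injective), f = the product over S of
v^(N+1) (a power large enough that z - 1 in f implies Ray S N z: the valuation of z - 1 is at most exp(-(N+1)) < exp(-N): HeightOneSpectrum.valuation_le_pow_iff_mem or the lemma used in SSR.c1_dv; no real places: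
hre). f <= v iff v in S (IsPrime.prod_le). f is prime to p: a prime v in S does not contain p (pt10_ram of H55P/T10: es = 1 if p in v) so v is coprime to (p) (H55R.cop_prime), IsCoprime.prod_left, IsCoprime.pow_left. val: θ(frob)^N = θ(frob^N) = 1
(pow_card_eq_one'). per: as in SX1: choose u with u x - 1 in f, u y - 1 in f, artin for u x and u y: art S θ (dv x) = art S θ (dv y), SSR.c2_pv. -/
theorem b2_CH (M L : Type) [Field M] [NumberField M] [Field L] [NumberField L] [Algebra M L] [IsGalois M L] (p : ℕ)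
    (hp : p.Prime) (hU : UnrP p L) (hre : IsEmpty (M →+* ℝ)) (θ : (L ≃ₐ[M] L) →* ℂˣ) (hθ : Function.Injective θ) :
    ∃ f : Ideal (𝓞 M), CH p (Nat.card (L ≃ₐ[M] L)) f (fun v => θ (CFT.frob M L v)) ∧
      ∀ v : Pl M, f ≤ v.asIdeal ↔ es M L v ≠ 1 := by
  classical
  have hfinG : Finite (L ≃ₐ[M] L) := inferInstance
  have hab : ∀ a b : L ≃ₐ[M] L, a * b = b * a := by
    intro a b
    apply hθ
    rw [map_mul, map_mul, mul_comm]
  have hfin := H55R.ram_fin M L
  obtain ⟨S, hSd⟩ : ∃ S : Finset (Pl M), S = hfin.toFinset := ⟨_, rfl⟩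
  have hS : ∀ v, v ∈ S ↔ es M L v ≠ 1 := fun v => by
    rw [hSd, Set.Finite.mem_toFinset]
    rfl
  have hS' : ∀ v : CFT.Pr M, ¬ CFT.Unr M L v → v ∈ S := fun v hv =>
    (hS v).2 (fun h => hv ((SSR.c2_unr v).2 h))
  obtain ⟨n, hart0⟩ := CFT.artin M L hab S hS'
  obtain ⟨f, hfd⟩ : ∃ f : Ideal (𝓞 M), f = ∏ v ∈ S, v.asIdeal ^ (n + 1) := ⟨_, rfl⟩
  have hf0 : f ≠ ⊥ := by
    rw [hfd]
    exact Finset.prod_ne_zero_iff.2 fun v _ => pow_ne_zero _ v.ne_bot
  have hf : ∀ v : Pl M, f ≤ v.asIdeal ↔ es M L v ≠ 1 := by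
    intro v
    have hpv := v.isPrime
    rw [hfd, hpv.prod_le]
    constructor
    · rintro ⟨w, hw, hle⟩
      have hwm := w.isMaximal
      have h1 : w = v := HeightOneSpectrum.ext (hwm.eq_of_le hpv.ne_top (hpv.le_of_pow_le hle))
      rw [← h1]
      exact (hS w).1 hw
    · intro h
      exact ⟨v, (hS v).2 h, Ideal.pow_le_self (by omega)⟩
  have hcop : IsCoprime f (Ideal.span {(p : 𝓞 M)}) := by
    rw [hfd]
    refine IsCoprime.prod_left fun v hv => IsCoprime.pow_left (H55R.cop_prime v _ ?_)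
    rw [Ideal.span_singleton_le_iff_mem]
    exact fun h => (hS v).1 hv (pt10_ram M L p hU v h)
  refine ⟨f, ⟨hf0, hcop, ?_, ?_⟩, hf⟩
  · funext v
    show θ (CFT.frob M L v) ^ Nat.card (L ≃ₐ[M] L) = 1
    rw [← map_pow, pow_card_eq_one', map_one]
  · intro x y hx hy hxc hxy
    have hyc : IsCoprime (Ideal.span {y}) f := by
      rw [Ideal.isCoprime_iff_sup_eq] at hxc ⊢
      rw [eq_top_iff, ← hxc]
      refine sup_le ?_ le_sup_right
      rw [Ideal.span_singleton_le_iff_mem]
      have h1 : x = y + (x - y) := by ring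
      rw [h1]
      exact add_mem (Ideal.mem_sup_left (Ideal.mem_span_singleton_self y)) (Ideal.mem_sup_right hxy)
    have hnot : ∀ z : 𝓞 M, IsCoprime (Ideal.span {z}) f → ∀ v ∈ S, z ∉ v.asIdeal := by
      intro z hz v hv hzv
      rw [Ideal.isCoprime_iff_sup_eq] at hz
      apply v.isPrime.ne_top
      rw [eq_top_iff, ← hz]
      exact sup_le ((Ideal.span_singleton_le_iff_mem _).2 hzv) ((hf v).2 ((hS v).1 hv))
    -- one over x modulo f
    obtain ⟨u, hu0, hu⟩ : ∃ u : 𝓞 M, u ≠ 0 ∧ u * x - 1 ∈ f := by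
      obtain ⟨a, ha, b, hb, hab1⟩ := Ideal.isCoprime_iff_exists.1 hxc
      obtain ⟨u, rfl⟩ := Ideal.mem_span_singleton'.1 ha
      by_cases hu0 : u = 0
      · refine ⟨1, one_ne_zero, ?_⟩
        rw [hu0, zero_mul, zero_add] at hab1
        rw [hab1] at hb
        rw [(Ideal.eq_top_iff_one _).2 hb]
        exact Submodule.mem_top
      · refine ⟨u, hu0, ?_⟩
        have h1 : u * x - 1 = -b := by rw [← hab1]; ring
        rw [h1]
        exact neg_mem hb
    have huy : u * y - 1 ∈ f := by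
      have h1 : u * y - 1 = (u * x - 1) - u * (x - y) := by ring
      rw [h1]
      exact sub_mem hu (Ideal.mul_mem_left _ _ hxy)
    have hart : ∀ z : 𝓞 M, z ≠ 0 → z - 1 ∈ f → CFT.art S θ (CFT.dv (z : M)) = 0 := by
      intro z hz0 hz
      refine hart0 ℂˣ θ (z : M) ⟨fun h => hz0 (RingOfIntegers.coe_eq_zero_iff.1 h), fun v hv => ?_,
        fun φ => hre.elim φ⟩
      have h1 : f ≤ v.asIdeal ^ (n + 1) := by
        rw [hfd]
        exact Ideal.le_of_dvd (Finset.dvd_prod_of_mem (fun v : Pl M => v.asIdeal ^ (n + 1)) hv)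
      have h4 := (v.intValuation_le_pow_iff_mem (z - 1) (n + 1)).2 (h1 hz)
      rw [← v.valuation_of_algebraMap (K := M) (z - 1)] at h4
      have h5 : (z : M) - 1 = algebraMap (𝓞 M) M (z - 1) := by
        rw [map_sub, map_one]
      rw [h5]
      refine lt_of_le_of_lt h4 ?_
      rw [WithZero.exp_lt_exp]
      push_cast
      omega
    have h1 := hart (u * x) (mul_ne_zero hu0 hx) hu
    have h2 := hart (u * y) (mul_ne_zero hu0 hy) huy
    have huN : (u : M) ≠ 0 := by simpa using hu0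
    have hxN : (x : M) ≠ 0 := by simpa using hx
    have hyN : (y : M) ≠ 0 := by simpa using hy
    have e1 : ((u * x : 𝓞 M) : M) = (u : M) * (x : M) := by simp
    have e2 : ((u * y : 𝓞 M) : M) = (u : M) * (y : M) := by simp
    rw [e1, CFT.dv_mul huN hxN, map_add] at h1
    rw [e2, CFT.dv_mul huN hyN, map_add] at h2
    have h3 : CFT.art S θ (CFT.dv (x : M)) = CFT.art S θ (CFT.dv (y : M)) := add_left_cancel (h1.trans h2.symm)
    rw [SSR.c2_pv S θ x hx (hnot x hxc), SSR.c2_pv S θ y hy (hnot y hyc), h3]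

end H41S
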