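import Mathlib
import Pool.Agent.Lib.H55P.T10
import Pool.Agent.Lib.H55P.CL

/-! # H41S, B4: ramification in a cyclic extension of prime power degree -/

open NumberField IsDedekindDomain

namespace H41S

open H55R (Pl es fs)

/-- The ramification index at one prime. -/
theorem b4_es {M K : Type} [Field M] [NumberField M] [Field K] [NumberField K] [Algebra M K] [IsGalois M K]
    (v : Pl M) (W : Pl K) (h : W.asIdeal.under (𝓞 M) = v.asIdeal) :
    es M K v = W.asIdeal.ramificationIdx (𝓞 M) := by
  have hp := v.isPrime
  have hW := W.isPrime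
  have hl : W.asIdeal.LiesOver v.asIdeal := ⟨h.symm⟩
  exact Ideal.ramificationIdxIn_eq_ramificationIdx v.asIdeal W.asIdeal Gal(K/M)

/-- In a cyclic group of prime power order a nontrivial subgroup contains the elements of order p. -/
theorem b4_cyc {G : Type} [Group G] [Finite G] (hc : IsCyclic G) {p m : ℕ} (hp : p.Prime) (hG : Nat.card G = p ^ m)
    (I : Subgroup G) (hI : Nat.card I ≠ 1) (x : G) (hx : x ^ p = 1) : x ∈ I := by
  classical
  have hF : Fact p.Prime := ⟨hp⟩
  have hft : Fintype G := Fintype.ofFinite G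
  have h1 : Nat.card I ∣ p ^ m := by
    rw [← hG]
    exact Subgroup.card_subgroup_dvd_card I
  have h2 : p ∣ Nat.card I := by
    obtain ⟨k, hk, h3⟩ := (Nat.dvd_prime_pow hp).1 h1
    rw [h3]
    refine dvd_pow_self p ?_
    rintro rfl
    exact hI (by rw [h3, pow_zero])
  obtain ⟨a, ha⟩ := exists_prime_orderOf_dvd_card' p h2
  have ha' : orderOf (a : G) = p := by rw [Subgroup.orderOf_coe, ha]
  have h3 := IsCyclic.card_pow_eq_one_le (α := G) hp.pos
  have h4 : (Subgroup.zpowers (a : G) : Set G).toFinset ⊆ Finset.univ.filter fun y : G => y ^ p = 1 := by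
    intro y hy
    rw [Set.mem_toFinset] at hy
    rw [Finset.mem_filter]
    refine ⟨Finset.mem_univ _, ?_⟩
    obtain ⟨k, rfl⟩ := hy
    show ((a : G) ^ k) ^ p = 1
    rw [← zpow_natCast, zpow_comm, zpow_natCast, ← ha', pow_orderOf_eq_one, one_zpow]
  have h5 : (Subgroup.zpowers (a : G) : Set G).toFinset.card = p := by
    rw [Set.toFinset_card]
    have h6 : Fintype.card (Subgroup.zpowers (a : G)) = p := by
      rw [Fintype.card_zpowers, ha']
    rw [← h6]
    rfl
  have h6 := Finset.eq_of_subset_of_card_le h4 (by rw [h5]; exact h3)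
  have h7 : x ∈ (Subgroup.zpowers (a : G) : Set G).toFinset := by
    rw [h6, Finset.mem_filter]
    exact ⟨Finset.mem_univ _, hx⟩
  rw [Set.mem_toFinset] at h7
  exact (Subgroup.zpowers_le.2 a.2) h7

/-- In a cyclic p-extension the inertia group of a ramified prime contains the subgroup of order p.
PROOF. Let W be a prime of K above w, v = W under M. The inertia group I of W over M (Ideal.inertia, {s : s x - x in W for all x in 𝓞 K}) has order e(W/v) = es M K v (Mathlib: Ideal.card_inertia_eq_ramificationIdxIn or the analogous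
statement; see also CFT/B16, B17, H55R), so is not trivial. Gal(K/M) is cyclic of order p^(n+1), so every nontrivial subgroup contains every element of order p (the elements with s^p = 1 form the unique subgroup of order p:
IsCyclic.card_pow_eq_one_le; a nontrivial p-subgroup contains an element of order p by Cauchy). An element t of Gal(K/K') (order p, restricted to scalars in Gal(K/M): AlgEquiv.restrictScalars) satisfies t^p = 1, so t is in I:
t x - x in W for all x in 𝓞 K: so the inertia group of W over K' is all of Gal(K/K'), of order p = e(W/w) = es K' K w. -/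
theorem b4_ram (M K' K : Type) [Field M] [NumberField M] [Field K'] [NumberField K'] [Field K] [NumberField K]
    [Algebra M K'] [Algebra M K] [Algebra K' K] [IsScalarTower M K' K] [IsGalois M K] [IsGalois K' K]
    (hc : IsCyclic (K ≃ₐ[M] K)) {p n : ℕ} (hp : p.Prime) (hd : Module.finrank M K = p ^ (n + 1))
    (hd' : Module.finrank K' K = p) (v : Pl M) (hv : es M K v ≠ 1) (w : Pl K') (hw : w.asIdeal.under (𝓞 M) = v.asIdeal) :
    es K' K w = p := by
  obtain ⟨W, hW⟩ := H55R.under_exists (K := K') (L := K) w
  have hWp := W.isPrime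
  have h1 : W.asIdeal.under (𝓞 K') = w.asIdeal := congrArg HeightOneSpectrum.asIdeal hW
  have h2 : W.asIdeal.under (𝓞 M) = v.asIdeal := by
    rw [← hw, ← h1, Ideal.under_under]
  have h3 : Nat.card (W.asIdeal.inertia Gal(K/M)) ≠ 1 := by
    rw [H55P.cl_card (M := M) W.asIdeal W.ne_bot, ← b4_es v W h2]
    exact hv
  have h4 : Nat.card Gal(K/M) = p ^ (n + 1) := by
    rw [IsGalois.card_aut_eq_finrank, hd]
  have h5 : Nat.card Gal(K/K') = p := by
    rw [IsGalois.card_aut_eq_finrank, hd']
  have h6 : ∀ t : Gal(K/K'), t ∈ W.asIdeal.inertia Gal(K/K') := by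
    intro t
    have h7 : t ^ p = 1 := by rw [← h5, pow_card_eq_one']
    have h8 : (t.restrictScalars M) ^ p = 1 := by
      apply AlgEquiv.ext
      intro x
      have h9 : ∀ k : ℕ, ((t.restrictScalars M) ^ k) x = (t ^ k) x := by
        intro k
        induction k with
        | zero => rfl
        | succ k ih =>
          rw [pow_succ', pow_succ', AlgEquiv.mul_apply, AlgEquiv.mul_apply, ih]
          rfl
      rw [h9, h7]
      rfl
    have h9 := b4_cyc hc hp h4 (W.asIdeal.inertia Gal(K/M)) h3 (t.restrictScalars M) h8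
    intro x
    exact h9 x
  have h7 : W.asIdeal.inertia Gal(K/K') = ⊤ := by
    rw [eq_top_iff]
    intro t _
    exact h6 t
  rw [b4_es w W h1, ← H55P.cl_card (M := K') W.asIdeal W.ne_bot, h7, Subgroup.card_top, h5]

/-- Unramified in K implies unramified in K', and the primes of K' above v are unramified in K.
PROOF. e(W/v) = e(W/w) e(w/v) (Ideal.ramificationIdx_tower / the lemma i3_tower in H55P/I3.lean or CFT.unr_tower with SSR.c2_unr). -/
theorem b4_unr (M K' K : Type) [Field M] [NumberField M] [Field K'] [NumberField K'] [Field K] [NumberField K]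
    [Algebra M K'] [Algebra M K] [Algebra K' K] [IsScalarTower M K' K] [IsGalois M K] [IsGalois M K'] [IsGalois K' K]
    (v : Pl M) (hv : es M K v = 1) : es M K' v = 1 ∧ ∀ w : Pl K', w.asIdeal.under (𝓞 M) = v.asIdeal → es K' K w = 1 := by
  have key : ∀ w : Pl K', w.asIdeal.under (𝓞 M) = v.asIdeal → es M K' v * es K' K w = 1 := by
    intro w hw
    obtain ⟨W, hW⟩ := H55R.under_exists (K := K') (L := K) w
    have hWp := W.isPrime
    have h1 : W.asIdeal.under (𝓞 K') = w.asIdeal := congrArg HeightOneSpectrum.asIdeal hW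
    have h2 : W.asIdeal.under (𝓞 M) = v.asIdeal := by
      rw [← hw, ← h1, Ideal.under_under]
    have h3 := H55P.cl_tower (M := M) (X := K') W.asIdeal
    rw [← b4_es v W h2, hv, h1, ← b4_es v w hw, ← b4_es w W h1] at h3
    exact h3.symm
  obtain ⟨w, hw⟩ := H55R.under_exists (K := M) (L := K') v
  have hw' : w.asIdeal.under (𝓞 M) = v.asIdeal := congrArg HeightOneSpectrum.asIdeal hw
  exact ⟨Nat.eq_one_of_mul_eq_one_right (key w hw'), fun w hw => Nat.eq_one_of_mul_eq_one_left (key w hw)⟩

end H41S
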