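import Mathlib
import Pool.Agent.Lib.H41S.D
import Pool.Agent.Lib.H41S.B4
import Pool.Agent.Lib.H35M.SX1

/-! # H41S, B5: the Euler factors in a cyclic extension of degree p^(n+1) -/

open NumberField IsDedekindDomain

namespace H41S

open H55N H55P
open H55R (Pl es fs pv tI)

/-- PROOF. Only algebra in a commutative monoid: split range (p^(n+1)) into the multiples of p (the image of range (p^n) under i ↦ p i: Finset.prod_image / Finset.prod_filter_mul_prod_filter_not) and the rest. -/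
theorem b5_split {A : Type} [CommMonoid A] {p : ℕ} (hp : p.Prime) (n : ℕ) (E : ℕ → A) :
    ∏ j ∈ Finset.range (p ^ (n + 1)), E j =
      (∏ j ∈ Finset.range (p ^ n), E (p * j)) * ∏ j ∈ (Finset.range (p ^ (n + 1))).filter (fun j => ¬ p ∣ j), E j := by
  rw [← Finset.prod_filter_mul_prod_filter_not (Finset.range (p ^ (n + 1))) (fun j => p ∣ j) E]
  congr 1
  symm
  refine Finset.prod_nbij (fun j => p * j) (fun j hj => ?_) (fun i _ j _ h => ?_) (fun j hj => ?_) (fun _ _ => rfl)
  · rw [Finset.mem_filter, Finset.mem_range]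
    refine ⟨?_, dvd_mul_right p j⟩
    rw [pow_succ, mul_comm]
    exact Nat.mul_lt_mul_of_pos_right (Finset.mem_range.1 hj) hp.pos
  · exact Nat.eq_of_mul_eq_mul_left hp.pos h
  · rw [Finset.mem_coe, Finset.mem_filter, Finset.mem_range] at hj
    obtain ⟨h1, i, rfl⟩ := hj
    refine ⟨i, ?_, rfl⟩
    rw [Finset.mem_coe, Finset.mem_range]
    rw [pow_succ, mul_comm] at h1
    exact Nat.lt_of_mul_lt_mul_right h1

/-- PROOF. pt4_cu (H55P/T4.lean): the left side is (prod over j < f of E j)^g with E j the Euler factor of a z^j; E is periodic with period f (z^f = 1): induction on g with Finset.prod_range_add or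
Finset.prod_range_succ_mul_comm: range (f (g+1)) = range (f g + f). -/
theorem b5_per (q : ℕ) (a z : ℂ) (f g : ℕ) (hf : 0 < f) (hz : IsPrimitiveRoot z f) :
    (ArithmeticFunction.ofPowerSeries (q ^ f) ((1 - PowerSeries.C (a ^ f) * PowerSeries.X)⁻¹ : PowerSeries ℂ)) ^ g =
    ∏ j ∈ Finset.range (f * g), ArithmeticFunction.ofPowerSeries q
      ((1 - PowerSeries.C (a * z ^ j) * PowerSeries.X)⁻¹ : PowerSeries ℂ) := by
  induction g with
  | zero => rw [pow_zero, mul_zero, Finset.prod_range_zero]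
  | succ g ih =>
    rw [pow_succ, ih, mul_add, mul_one, Finset.prod_range_add]
    congr 1
    rw [pt4_cu q a z f hf hz]
    refine Finset.prod_congr rfl fun j _ => ?_
    have h1 : z ^ (f * g + j) = z ^ j := by rw [pow_add, pow_mul, hz.pow_eq_one, one_pow, one_mul]
    rw [h1]

variable {F : Type} [Field F] [NumberField F] [IQ F]

/-- The Euler factors above an unramified prime.
PROOF. T from pt10_card (H55P/T10.lean), es = 1: T.card * fs = finrank; relNorm W = w^fs (H55R.CH2_norm), so H9_EF (PsiP L ψ) W = ofPowerSeries (q^fs) (1 - C (a^fs) X)^(-1), a = PsiP M ψ v, q = absNorm v (PsiP_top, pt4_norm; as in pt4_loc);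
fs = orderOf (frob) (CFT.order_frob with SSR.c2_unr, SSR.c2_es) = orderOf θ(frob) (θ injective: orderOf_injective), so z = θ(frob) is a primitive fs-th root (IsPrimitiveRoot.orderOf; IsPrimitiveRoot.coe_units_iff). b5_per with g = T.card. -/
theorem b5_unr (M L : Type) [Field M] [NumberField M] [Algebra F M] [Field L] [NumberField L] [Algebra F L] [Algebra M L]
    [IsScalarTower F M L] [IsGalois M L] (ψ : Ideal (𝓞 F) →*₀ 𝓞 F) (θ : (L ≃ₐ[M] L) →* ℂˣ)
    (hθ : Function.Injective θ) (v : Pl M) (hv : es M L v = 1) :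
    ∃ T : Finset (Pl L), (∀ W, W ∈ T ↔ W.asIdeal.under (𝓞 M) = v.asIdeal) ∧
      T.card * orderOf (θ (CFT.frob M L v)) = Module.finrank M L ∧
      ∏ W ∈ T, H9_EF (PsiP L ψ) W = ∏ j ∈ Finset.range (Module.finrank M L),
        ArithmeticFunction.ofPowerSeries (Ideal.absNorm v.asIdeal)
          ((1 - PowerSeries.C (PsiP M ψ v.asIdeal * (θ (CFT.frob M L v) : ℂ) ^ j) * PowerSeries.X)⁻¹ : PowerSeries ℂ) := by
  have hab : ∀ a b : L ≃ₐ[M] L, a * b = b * a := by
    intro a b
    apply hθ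
    rw [map_mul, map_mul, mul_comm]
  obtain ⟨T, hT, hc⟩ := pt10_card (K' := L) v
  rw [hv, one_mul] at hc
  obtain ⟨w, hw⟩ := CFT.below_surj (K := M) (L := L) v
  have h1 := CFT.order_frob hab ((SSR.c2_unr v).2 hv) w hw
  have h2 : orderOf (θ (CFT.frob M L v)) = fs M L v := by
    rw [orderOf_injective θ hθ, h1, ← (SSR.c2_es v w hw).2]
  have hpos : 0 < fs M L v := by
    rw [← h2]
    exact orderOf_pos_iff.2 (by
      have := (isOfFinOrder_of_finite (CFT.frob M L v))
      exact MonoidHom.isOfFinOrder θ this)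
  have hz : IsPrimitiveRoot (θ (CFT.frob M L v) : ℂ) (fs M L v) := by
    rw [IsPrimitiveRoot.coe_units_iff, ← h2]
    exact IsPrimitiveRoot.orderOf _
  refine ⟨T, hT, by rw [h2, hc], ?_⟩
  have e1 : ∀ W ∈ T, H9_EF (PsiP L ψ) W = ArithmeticFunction.ofPowerSeries (Ideal.absNorm v.asIdeal ^ fs M L v)
      ((1 - PowerSeries.C (PsiP M ψ v.asIdeal ^ fs M L v) * PowerSeries.X)⁻¹ : PowerSeries ℂ) := by
    intro W hW
    unfold H9_EF
    rw [PsiP_top (K := M) ψ L, pt4_norm M L, H55R.CH2_norm v W ((hT W).1 hW), map_pow, map_pow]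
  rw [Finset.prod_congr rfl e1, Finset.prod_const, b5_per _ _ _ _ _ hpos hz, mul_comm, hc]

/-- The Euler factors above a prime w of K' with es K' K w = p = [K : K'] : one prime above w, the same factor.
PROOF. pt10_card: T.card * (p * fs) = p, so T.card = 1, fs = 1; CH2_norm; PsiP_top; pt4_norm. -/
theorem b5_tot (K' K : Type) [Field K'] [NumberField K'] [Algebra F K'] [Field K] [NumberField K] [Algebra F K] [Algebra K' K]
    [IsScalarTower F K' K] [IsGalois K' K] (ψ : Ideal (𝓞 F) →*₀ 𝓞 F) {p : ℕ} (hp : p.Prime)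
    (hd : Module.finrank K' K = p) (w : Pl K') (hw : es K' K w = p) :
    ∃ W : Pl K, (∀ W' : Pl K, W'.asIdeal.under (𝓞 K') = w.asIdeal ↔ W' = W) ∧ H9_EF (PsiP K ψ) W = H9_EF (PsiP K' ψ) w := by
  obtain ⟨T, hT, hc⟩ := pt10_card (K' := K) w
  rw [hw, hd] at hc
  have hc1 : T.card * fs K' K w = 1 := by
    have h2 : p * (T.card * fs K' K w) = p * 1 := by
      rw [mul_one]
      nlinarith
    exact Nat.eq_of_mul_eq_mul_left hp.pos h2
  have hcT : T.card = 1 := Nat.eq_one_of_mul_eq_one_right hc1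
  have hf1 : fs K' K w = 1 := Nat.eq_one_of_mul_eq_one_left hc1
  obtain ⟨W, rfl⟩ := Finset.card_eq_one.1 hcT
  refine ⟨W, fun W' => by rw [← hT, Finset.mem_singleton], ?_⟩
  unfold H9_EF
  rw [PsiP_top (K := K') ψ K, pt4_norm K' K, H55R.CH2_norm w W ((hT W).1 (Finset.mem_singleton_self _)), hf1, pow_one]

end H41S
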