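import Mathlib
import Pool.Agent.Lib.H41S.D
import Pool.Agent.Lib.H41S.A2
import Pool.Agent.Lib.H41S.B4
import Pool.Agent.Lib.H41S.B5

/-! # H41S, B6: the L-series in a cyclic extension of degree p^(n+1) -/

open NumberField IsDedekindDomain

namespace H41S

open H55N H55P
open H55R (Pl es fs pv tI)

variable {F : Type} [Field F] [NumberField F] [IQ F]

theorem b6_EF {K : Type} [Field K] [NumberField K] (h : Ideal (𝓞 K) →*₀ ℂ) (w : Pl K) (h0 : h w.asIdeal = 0) :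
    H9_EF h w = 1 := by
  unfold H9_EF
  rw [h0, map_zero, zero_mul, sub_zero]
  have h2 : ((1 : PowerSeries ℂ)⁻¹) = 1 := by simp
  rw [h2, map_one]

section

variable (M K' K : Type) [Field M] [NumberField M] [Field K'] [NumberField K'] [Field K] [NumberField K]
    [Algebra F M] [Algebra F K'] [Algebra F K] [Algebra M K'] [Algebra M K] [Algebra K' K] [IsScalarTower F M K']
    [IsScalarTower F M K] [IsScalarTower F K' K] [IsScalarTower M K' K] [IsGalois M K] [IsGalois M K'] [IsGalois K' K]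

omit [IsGalois M K] [IsGalois M K'] [IsGalois K' K] [IsScalarTower F M K'] [IsScalarTower F M K] [IsScalarTower F K' K] in
theorem b6_loc_ram [IsGalois M K] [IsGalois M K'] [IsGalois K' K] [IsScalarTower F K' K]
    (hc : IsCyclic (K ≃ₐ[M] K)) {p n : ℕ} (hp : p.Prime) (hd : Module.finrank M K = p ^ (n + 1))
    (hdK : Module.finrank K' K = p) (ψ : Ideal (𝓞 F) →*₀ 𝓞 F) (v : Pl M) (hv : es M K v ≠ 1) :
    ∃ (A : Finset (Pl K)) (B : Finset (Pl K')), (∀ W, W ∈ A ↔ W.asIdeal.under (𝓞 M) = v.asIdeal) ∧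
      (∀ w, w ∈ B ↔ w.asIdeal.under (𝓞 M) = v.asIdeal) ∧
      ∏ W ∈ A, H9_EF (PsiP K ψ) W = ∏ w ∈ B, H9_EF (PsiP K' ψ) w := by
  classical
  obtain ⟨B, hB, -⟩ := pt10_card (K' := K') v
  have h1 : ∀ w : Pl K', ∃ W : Pl K, w ∈ B → (∀ W' : Pl K, W'.asIdeal.under (𝓞 K') = w.asIdeal ↔ W' = W) ∧
      H9_EF (PsiP K ψ) W = H9_EF (PsiP K' ψ) w := by
    intro w
    by_cases hw : w ∈ B
    · obtain ⟨W, hW⟩ := b5_tot K' K ψ hp hdK w (b4_ram M K' K hc hp hd hdK v hv w ((hB w).1 hw))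
      exact ⟨W, fun _ => hW⟩
    · obtain ⟨W, -⟩ := H55R.under_exists (L := K) w
      exact ⟨W, fun h => absurd h hw⟩
  choose W hW using h1
  refine ⟨B.image W, B, fun U => ?_, hB, ?_⟩
  · rw [Finset.mem_image]
    constructor
    · rintro ⟨w, hw, rfl⟩
      have h2 := ((hW w hw).1 (W w)).2 rfl
      rw [← (hB w).1 hw, ← h2, Ideal.under_under]
    · intro hU
      let u : Pl K' := HeightOneSpectrum.under (𝓞 K') U
      have hu : u.asIdeal = U.asIdeal.under (𝓞 K') := rfl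
      have hu2 : u ∈ B := by
        rw [hB, hu, Ideal.under_under]
        exact hU
      exact ⟨u, hu2, (((hW u hu2).1 U).1 hu.symm).symm⟩
  · rw [Finset.prod_image]
    · exact Finset.prod_congr rfl fun w hw => (hW w hw).2
    · intro w hw w' hw' he
      have h2 := ((hW w hw).1 (W w)).2 rfl
      have h3 := ((hW w' hw').1 (W w')).2 rfl
      rw [← he] at h3
      exact HeightOneSpectrum.ext (h2.symm.trans h3)

theorem b6_loc (hc : IsCyclic (K ≃ₐ[M] K)) {p n : ℕ} (hp : p.Prime) (hd : Module.finrank M K = p ^ (n + 1))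
    (hd' : Module.finrank M K' = p ^ n) (hdK : Module.finrank K' K = p) (ψ : Ideal (𝓞 F) →*₀ 𝓞 F)
    (θ : (K ≃ₐ[M] K) →* ℂˣ) (θ' : (K' ≃ₐ[M] K') →* ℂˣ) (hθ : Function.Injective θ) (hθ' : Function.Injective θ')
    (hcmp : ∀ v : Pl M, es M K v = 1 → θ' (CFT.frob M K' v) = θ (CFT.frob M K v) ^ p)
    (f : Ideal (𝓞 M)) (hf : ∀ v : Pl M, f ≤ v.asIdeal ↔ es M K v ≠ 1) (v : Pl M) :
    ∃ (A : Finset (Pl K)) (B : Finset (Pl K')), (∀ W, W ∈ A ↔ W.asIdeal.under (𝓞 M) = v.asIdeal) ∧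
      (∀ w, w ∈ B ↔ w.asIdeal.under (𝓞 M) = v.asIdeal) ∧
      ∏ W ∈ A, H9_EF (PsiP K ψ) W = (∏ w ∈ B, H9_EF (PsiP K' ψ) w) *
        ∏ j ∈ (Finset.range (p ^ (n + 1))).filter (fun j => ¬ p ∣ j),
          H9_EF (tw ψ f (fun v => θ (CFT.frob M K v)) j) v := by
  classical
  by_cases hv : es M K v = 1
  · have hfv : ¬ f ≤ v.asIdeal := fun h => (hf v).1 h hv
    have hv' := (b4_unr M K' K v hv).1
    obtain ⟨A, hA, -, hA2⟩ := b5_unr M K ψ θ hθ v hv
    obtain ⟨B, hB, -, hB2⟩ := b5_unr M K' ψ θ' hθ' v hv'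
    refine ⟨A, B, hA, hB, ?_⟩
    rw [hA2, hB2, hd, hd', b5_split hp n]
    congr 1
    · refine Finset.prod_congr rfl fun j _ => ?_
      rw [hcmp v hv, Units.val_pow_eq_pow_val, ← pow_mul]
    · refine Finset.prod_congr rfl fun j _ => ?_
      unfold H9_EF
      rw [tw_apply ψ f _ j v.ne_bot (H55R.cop_prime v _ hfv), H55R.pv_prime]
  · have hfv : f ≤ v.asIdeal := (hf v).2 hv
    obtain ⟨A, B, hA, hB, hAB⟩ := b6_loc_ram M K' K hc hp hd hdK ψ v hv
    refine ⟨A, B, hA, hB, ?_⟩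
    rw [hAB]
    have hone : ∏ j ∈ (Finset.range (p ^ (n + 1))).filter (fun j => ¬ p ∣ j),
        H9_EF (tw ψ f (fun v => θ (CFT.frob M K v)) j) v = 1 := by
      refine Finset.prod_eq_one fun j _ => ?_
      refine b6_EF _ v ?_
      refine tw_zero ψ f _ j fun hcop => ?_
      rw [Ideal.isCoprime_iff_sup_eq, sup_eq_left.2 hfv] at hcop
      exact v.isPrime.ne_top hcop
    rw [hone, mul_one]

omit [IsScalarTower F M K'] [IsScalarTower F M K] [IsScalarTower F K' K] [IsScalarTower M K' K] [IsGalois M K]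
  [IsGalois M K'] [IsGalois K' K] [Algebra K' K] in
theorem b6_AI (ψ : Ideal (𝓞 F) →*₀ 𝓞 F) (J : Finset ℕ) (t : ℕ → (Ideal (𝓞 M) →*₀ ℂ))
    (hloc : ∀ v : Pl M, ∃ (A : Finset (Pl K)) (B : Finset (Pl K')), (∀ W, W ∈ A ↔ W.asIdeal.under (𝓞 M) = v.asIdeal) ∧
      (∀ w, w ∈ B ↔ w.asIdeal.under (𝓞 M) = v.asIdeal) ∧
      ∏ W ∈ A, H9_EF (PsiP K ψ) W = (∏ w ∈ B, H9_EF (PsiP K' ψ) w) * ∏ j ∈ J, H9_EF (t j) v) :
    AI (PsiP K ψ) = AI (PsiP K' ψ) * ∏ j ∈ J, AI (t j) := by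
  classical
  choose A B hA hB hprod using hloc
  ext n
  have e1 : ∀ᶠ S : Finset (Pl M) in Filter.atTop,
      (∏ W ∈ S.biUnion A, H9_EF (PsiP K ψ) W) n = AI (PsiP K ψ) n := by
    have h1 := AI_euler (PsiP K ψ) n
    have h2 : Filter.Tendsto (fun S : Finset (Pl M) => S.biUnion A)
        Filter.atTop Filter.atTop := by
      rw [Filter.tendsto_atTop]
      intro T
      filter_upwards [Filter.eventually_ge_atTop (T.image (HeightOneSpectrum.under (𝓞 M)))] with S hS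
      intro W hW
      rw [Finset.mem_biUnion]
      refine ⟨HeightOneSpectrum.under (𝓞 M) W, hS (Finset.mem_image_of_mem _ hW), ?_⟩
      rw [hA]
      rfl
    exact h2.eventually h1
  have e1' : ∀ᶠ S : Finset (Pl M) in Filter.atTop, ∀ m ∈ Finset.range (n + 1),
      (∏ w ∈ S.biUnion B, H9_EF (PsiP K' ψ) w) m = AI (PsiP K' ψ) m := by
    have h2 : Filter.Tendsto (fun S : Finset (Pl M) => S.biUnion B)
        Filter.atTop Filter.atTop := by
      rw [Filter.tendsto_atTop]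
      intro T
      filter_upwards [Filter.eventually_ge_atTop (T.image (HeightOneSpectrum.under (𝓞 M)))] with S hS
      intro W hW
      rw [Finset.mem_biUnion]
      refine ⟨HeightOneSpectrum.under (𝓞 M) W, hS (Finset.mem_image_of_mem _ hW), ?_⟩
      rw [hB]
      rfl
    rw [Filter.eventually_all_finset]
    intro m _
    exact h2.eventually (AI_euler (PsiP K' ψ) m)
  have e2 : ∀ h : Ideal (𝓞 M) →*₀ ℂ, ∀ᶠ S : Finset (Pl M) in Filter.atTop,
      ∀ m ∈ Finset.range (n + 1), (∏ w ∈ S, H9_EF h w) m = AI h m := by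
    intro h
    rw [Filter.eventually_all_finset]
    intro m _
    exact AI_euler h m
  have e3 : ∀ᶠ S : Finset (Pl M) in Filter.atTop,
      ∀ j ∈ J, ∀ m ∈ Finset.range (n + 1), (∏ w ∈ S, H9_EF (t j) w) m = AI (t j) m := by
    rw [Filter.eventually_all_finset]
    intro j _
    exact e2 _
  obtain ⟨S, h1, h2, h3⟩ := (e1.and (e1'.and e3)).exists
  have hdA : Set.PairwiseDisjoint (↑S : Set (Pl M)) A := by
    intro w _ w' _ hne
    rw [Function.onFun, Finset.disjoint_left]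
    intro W hW hW'
    rw [hA] at hW hW'
    exact hne (HeightOneSpectrum.ext (hW.symm.trans hW'))
  have hdB : Set.PairwiseDisjoint (↑S : Set (Pl M)) B := by
    intro w _ w' _ hne
    rw [Function.onFun, Finset.disjoint_left]
    intro W hW hW'
    rw [hB] at hW hW'
    exact hne (HeightOneSpectrum.ext (hW.symm.trans hW'))
  rw [← h1, Finset.prod_biUnion hdA, Finset.prod_congr rfl fun w _ => hprod w,
    Finset.prod_mul_distrib, ← Finset.prod_biUnion hdB, Finset.prod_comm]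
  exact H55B.I2_mul_congr (fun m hm => h2 m (Finset.mem_range.2 (by omega)))
    (H55B.I2_prod_congr _ _ _ fun j hj m hm => h3 j hj m (Finset.mem_range.2 (by omega))) n le_rfl

end

theorem b6_prod {s : ℂ} (J : Finset ℕ) (f : ℕ → ArithmeticFunction ℂ) (a : ℕ → ℂ)
    (h : ∀ j ∈ J, LSeriesHasSum (fun k => f j k) s (a j)) :
    LSeriesHasSum (fun k => (∏ j ∈ J, f j) k) s (∏ j ∈ J, a j) := by
  classical
  induction J using Finset.induction_on with
  | empty =>
    have h1 := pt5_prod (s := s) 0 (fun _ => (1 : ArithmeticFunction ℂ)) (fun _ => 1) (fun j hj => absurd hj (by omega))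
    rw [Finset.prod_range_zero, Finset.prod_range_zero] at h1
    rw [Finset.prod_empty, Finset.prod_empty]
    exact h1
  | insert j J hj ih =>
    rw [Finset.prod_insert hj, Finset.prod_insert hj]
    exact ArithmeticFunction.LSeriesHasSum_mul (h j (Finset.mem_insert_self _ _))
      (ih fun i hi => h i (Finset.mem_insert_of_mem hi))

/-- the L-series over K -/
theorem b6_L (M K' K : Type) [Field M] [NumberField M] [Field K'] [NumberField K'] [Field K] [NumberField K]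
    [Algebra F M] [Algebra F K'] [Algebra F K] {m : Ideal (𝓞 F)} {ψ : Ideal (𝓞 F) →*₀ 𝓞 F} (h : IsHecke m ψ)
    (J : Finset ℕ) (t : ℕ → (Ideal (𝓞 M) →*₀ ℂ)) (ht : ∀ j a, ‖t j a‖ ^ 2 ≤ (Ideal.absNorm a : ℝ))
    (hAI : AI (PsiP K ψ) = AI (PsiP K' ψ) * ∏ j ∈ J, AI (t j))
    (Λ' : ℂ → ℂ) (hs' : ∀ s : ℂ, 3 / 2 < s.re → HasSum (tm (PsiP K' ψ) s) (Λ' s))
    (Λ : ℕ → ℂ → ℂ) (hs : ∀ j ∈ J, ∀ s : ℂ, 3 / 2 < s.re → HasSum (tm (t j) s) (Λ j s)) (s : ℂ) (hs1 : 3 / 2 < s.re) :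
    HasSum (tm (PsiP K ψ) s) (Λ' s * ∏ j ∈ J, Λ j s) := by
  have hsum := tm_summable (PsiP K ψ) (fun a => PsiP_norm_le h a) s hs1
  have hL := AI_LSeries (PsiP K ψ) (PsiP K ψ).map_zero s hsum
  have hsum1 := tm_summable (PsiP K' ψ) (fun a => PsiP_norm_le h a) s hs1
  have hL1 := AI_LSeries (PsiP K' ψ) (PsiP K' ψ).map_zero s hsum1
  have hL2 := fun j => AI_LSeries (t j) (t j).map_zero s (tm_summable (t j) (ht j) s hs1)
  have hL3 := b6_prod J (fun j => AI (t j)) (fun j => Λ j s) (fun j hj => by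
    have h3 := hL2 j
    rw [(hs j hj s hs1).tsum_eq] at h3
    exact h3)
  have hL4 := ArithmeticFunction.LSeriesHasSum_mul hL1 hL3
  rw [← hAI] at hL4
  have h5 : ∑' a, tm (PsiP K ψ) s a = Λ' s * ∏ j ∈ J, Λ j s := by
    rw [hL.unique hL4, (hs' s hs1).tsum_eq]
  rw [← h5]
  exact hsum.of_norm.hasSum

end H41S
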