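import Mathlib
import Pool.Agent.Lib.H41S.A6
import Pool.Agent.Lib.H41S.B1
import Pool.Agent.Lib.H41S.B2
import Pool.Agent.Lib.H41S.B6
import Pool.Agent.Lib.H35M.SX3A
import Pool.Agent.Lib.CFT.B20

/-! # H41S: the L-value over K of degree p^(n+1), cyclic over M, when the L-value over the subfield K' of degree p^n is a unit -/

open NumberField IsDedekindDomain

namespace H41S

open H55N H55P
open H55R (Pl es fs pv tI)

variable {F : Type} [Field F] [NumberField F] [IQ F]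

theorem fin_arith {p : ℕ} (hp : p.Prime) (n : ℕ) : p ^ (n + 1) = p ^ n + p ^ n * (p - 1) := by
  obtain ⟨k, hk⟩ : ∃ k, p = k + 1 := ⟨p - 1, (Nat.sub_add_cancel hp.one_le).symm⟩
  rw [hk, Nat.add_sub_cancel, pow_succ]
  ring

theorem fin_card {p : ℕ} (hp : p.Prime) (n : ℕ) :
    ((Finset.range (p ^ (n + 1))).filter (fun j => ¬ p ∣ j)).card = p ^ n * (p - 1) := by
  have h1 := b5_split hp n (fun _ => (2 : ℕ))
  rw [Finset.prod_const, Finset.prod_const, Finset.prod_const, Finset.card_range, Finset.card_range, ← pow_add] at h1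
  have h2 := Nat.pow_right_injective (le_refl 2) h1
  have h3 := fin_arith hp n
  omega

section

variable (M K' K : Type) [Field M] [NumberField M] [Field K'] [NumberField K'] [Field K] [NumberField K]
    [Algebra F M] [Algebra F K'] [Algebra F K] [Algebra M K'] [Algebra M K] [Algebra K' K] [IsScalarTower F M K']
    [IsScalarTower F M K] [IsScalarTower F K' K] [IsScalarTower M K' K] [IsGalois M K] [IsGalois M K'] [IsGalois K' K]

/-- the residue degrees are powers of p -/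
theorem fin_deg {M L : Type} [Field M] [NumberField M] [Field L] [NumberField L] [Algebra M L] [IsGalois M L]
    {p n : ℕ} (hp : p.Prime) (hd : Module.finrank M L = p ^ n) (v : Pl M) (w : Pl L)
    (hw : w.asIdeal.under (𝓞 M) = v.asIdeal) : ∃ j : ℕ, w.asIdeal.inertiaDeg (𝓞 M) = p ^ j := by
  obtain ⟨T, -, hT⟩ := pt10_card (K' := L) v
  have hl : w.asIdeal.LiesOver v.asIdeal := ⟨hw.symm⟩
  have hv := v.isMaximal
  have hvp := v.isPrime
  have hW := w.isMaximal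
  have hWp := w.isPrime
  have h2 := Ideal.inertiaDegIn_eq_inertiaDeg v.asIdeal w.asIdeal Gal(L/M)
  rw [hd] at hT
  have h3 : fs M L v ∣ p ^ n := ⟨T.card * es M L v, by rw [← hT]; ring⟩
  obtain ⟨j, -, hj⟩ := (Nat.dvd_prime_pow hp).1 h3
  exact ⟨j, by rw [← h2]; exact hj⟩

theorem main_abs (hc : IsCyclic (K ≃ₐ[M] K)) {p n : ℕ} (hp : p.Prime) (hd : Module.finrank M K = p ^ (n + 1))
    (hd' : Module.finrank M K' = p ^ n) {m : Ideal (𝓞 F)} {ψ : Ideal (𝓞 F) →*₀ 𝓞 F} (h : IsHecke m ψ)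
    (hmp : IsCoprime m (Ideal.span {(p : 𝓞 F)})) (hU : UnrP p K) (Ac Bc Om : ℂ) (hper : Per F Ac Bc Om)
    (V : ValuationSubring ℂ) (hV : V.valuation (p : ℂ) < 1) (hg : GoodV Ac Bc V) (hNT : NTP M p m ψ V)
    (hLM : LVP F V Om (PsiP M ψ)) (hL : LVP F V Om (PsiP K' ψ))
    (hna : ∀ v : Pl M, es M K' v ≠ 1 → V.valuation (1 - (starRingEnd ℂ) (PsiP M ψ v.asIdeal)) = 1)
    (T : Finset (Pl K')) (hT : ∀ w, w ∈ T ↔ es K' K w ≠ 1 ∧ V.valuation (1 - (starRingEnd ℂ) (PsiP K' ψ w.asIdeal)) ≠ 1)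
    (hr : T.card < p ^ n) :
    ∃ Λ : ℂ → ℂ, AnalyticOnNhd ℂ Λ {s | 1 / 2 < s.re} ∧
      (∀ s : ℂ, 3 / 2 < s.re → HasSum (tm (PsiP K ψ) s) (Λ s)) ∧
      V.valuation (Λ 1 / Om ^ Module.finrank F K) = V.valuation (p : ℂ) ^ T.card := by
  classical
  have hN : 0 < p ^ (n + 1) := pow_pos hp.pos _
  have hN' : 0 < p ^ n := pow_pos hp.pos _
  have hdK : Module.finrank K' K = p := by
    have h1 := Module.finrank_mul_finrank M K' K
    rw [hd, hd', pow_succ] at h1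
    exact Nat.eq_of_mul_eq_mul_left hN' h1
  have hK'u : UnrP p K' := UnrP.down K' K p hp hU
  have hMu : UnrP p M := UnrP.down M K p hp hU
  have hFu : UnrP p F := UnrP.down F K p hp hU
  have hre : IsEmpty (M →+* ℝ) := H35M.sx3_real F M
  have hG : Nat.card (K ≃ₐ[M] K) = p ^ (n + 1) := by rw [IsGalois.card_aut_eq_finrank, hd]
  have hG' : Nat.card (K' ≃ₐ[M] K') = p ^ n := by rw [IsGalois.card_aut_eq_finrank, hd']
  obtain ⟨θ, θ', hθ, hθ', hθθ⟩ := b1_pair hc hp hG hG' (AlgEquiv.restrictNormalHom K' : (K ≃ₐ[M] K) →* (K' ≃ₐ[M] K'))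
    (AlgEquiv.restrictNormalHom_surjective K)
  have hab : ∀ a b : K ≃ₐ[M] K, a * b = b * a := by
    intro a b
    apply hθ
    rw [map_mul, map_mul, mul_comm]
  have hcmp : ∀ v : Pl M, es M K v = 1 → θ' (CFT.frob M K' v) = θ (CFT.frob M K v) ^ p := by
    intro v hv
    rw [← hθθ, CFT.frob_res M K' K hab ((SSR.c2_unr v).2 hv)]
  obtain ⟨f, hφ, hf⟩ := b2_CH M K p hp hU hre θ hθ
  obtain ⟨f', hφ', hf'⟩ := b2_CH M K' p hp hK'u hre θ' hθ'
  rw [hG] at hφ
  rw [hG'] at hφ'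
  have hff : ∀ v : Pl M, f' ≤ v.asIdeal → f ≤ v.asIdeal := by
    intro v hv
    rw [hf]
    rw [hf'] at hv
    exact fun h1 => hv (b4_unr M K' K v h1).1
  have hcmp' : ∀ v : Pl M, ¬ f ≤ v.asIdeal → θ' (CFT.frob M K' v) = θ (CFT.frob M K v) ^ p := by
    intro v hv
    refine hcmp v ?_
    by_contra h1
    exact hv ((hf v).2 h1)
  -- the anomalous ramified primes of M
  have hfin : {w : HeightOneSpectrum (𝓞 M) | w.asIdeal ∣ f}.Finite := Ideal.finite_factors hφ.ne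
  obtain ⟨A, hA⟩ : ∃ A : Finset (Pl M), ∀ w, w ∈ A ↔ f ≤ w.asIdeal ∧
      V.valuation (1 - (starRingEnd ℂ) (PsiP M ψ w.asIdeal)) ≠ 1 :=
    ⟨hfin.toFinset.filter fun w => V.valuation (1 - (starRingEnd ℂ) (PsiP M ψ w.asIdeal)) ≠ 1, fun w => by
      rw [Finset.mem_filter, Set.Finite.mem_toFinset]
      exact and_congr_left fun _ => Ideal.dvd_iff_le⟩
  have hB0 : ∀ v : Pl M, ∃ B : Finset (Pl K'), ∀ w, w ∈ B ↔ w.asIdeal.under (𝓞 M) = v.asIdeal := fun v => by
    obtain ⟨B, hB, -⟩ := pt10_card (K' := K') v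
    exact ⟨B, hB⟩
  choose B hB using hB0
  have hTB : T = A.biUnion B := by
    ext w
    rw [hT, Finset.mem_biUnion]
    constructor
    · rintro ⟨h1, h2⟩
      let v : Pl M := HeightOneSpectrum.under (𝓞 M) w
      have hv : w.asIdeal.under (𝓞 M) = v.asIdeal := rfl
      refine ⟨v, ?_, (hB v w).2 hv⟩
      rw [hA, hf]
      refine ⟨fun h3 => h1 ((b4_unr M K' K v h3).2 w hv), fun h3 => h2 ?_⟩
      exact (adm_iff M K' p hp V hV v w hv (fin_deg hp hd' v w hv)).1 h3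
    · rintro ⟨v, hvA, hwB⟩
      have hv := (hB v w).1 hwB
      rw [hA, hf] at hvA
      refine ⟨?_, fun h3 => hvA.2 ?_⟩
      · rw [b4_ram M K' K hc hp hd hdK v hvA.1 w hv]
        exact hp.one_lt.ne'
      · exact (adm_iff M K' p hp V hV v w hv (fin_deg hp hd' v w hv)).2 h3
  have hcard : ∑ v ∈ A, (B v).card = T.card := by
    rw [hTB, Finset.card_biUnion]
    intro w _ w' _ hne
    rw [Function.onFun, Finset.disjoint_left]
    intro W hW hW'
    rw [hB] at hW hW'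
    exact hne (HeightOneSpectrum.ext (hW.symm.trans hW'))
  have hgg : ∀ v ∈ A, (B v).card * orderOf (θ' (CFT.frob M K' v)) = p ^ n := by
    intro v hv
    have hv' : es M K' v = 1 := by
      by_contra h1
      exact ((hA v).1 hv).2 (hna v h1)
    obtain ⟨B', hB', h1, -⟩ := b5_unr M K' ψ θ' hθ' v hv'
    have h2 : B' = B v := by
      ext w
      rw [hB', hB]
    rw [← h2, h1, hd']
  obtain ⟨η, hη⟩ : ∃ η : ℂ, IsPrimitiveRoot η (p ^ (n + 1)) := ⟨_, Complex.isPrimitiveRoot_exp _ hN.ne'⟩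
  have key := fun (j : ℕ) (hj : ¬ p ∣ j) => tw_val p hp h hmp hFu hMu Ac Bc Om hper V hV hg hNT f f'
    (fun v => θ (CFT.frob M K v)) (fun v => θ' (CFT.frob M K' v)) hφ hφ' hff hcmp' hLM
    (fun v hv => hna v ((hf' v).1 hv)) A hA (fun v => (B v).card) hgg (by rw [hcard]; exact hr) η hη j hj
  have key2 : ∀ j : ℕ, ∃ Λ : ℂ → ℂ, ¬ p ∣ j → AnalyticOnNhd ℂ Λ {s | 1 / 2 < s.re} ∧
      (∀ s : ℂ, 3 / 2 < s.re → HasSum (tm (tw ψ f (fun v => θ (CFT.frob M K v)) j) s) (Λ s)) ∧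
      V.valuation (Λ 1 / Om ^ Module.finrank F M) = V.valuation (1 - η) ^ T.card := by
    intro j
    by_cases hj : p ∣ j
    · exact ⟨fun _ => 0, fun h1 => absurd hj h1⟩
    · obtain ⟨Λ, h1, h2, h3⟩ := key j hj
      exact ⟨Λ, fun _ => ⟨h1, h2, by rw [h3, hcard]⟩⟩
  choose Λ hΛ using key2
  obtain ⟨Λ', ha', hs', hu'⟩ := hL
  obtain ⟨J, hJ⟩ : ∃ J, J = (Finset.range (p ^ (n + 1))).filter (fun j => ¬ p ∣ j) := ⟨_, rfl⟩
  have hJm : ∀ j ∈ J, ¬ p ∣ j := fun j hj => by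
    rw [hJ] at hj
    exact (Finset.mem_filter.1 hj).2
  have hAI := b6_AI M K' K ψ J (fun j => tw ψ f (fun v => θ (CFT.frob M K v)) j) (fun v => by
    rw [hJ]
    exact b6_loc M K' K hc hp hd hd' hdK ψ θ θ' hθ hθ' hcmp f hf v)
  refine ⟨fun s => Λ' s * ∏ j ∈ J, Λ j s, fun s hs => (ha' s hs).mul ?_, fun s hs => ?_, ?_⟩
  · exact Finset.analyticAt_fun_prod _ fun j hj => (hΛ j (hJm j hj)).1 s hs
  · exact b6_L M K' K h J _ (fun j a => tw_norm_le h hN.ne' hφ j a) hAI Λ' hs' Λ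
      (fun j hj => (hΛ j (hJm j hj)).2.1) s hs
  · have hJc : J.card = p ^ n * (p - 1) := by rw [hJ]; exact fin_card hp n
    have hfr : Module.finrank F K = Module.finrank F K' + Module.finrank F M * (p ^ n * (p - 1)) := by
      rw [← Module.finrank_mul_finrank F M K, ← Module.finrank_mul_finrank F M K', hd, hd', ← mul_add]
      congr 1
      exact fin_arith hp n
    have h5 : Om ^ Module.finrank F K = Om ^ Module.finrank F K' * ∏ j ∈ J, Om ^ Module.finrank F M := by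
      rw [hfr, pow_add, pow_mul, Finset.prod_const, hJc]
    show V.valuation ((Λ' 1 * ∏ j ∈ J, Λ j 1) / Om ^ Module.finrank F K) = _
    rw [h5, mul_div_mul_comm, ← Finset.prod_div_distrib, map_mul, hu', one_mul, map_prod,
      Finset.prod_congr rfl fun j hj => (hΛ j (hJm j hj)).2.2, Finset.prod_const, hJc, ← pow_mul, mul_comm, pow_mul,
      c1_root V hp hη]

end

end H41S
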