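import Mathlib
import Pool.Agent.Lib.H41S.Fin

/-! # H41S: the same theorem for intermediate fields of Ω/F, with the unit condition only over K' -/

open NumberField IsDedekindDomain

namespace H41S

open H55N H55P
open H55R (Pl es fs pv tI)

variable {F : Type} [Field F] [NumberField F] {Ω : Type} [Field Ω] [DecidableEq Ω]
  [Algebra F Ω] [IsAlgClosed Ω] [Algebra.IsAlgebraic F Ω] [CharZero Ω]

omit [DecidableEq Ω] [IsAlgClosed Ω] [Algebra.IsAlgebraic F Ω] in
/-- Ram and the ramification index -/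
theorem ram_es (A B : IntermediateField F Ω) [NumberField A] [NumberField B] (h : A ≤ B) (w : HeightOneSpectrum (𝓞 A))
    (hG : letI := s13_alg h; IsGalois A B) :
    letI := s13_alg h
    (Ram A B w.asIdeal ↔ es A B w ≠ 1) := by
  letI := s13_alg h
  have hG' : IsGalois A B := hG
  have hwm := w.isMaximal
  constructor
  · rintro ⟨W, hWp, hW⟩
    have h1 : ∀ x ∈ w.asIdeal, algebraMap (𝓞 A) (𝓞 B) x ∈ W ^ 2 := fun x hx => hW x _ hx rfl
    have hle : w.asIdeal ≤ W.under (𝓞 A) := by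
      intro x hx
      rw [Ideal.mem_comap]
      exact Ideal.pow_le_self two_ne_zero (h1 x hx)
    have hl : W.LiesOver w.asIdeal := ⟨hwm.eq_of_le (inferInstance : (W.under (𝓞 A)).IsPrime).ne_top hle⟩
    show w.asIdeal.ramificationIdxIn (𝓞 B) ≠ 1
    rw [Ideal.ramificationIdxIn_eq_ramificationIdx w.asIdeal W Gal(B/A)]
    exact i3_idx w.asIdeal w.ne_bot W h1
  · intro h1
    obtain ⟨Q, hQ1, hQ2⟩ := Ideal.exists_maximal_ideal_liesOver_of_isIntegral (S := 𝓞 B) w.asIdeal
    have hQp := hQ1.isPrime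
    have hw3 : w.asIdeal.ramificationIdxIn (𝓞 B) ≠ 1 := h1
    rw [Ideal.ramificationIdxIn_eq_ramificationIdx w.asIdeal Q Gal(B/A)] at hw3
    refine ⟨Q, hQp, fun x y hx hxy => ?_⟩
    have h2 : y = algebraMap (𝓞 A) (𝓞 B) x := by
      apply RingOfIntegers.ext
      apply Subtype.ext
      exact hxy
    rw [h2]
    exact s13_le_sq w.asIdeal w.ne_bot Q hw3 _ hx

omit [NumberField F] [DecidableEq Ω] in
/-- cyclic Galois group from a generator in the absolute Galois group -/
theorem int_cyc (M N : IntermediateField F Ω) (hMN : M ≤ N) (γ : Ω ≃ₐ[F] Ω) (hγ : γ ∈ M.fixingSubgroup)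
    (hst : ∀ s ∈ M.fixingSubgroup, ∀ x ∈ N, s x ∈ N)
    (gen : ∀ s ∈ M.fixingSubgroup, ∃ k : ℕ, ∃ u ∈ N.fixingSubgroup, s = γ ^ k * u) :
    letI := s13_alg hMN
    IsCyclic (N ≃ₐ[M] N) := by
  letI := s13_alg hMN
  have t1 : IsScalarTower F M N := IsScalarTower.of_algebraMap_eq fun x => rfl
  have t2 : IsScalarTower M N Ω := IsScalarTower.of_algebraMap_eq fun x => rfl
  have hnorm : Normal M Ω := by
    have h1 : IsAlgClosure M Ω := ⟨inferInstance, Algebra.IsAlgebraic.tower_top (K := F) M⟩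
    exact IsAlgClosure.normal M Ω
  -- restriction of γ
  have hinv : ∀ s ∈ M.fixingSubgroup, ∀ x ∈ N, s⁻¹ x ∈ N := fun s hs x hx => hst s⁻¹ (inv_mem hs) x hx
  let g : N ≃ₐ[M] N :=
    { toFun := fun x => ⟨γ x.1, hst γ hγ x.1 x.2⟩
      invFun := fun x => ⟨γ⁻¹ x.1, hinv γ hγ x.1 x.2⟩
      left_inv := fun x => Subtype.ext (by
        show γ⁻¹ (γ x.1) = x.1
        rw [← AlgEquiv.mul_apply, inv_mul_cancel]
        rfl)
      right_inv := fun x => Subtype.ext (by
        show γ (γ⁻¹ x.1) = x.1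
        rw [← AlgEquiv.mul_apply, mul_inv_cancel]
        rfl)
      map_mul' := fun x y => Subtype.ext (map_mul γ x.1 y.1)
      map_add' := fun x y => Subtype.ext (map_add γ x.1 y.1)
      commutes' := fun x => Subtype.ext (hγ x) }
  have hg : ∀ (k : ℕ) (x : N), ((g ^ k) x : Ω) = (γ ^ k) (x : Ω) := by
    intro k
    induction k with
    | zero => intro x; rw [pow_zero, pow_zero]; rfl
    | succ k ih =>
      intro x
      rw [pow_succ, pow_succ]
      show (((g ^ k) (g x) : N) : Ω) = (γ ^ k) (γ (x : Ω))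
      rw [ih]
      rfl
  refine ⟨⟨g, fun σ => ?_⟩⟩
  let s : Ω ≃ₐ[F] Ω := (σ.liftNormal Ω).restrictScalars F
  have hs1 : ∀ x : M, s (x : Ω) = x := fun x => (σ.liftNormal Ω).commutes x
  have hs2 : ∀ x : N, s (x : Ω) = (σ x : Ω) := fun x => σ.liftNormal_commutes Ω x
  obtain ⟨k, u, hu, hk⟩ := gen s (fun x => hs1 x)
  refine ⟨k, ?_⟩
  show g ^ (k : ℤ) = σ
  rw [zpow_natCast]
  apply AlgEquiv.ext
  intro x
  apply Subtype.ext
  rw [hg k x, ← hs2 x, hk]
  show (γ ^ k) (x : Ω) = (γ ^ k) (u (x : Ω))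
  rw [show u (x : Ω) = (x : Ω) from hu x]

/-- THE L-VALUE OVER N, N/M cyclic of degree p^(n+1), N' the subfield of degree p^n, when the L-value over N' is a unit at V and the
number of the primes of N' which are ramified in N and where 1 minus the conjugate of the Hecke character is not a unit at V is less than p^n. -/
theorem main_int [IQ F] {p n : ℕ} (hp : p.Prime) (M N' N : IntermediateField F Ω) [NumberField M] [NumberField N']
    [NumberField N] (le : M ≤ N') (le' : N' ≤ N) (γ : Ω ≃ₐ[F] Ω) (hγ : γ ∈ M.fixingSubgroup)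
    (nrm : ∀ s ∈ M.fixingSubgroup, ∀ x ∈ N, s x ∈ N)
    (gen : ∀ s ∈ M.fixingSubgroup, ∃ k : ℕ, ∃ u ∈ N.fixingSubgroup, s = γ ^ k * u)
    (deg : Module.finrank F N = Module.finrank F M * p ^ (n + 1)) (deg' : Module.finrank F N = Module.finrank F N' * p)
    {m : Ideal (𝓞 F)} {ψ : Ideal (𝓞 F) →*₀ 𝓞 F} (h : IsHecke m ψ)
    (hmp : IsCoprime m (Ideal.span {(p : 𝓞 F)})) (hU : UnrP p N) (Ac Bc Om : ℂ) (hper : Per F Ac Bc Om)
    (V : ValuationSubring ℂ) (hV : V.valuation (p : ℂ) < 1) (hg : GoodV Ac Bc V) (hNT : NTP M p m ψ V)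
    (hL : LVP F V Om (PsiP N' ψ)) (T : Finset (HeightOneSpectrum (𝓞 N')))
    (hT : ∀ w, w ∈ T ↔ Ram N' N w.asIdeal ∧ V.valuation (1 - (starRingEnd ℂ) (PsiP N' ψ w.asIdeal)) ≠ 1)
    (hr : T.card < p ^ n) :
    ∃ Λ : ℂ → ℂ, AnalyticOnNhd ℂ Λ {s | 1 / 2 < s.re} ∧
      (∀ s : ℂ, 3 / 2 < s.re → HasSum (tm (PsiP N ψ) s) (Λ s)) ∧
      V.valuation (Λ 1 / Om ^ Module.finrank F N) = V.valuation (p : ℂ) ^ T.card := by
  have hNf : FiniteDimensional F N := Module.Finite.of_restrictScalars_finite ℚ F N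
  have hN'f : FiniteDimensional F N' := Module.Finite.of_restrictScalars_finite ℚ F N'
  have hMf : FiniteDimensional F M := Module.Finite.of_restrictScalars_finite ℚ F M
  have hL0 : PExt p M N := ⟨hNf, le.trans le', nrm, ⟨n + 1, deg⟩⟩
  letI a1 : Algebra M N' := s13_alg le
  letI a2 : Algebra M N := s13_alg (le.trans le')
  letI a3 : Algebra N' N := s13_alg le'
  have t1 : IsScalarTower F M N' := alg_tower M N' le
  have t2 : IsScalarTower F M N := alg_tower M N (le.trans le')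
  have t3 : IsScalarTower F N' N := alg_tower N' N le'
  have t4 : IsScalarTower M N' N := IsScalarTower.of_algebraMap_eq fun x => rfl
  have g1 : IsGalois M N := s13_galois M N (le.trans le') nrm
  have hcyc : IsCyclic (N ≃ₐ[M] N) := int_cyc M N (le.trans le') γ hγ nrm gen
  have g3 : IsGalois N' N := IsGalois.tower_top_of_isGalois M N' N
  have hab : IsMulCommutative (N ≃ₐ[M] N) := ⟨⟨fun a b => by
    letI : CommGroup (N ≃ₐ[M] N) := IsCyclic.commGroup
    exact mul_comm a b⟩⟩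
  have g2 : IsGalois M N' := by
    have h1 : IsAbelianGalois M N := { g1 with }
    have h2 : IsAbelianGalois M N' := IsAbelianGalois.tower_bot M N' N
    infer_instance
  have hMpos : 0 < Module.finrank F M := Module.finrank_pos
  have hd : Module.finrank M N = p ^ (n + 1) := by
    have h1 := Module.finrank_mul_finrank F M N
    rw [deg] at h1
    exact Nat.eq_of_mul_eq_mul_left hMpos h1
  have hd' : Module.finrank M N' = p ^ n := by
    have h1 := Module.finrank_mul_finrank F M N'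
    have h2 : Module.finrank F M * Module.finrank M N' * p = Module.finrank F M * p ^ n * p := by
      rw [h1, ← deg', deg, pow_succ, mul_assoc]
    exact Nat.eq_of_mul_eq_mul_left hMpos (Nat.eq_of_mul_eq_mul_right hp.pos h2)
  have hU' : UnrP p N' := UnrP.down N' N p hp hU
  obtain ⟨hLM, hna⟩ := (LVP_tower_iff p hp M N hL0 h hmp Ac Bc Om hper V hV hg hNT N' le le' hU').1 hL
  refine main_abs M N' N hcyc hp hd hd' h hmp hU Ac Bc Om hper V hV hg hNT hLM hL (fun v hv => ?_) T (fun w => ?_) hr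
  · exact hna v ((ram_es M N' le v g2).2 hv)
  · rw [hT, ram_es N' N le' w g3]

end H41S
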