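import Pool.Agent.Lib.H41S.K
import Pool.Agent.Lib.H31S.C7
import Pool.Agent.Lib.LD9.Cr

/-!
# H41S, file R: the fractional covering predicate and the reduction at a 2-cut (MP_33911d)
-/

set_option autoImplicit false
set_option linter.unusedSectionVars false

namespace H41S

open Finset H98M LD H85TF

variable {V : Type} [Fintype V] [DecidableEq V]

theorem cut_edge_out {x y : V} {S : Finset V} (hx : x ∈ S) (hy : y ∉ S) : H31S.cut (H31S.edge x y) S = 1 := by
  unfold H31S.cut
  rw [sum_eq_single x]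
  · rw [sum_eq_single y]
    · simp [H31S.edge]
    · intro v hv hvy
      have h1 : s(x, v) ≠ s(x, y) := fun h => hvy (Sym2.congr_right.1 h)
      simp [H31S.edge, h1]
    · exact fun h => absurd (mem_compl.2 hy) h
  · intro u hu hux
    refine sum_eq_zero fun v hv => ?_
    have h1 : s(u, v) ≠ s(x, y) := by
      intro h
      rcases Sym2.eq_iff.1 h with h | h
      · exact hux h.1
      · exact hy (h.1 ▸ hu)
    simp [H31S.edge, h1]
  · exact fun h => absurd hx h

theorem cut_edge_in {x y : V} {S : Finset V} (h : x ∈ S ↔ y ∈ S) : H31S.cut (H31S.edge x y) S = 0 := by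
  unfold H31S.cut
  refine sum_eq_zero fun u hu => sum_eq_zero fun v hv => ?_
  have hv' := mem_compl.1 hv
  have h1 : s(u, v) ≠ s(x, y) := by
    intro h2
    rcases Sym2.eq_iff.1 h2 with ⟨rfl, rfl⟩ | ⟨rfl, rfl⟩
    · exact hv' (h.1 hu)
    · exact hv' (h.2 hu)
  simp [H31S.edge, h1]

theorem deg_edge_left {x y : V} : H31S.deg (H31S.edge x y) x = 1 := by
  unfold H31S.deg
  rw [sum_eq_single y]
  · simp [H31S.edge]
  · intro v _ hvy
    have h1 : s(x, v) ≠ s(x, y) := fun h => hvy (Sym2.congr_right.1 h)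
    simp [H31S.edge, h1]
  · exact fun h => absurd (mem_univ y) h

theorem deg_edge_right {x y : V} : H31S.deg (H31S.edge x y) y = 1 := by
  unfold H31S.deg
  rw [sum_eq_single x]
  · simp [H31S.edge, Sym2.eq_swap]
  · intro v _ hvx
    have h1 : s(y, v) ≠ s(x, y) := fun h => hvx (by
      rw [Sym2.eq_swap (a := x)] at h
      exact Sym2.congr_right.1 h)
    simp [H31S.edge, h1]
  · exact fun h => absurd (mem_univ x) h

theorem deg_edge_nn {x y v : V} : 0 ≤ H31S.deg (H31S.edge x y) v := by
  unfold H31S.deg H31S.edge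
  exact sum_nonneg fun w _ => by split_ifs <;> norm_num

/-- The cut of two vertices. -/
theorem cut_pair {G : Finset (Sym2 V)} {z : V → V → ℝ} (hz : H31S.Wt G z) {x y : V} (hxy : x ≠ y) :
    H31S.cut z {x, y} ≤ H31S.deg z x + H31S.deg z y - 2 * z x y := by
  unfold H31S.cut H31S.deg
  rw [sum_pair hxy]
  have h1 : ∀ u, ∑ v, z u v = ∑ v ∈ ({x, y} : Finset V), z u v + ∑ v ∈ ({x, y} : Finset V)ᶜ, z u v :=
    fun u => (sum_add_sum_compl _ _).symm
  rw [h1 x, h1 y, sum_pair hxy, sum_pair hxy]
  have h2 := hz.nn x x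
  have h3 := hz.nn y y
  have h4 := hz.symm y x
  linarith

/-- Removing an end-vertex of a heavy edge from the inner side of a cut. -/
theorem cut_erase {G : Finset (Sym2 V)} {z : V → V → ℝ} (hz : H31S.Wt G z) {x : V} {S : Finset V} (hx : x ∈ S)
    (hxx : z x x = 0) : H31S.cut z (S.erase x) = H31S.cut z S - 2 * (∑ v ∈ Sᶜ, z x v) + H31S.deg z x := by
  have h0 : (S.erase x)ᶜ = insert x Sᶜ := by
    ext v
    simp only [mem_compl, mem_erase, mem_insert]
    tauto
  have h1 : H31S.cut z (S.erase x) = ∑ u ∈ S.erase x, (z u x + ∑ v ∈ Sᶜ, z u v) := by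
    unfold H31S.cut
    rw [h0]
    exact sum_congr rfl fun u _ => sum_insert (by simp [hx])
  have h2 : H31S.cut z S = ∑ v ∈ Sᶜ, z x v + ∑ u ∈ S.erase x, ∑ v ∈ Sᶜ, z u v := by
    unfold H31S.cut
    exact (add_sum_erase S _ hx).symm
  have h3 : H31S.deg z x = ∑ v ∈ S.erase x, z x v + ∑ v ∈ Sᶜ, z x v := by
    unfold H31S.deg
    rw [← sum_add_sum_compl S, ← add_sum_erase S (fun v => z x v) hx, hxx, zero_add]
  have h4 : ∑ u ∈ S.erase x, z u x = ∑ u ∈ S.erase x, z x u := sum_congr rfl fun u _ => hz.symm u x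
  rw [h1, sum_add_distrib, h4, h2, h3]
  ring

/-- THE REDUCTION: a fractional covering of the reduced graph gives one of the graph. -/
theorem pi_red {G : Finset (Sym2 V)} {Y : Finset V} {x y : V} {P Q A : Finset V} (hT : TCY G Y)
    (hs : Sep G Y x y P Q) (hQ : Disjoint A Q) (h3 : 3 ≤ A.card) (h : H31S.Pi (red G Y x y Q) A) :
    H31S.Pi G A := by
  obtain ⟨z, hz, hdeg, hsep⟩ := h
  have hxy := hs.ne
  obtain ⟨p, hp, hpU, hpx, hpy, hp2, hpc⟩ := H31S.path_wt (G := G) (U := insert x (insert y Q)) (b := x) (u := y)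
    (by simp) (by simp) hxy (side_conn hT hs)
  have hred : ∀ {u v : V}, s(u, v) ∈ red G Y x y Q → s(u, v) = s(x, y) ∨ (s(u, v) ∈ G ∧ u ∉ Q ∧ v ∉ Q) := by
    intro u v h
    unfold red at h
    rcases mem_insert.1 h with h | h
    · exact Or.inl h
    · obtain ⟨h1, h2⟩ := mem_inter.1 h
      rw [mk_mem_sym2_iff] at h2
      exact Or.inr ⟨h1, (mem_sdiff.1 h2.1).2, (mem_sdiff.1 h2.2).2⟩
  have hxx : ∀ v, z v v = 0 := fun v => hz.supp v v fun h => by
    rcases hred h with h | h
    · rcases Sym2.eq_iff.1 h with h | h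
      · exact hxy (h.1.symm.trans h.2)
      · exact hxy (h.2.symm.trans h.1)
    · exact hT.loop _ h.1 (by simp)
  obtain ⟨w, hw⟩ : ∃ w, w = z x y := ⟨_, rfl⟩
  have hw0 : 0 ≤ w := by rw [hw]; exact hz.nn x y
  -- a heavy edge
  have heavy : 1 < w → ∀ S : Finset V, H31S.Sep A S → x ∈ S → y ∉ S → 2 * w ≤ H31S.cut z S := by
    intro hw1 S hS hxS hyS
    have hxA : x ∉ A ∧ y ∉ A := by
      by_contra hcon
      have h1 : H31S.Sep A {x, y} := by
        refine ⟨?_, ?_⟩
        · by_contra h2
          push Not at h2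
          exact hcon ⟨fun h => h2 x h (by simp), fun h => h2 y h (by simp)⟩
        · by_contra h2
          push Not at h2
          have h4 : A ⊆ {x, y} := fun v hv => h2 v hv
          have h5 := card_le_card h4
          have h6 := card_le_two (a := x) (b := y)
          omega
      have h2 := hsep _ h1
      have h4 := cut_pair hz hxy
      have h5 := hdeg x
      have h6 := hdeg y
      rw [← hw] at h4
      linarith
    have h1 : H31S.Sep A (S.erase x) := by
      obtain ⟨⟨a, ha, haS⟩, b, hb, hbS⟩ := hS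
      exact ⟨⟨a, ha, mem_erase.2 ⟨fun h => hxA.1 (h ▸ ha), haS⟩⟩, b, hb, fun h => hbS (mem_erase.1 h).2⟩
    have h2 := hsep _ h1
    rw [cut_erase hz hxS (hxx x)] at h2
    have h4 := hdeg x
    have h5 : w ≤ ∑ v ∈ Sᶜ, z x v := by
      rw [hw]
      exact single_le_sum (f := fun v => z x v) (fun i _ => hz.nn x i) (mem_compl.2 hyS)
    linarith
  obtain ⟨m, hm⟩ : ∃ m, m = min w 1 := ⟨_, rfl⟩
  have hm0 : 0 ≤ m := by rw [hm]; exact le_min hw0 zero_le_one
  have hm1 : m ≤ 1 := by rw [hm]; exact min_le_right _ _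
  have hmw : m ≤ w := by rw [hm]; exact min_le_left _ _
  -- the new weights
  have hz0 : ∀ u v, z u v - w * H31S.edge x y u v = if s(u, v) = s(x, y) then 0 else z u v := by
    intro u v
    unfold H31S.edge
    split_ifs with h
    · rcases Sym2.eq_iff.1 h with ⟨rfl, rfl⟩ | ⟨rfl, rfl⟩
      · rw [hw]; ring
      · rw [hw, hz.symm u v]; ring
    · ring
  obtain ⟨q, hq⟩ : ∃ q : V → V → ℝ, q = fun u v => 1 * (1 * z u v + (-w) * H31S.edge x y u v) + m * p u v := ⟨_, rfl⟩
  have hqv : ∀ u v, q u v = (if s(u, v) = s(x, y) then 0 else z u v) + m * p u v := by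
    intro u v
    rw [hq, ← hz0]
    ring
  have hqcut : ∀ S, H31S.cut q S = H31S.cut z S - w * H31S.cut (H31S.edge x y) S + m * H31S.cut p S := by
    intro S
    rw [hq, H31S.cut_comb, H31S.cut_comb]
    ring
  have hqdeg : ∀ v, H31S.deg q v = H31S.deg z v - w * H31S.deg (H31S.edge x y) v + m * H31S.deg p v := by
    intro v
    rw [hq, H31S.deg_comb, H31S.deg_comb]
    ring
  refine ⟨q, ⟨fun u v => ?_, fun u v => ?_, fun u v huv => ?_⟩, fun v => ?_, fun S hS => ?_⟩
  · rw [hqv, hqv, Sym2.eq_swap, hz.symm u v, hp.symm u v]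
  · rw [hqv]
    have h1 := hz.nn u v
    have h2 := mul_nonneg hm0 (hp.nn u v)
    split_ifs <;> linarith
  · rw [hqv, hp.supp u v huv, mul_zero, add_zero]
    split_ifs with h
    · rfl
    · exact hz.supp u v fun h1 => (hred h1).elim h fun h2 => huv h2.1
  · rw [hqdeg]
    have h1 := hdeg v
    by_cases hvx : v = x
    · rw [hvx, deg_edge_left]
      rw [hvx] at h1
      have : m * H31S.deg p x ≤ m * 1 := mul_le_mul_of_nonneg_left hpx hm0
      linarith
    by_cases hvy : v = y
    · rw [hvy, deg_edge_right]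
      rw [hvy] at h1
      have : m * H31S.deg p y ≤ m * 1 := mul_le_mul_of_nonneg_left hpy hm0
      linarith
    have h4 := mul_nonneg hw0 (deg_edge_nn (x := x) (y := y) (v := v))
    by_cases hvQ : v ∈ Q
    · have h5 : H31S.deg z v = 0 := by
        unfold H31S.deg
        refine sum_eq_zero fun u _ => hz.supp v u fun h => ?_
        rcases hred h with h | h
        · rcases Sym2.eq_iff.1 h with h | h
          · exact hvx h.1
          · exact hvy h.1
        · exact h.2.1 hvQ
      have h6 : m * H31S.deg p v ≤ m * 2 := mul_le_mul_of_nonneg_left (hp2 v) hm0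
      linarith
    · have h5 : H31S.deg p v = 0 := by
        unfold H31S.deg
        refine sum_eq_zero fun u _ => hpU v u ?_
        simp only [mem_insert, not_or]
        exact ⟨hvx, hvy, hvQ⟩
      rw [h5]
      linarith
  · rw [hqcut]
    have h1 := hsep S hS
    have hpn := H31S.cut_nonneg hp S
    have key : ∀ T : Finset V, H31S.Sep A T → x ∈ T → y ∉ T →
        2 ≤ H31S.cut z T - w * 1 + m * H31S.cut p T := by
      intro T hT' hxT hyT
      have h2 : m * 1 ≤ m * H31S.cut p T := mul_le_mul_of_nonneg_left (hpc T hxT hyT) hm0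
      have h4 := hsep T hT'
      by_cases hw1 : 1 < w
      · have h5 := heavy hw1 T hT' hxT hyT
        have h6 : m = 1 := by rw [hm]; exact min_eq_right hw1.le
        rw [h6] at h2 ⊢
        linarith
      · have h6 : m = w := by rw [hm]; exact min_eq_left (not_lt.1 hw1)
        rw [h6] at h2 ⊢
        linarith
    by_cases hxS : x ∈ S <;> by_cases hyS : y ∈ S
    · rw [cut_edge_in (by simp [hxS, hyS])]
      have := mul_nonneg hm0 hpn
      linarith
    · rw [cut_edge_out hxS hyS]
      exact key S hS hxS hyS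
    · have hS' : H31S.Sep A Sᶜ := by
        obtain ⟨⟨a, ha, haS⟩, b, hb, hbS⟩ := hS
        exact ⟨⟨b, hb, mem_compl.2 hbS⟩, a, ha, fun h => (mem_compl.1 h) haS⟩
      have h2 := key Sᶜ hS' (mem_compl.2 hxS) (fun h => (mem_compl.1 h) hyS)
      rw [H31S.cut_compl hz, H31S.cut_compl hp] at h2
      have h5 : H31S.cut (H31S.edge x y) S = 1 := by
        have h6 : H31S.cut (H31S.edge y x) S = 1 := cut_edge_out hyS hxS
        have h7 : H31S.edge y x = H31S.edge x y := by
          funext a b
          unfold H31S.edge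
          rw [Sym2.eq_swap (a := y)]
        rw [← h7]
        exact h6
      rw [h5]
      exact h2
    · rw [cut_edge_in (by simp [hxS, hyS])]
      have := mul_nonneg hm0 hpn
      linarith

end H41S
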