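import Pool.Agent.Lib.H41S.R
import Pool.Agent.Lib.H36V.FunK
import Pool.Agent.Lib.H31S.H
import Pool.Agent.Lib.H24A.B
import Pool.Agent.Lib.H57G5.E

/-!
# H41S, file Cov: the fractional covering predicate is a covering predicate in the sense of `H36V.CovP` (MP_33911d)
-/

set_option autoImplicit false
set_option linter.unusedSectionVars false

namespace H41S

open Finset H98M LD H85TF

/-- Two vertices are covered. -/
theorem pi_two' {V : Type} [Fintype V] [DecidableEq V] {G : Finset (Sym2 V)} {Y A : Finset V} (hT : TCY G Y)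
    (hA : A ⊆ Y) (h2 : A.card ≤ 2) : H31S.Pi G A := by
  obtain ⟨T, hT1, hT2, hT3⟩ := exists_subsuperset_card_eq (n := 2) (s := A) (t := Y) hA h2
    (by have := hT.three; omega)
  obtain ⟨a, b, hab, rfl⟩ := card_eq_two.1 hT3
  obtain ⟨x, h1, h4, h5⟩ := pi_of_one hT.loop (H24A.oneCyc_two hT (hT2 (by simp : a ∈ ({a, b} : Finset V)))
    (hT2 (by simp : b ∈ ({a, b} : Finset V))))
  exact ⟨x, h1, h4, fun S ⟨⟨a, ha, haS⟩, b, hb, hbS⟩ => h5 S ⟨⟨a, hT1 ha, haS⟩, b, hT1 hb, hbS⟩⟩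

/-- `H31S.Pi` is a covering predicate. -/
theorem covP (V : Type) [Fintype V] [DecidableEq V] :
    H36V.CovP (H31S.Pi : Finset (Sym2 V) → Finset V → Prop) where
  sub := fun hA ⟨x, h1, h4, h5⟩ => ⟨x, h1, h4, fun S ⟨⟨a, ha, haS⟩, b, hb, hbS⟩ =>
    h5 S ⟨⟨a, hA ha, haS⟩, b, hA hb, hbS⟩⟩
  mono := fun hG ⟨x, ⟨h1, h2, h3⟩, h4, h5⟩ => ⟨x, ⟨h1, h2, fun u v huv => h3 u v fun h => huv (hG h)⟩, h4, h5⟩
  two := fun hT hA h2 => pi_two' hT hA h2
  cyc := fun hT h2 => pi_of_one hT.loop (H57G5.oneCyc_of_deg2 hT h2)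
  redn := by
    intro G Y A x y P Q hT hs hA h
    by_cases h3 : 3 ≤ A.card
    · exact pi_red hT hs (disjoint_left.2 fun v hv => (mem_sdiff.1 (hA hv)).2) h3 h
    · exact pi_two' hT (hA.trans sdiff_subset) (by omega)
  exch := fun hT h1 h2 h3 h4 h5 h6 =>
    H31S.exchange (fun v h => hT.loop _ h (by simp)) h1 h2 h3 h4 h5 h6

end H41S
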