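import Pool.Agent.Lib.H41S.R
import Pool.Agent.Lib.H36V.Fun8
import Pool.Agent.Lib.H36V.Draw8

/-!
# H41S, file G: the functor step for the fractional covering predicate, relative to a graph `R` (MP_33911d)
-/

set_option autoImplicit false
set_option linter.unusedSectionVars false

open H53P SimpleDraw

namespace H41S

open Finset H98P H98Z H98M H63F H30F H63L H97W H85TF LD H77D4 H98TF H47G5 H36V

/-- The covering predicate: fractional coverings. -/
def KF {V : Type} [Fintype V] [DecidableEq V] (G : Finset (Sym2 V)) (Y W : Finset V) : Prop := H31S.Pi G (W ∩ Y)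

theorem pi_mono {V : Type} [Fintype V] [DecidableEq V] {G G' : Finset (Sym2 V)} {A : Finset V} (hG : G ⊆ G')
    (h : H31S.Pi G A) : H31S.Pi G' A := by
  obtain ⟨x, ⟨h1, h2, h3⟩, h4, h5⟩ := h
  exact ⟨x, ⟨h1, h2, fun u v huv => h3 u v fun h => huv (hG h)⟩, h4, h5⟩

theorem pi_dn {V : Type} [Fintype V] [DecidableEq V] {G : Finset (Sym2 V)} {A B : Finset V} (hA : A ⊆ B)
    (h : H31S.Pi G B) : H31S.Pi G A := by
  obtain ⟨x, h1, h4, h5⟩ := h
  exact ⟨x, h1, h4, fun S ⟨⟨a, ha, haS⟩, b, hb, hbS⟩ => h5 S ⟨⟨a, hA ha, haS⟩, b, hA hb, hbS⟩⟩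

/-- Two vertices are covered. -/
theorem pi_two {V : Type} [Fintype V] [DecidableEq V] {G : Finset (Sym2 V)} {Y A : Finset V} (hT : TCY G Y)
    (hA : A ⊆ Y) (h2 : A.card ≤ 2) : H31S.Pi G A := by
  obtain ⟨T, hT1, hT2, hT3⟩ := exists_subsuperset_card_eq (n := 2) (s := A) (t := Y) hA h2
    (by have := hT.three; omega)
  obtain ⟨a, b, hab, rfl⟩ := card_eq_two.1 hT3
  exact pi_dn hT1 (pi_of_one hT.loop (H24A.oneCyc_two hT (hT2 (by simp)) (hT2 (by simp))))

theorem kpF (V : Type) [Fintype V] [DecidableEq V] :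
    KP (KF : Finset (Sym2 V) → Finset V → Finset V → Prop) where
  sub hW h := pi_dn (inter_subset_inter_right hW) h
  mono hG h := pi_mono hG h
  two := fun hT h2 => pi_two hT inter_subset_right h2
  cyc := fun hT h2 => pi_dn inter_subset_right (pi_of_one hT.loop (H57G5.oneCyc_of_deg2 hT h2))
  redn := by
    intro G Y W x y P Q hT hs hW h
    have h2 : W ∩ (Y \ Q) = W ∩ Y := by
      ext w
      simp only [mem_inter, mem_sdiff]
      exact ⟨fun h3 => ⟨h3.1, h3.2.1⟩, fun h3 => ⟨h3.1, h3.2, disjoint_left.1 hW h3.1⟩⟩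
    unfold KF at h ⊢
    rw [h2] at h
    by_cases h3 : (W ∩ Y).card ≤ 2
    · exact pi_two hT inter_subset_right h3
    · exact pi_red hT hs (hW.mono_left inter_subset_left) (by omega) h

/-- The exchange property. -/
def ExF (V : Type) [Fintype V] [DecidableEq V] : Prop :=
  ∀ (G : Finset (Sym2 V)) (Y A : Finset V) (b d : V) (U : Finset V), TCY G Y → H31S.Pi G (insert b A) →
    H31S.Pi G (insert d A) → b ∈ U → d ∈ U → ¬ Disc U G → (∀ u ∈ U, u ≠ b → u ≠ d → ¬ H31S.Pi G (insert u A)) →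
    H31S.Pi G (insert b (insert d A))

/-- The base case. -/
theorem acF {V : Type} [Fintype V] [DecidableEq V] (ex : ExF V) {G : Finset (Sym2 V)}
    {Y M : Finset V} (hT : TCY G Y) (hMY : M ⊆ Y) (hM : ¬ Disc M G) (hC : ¬ H31S.Pi G M) :
    AC (Ch fun W : Finset V => ¬ H31S.Pi G W ∧ W ⊂ M) := by
  have hne : M.Nonempty := by
    rw [nonempty_iff_ne_empty]
    rintro rfl
    exact hC (pi_two hT hMY (by simp))
  obtain ⟨w, hw⟩ := hne
  have h1 := H96TF.ac_nf (G := G) (Pi := H31S.Pi G) (fun A B h hB => pi_dn h hB)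
    (fun A b d U hb hd hbU hdU hU hin => ex G Y A b d U hT hb hd hbU hdU hU hin) M.card M ∅ rfl hM
    ⟨w, hw, pi_two hT (by
      intro v hv
      rw [mem_insert] at hv
      rcases hv with rfl | hv
      · exact hMY hw
      · exact absurd hv (notMem_empty v)) (by simp)⟩ (by rw [union_empty]; exact fun h => hC h)
  refine ac_congr (fun c => ?_) h1
  have e : (fun W' : Finset V => W' ⊆ M ∧ W' ≠ M ∧ ¬ H31S.Pi G (W' ∪ ∅)) =
      fun W : Finset V => ¬ H31S.Pi G W ∧ W ⊂ M := by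
    funext W
    rw [union_empty]
    refine propext ⟨fun h => ⟨h.2.2, Finset.ssubset_iff_subset_ne.2 ⟨h.1, h.2.1⟩⟩, fun h => ⟨h.2.1, h.2.ne, h.1⟩⟩
  rw [e]

/-- The lower links for `KF`. -/
theorem L2_F {V : Type} [Fintype V] [DecidableEq V] (ex : ExF V) {E G : Finset (Sym2 V)}
    (hGE : G ⊆ E) (hG : TCY G univ) (hE : TCY E univ) {M : Finset V} (hM : ¬ Disc M G)
    (hU : U7 KF E G univ M) :
    AC (Ch fun W : Finset V => (U7 KF E G univ W ∨ X2 E univ W) ∧ W ⊂ M) := by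
  refine l2u7 (kpF V) (fun E G Y M _ hG _ _ hMY hM hK => ?_) (univ : Finset V).card E G univ M rfl hGE hG hE
    (subset_univ M) hM hU
  unfold KF at hK
  rw [inter_eq_left.2 hMY] at hK
  refine ac_congr (fun c => ?_) (acF ex hG hMY hM hK)
  have e : (fun W : Finset V => ¬ H31S.Pi G W ∧ W ⊂ M) = fun W : Finset V => ¬ KF G Y W ∧ W ⊂ M := by
    funext W
    refine propext (and_congr_left fun h2 => not_congr ?_)
    unfold KF
    rw [inter_eq_left.2 (h2.1.trans hMY)]
  rw [e]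

/-- THE FUNCTOR STEP, relative to a graph `R`. -/
theorem formF {V : Type} [Fintype V] [DecidableEq V] (ex : ExF V)
    {cross : Sym2 V → Sym2 V → Prop} (hsymm : ∀ e f, cross e f → cross f e) (hHD : ∀ W, HD cross W)
    (h3 : 3 ≤ Fintype.card V) {R : Finset (Sym2 V)} (hR : R ⊆ LW univ) :
    ∃ G : Finset (Sym2 V), G ⊆ LW univ ∧ Plane cross G ∧ TC G ∧ 2 * Fintype.card V ≤ G.card + 3 ∧
      ((∃ F ⊆ G, R ⊆ F ∧ ¬ Disc univ F ∧ ∀ v, dg F v = 2) ∨ (NoCut2 (G ∪ R) ∧ H31S.Pi G univ)) := by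
  have hV : ∃ x y : V, x ≠ y := by
    obtain ⟨x, y, h⟩ := Fintype.exists_pair_of_one_lt_card (α := V) (by omega)
    exact ⟨x, y, h⟩
  have hK := kpF V
  obtain ⟨G, hGL, hGp, ⟨hT, hN⟩, hcard⟩ := exactX hsymm hHD hV
    (fun G W => Disc W G ∧ (TC G → U7 KF (G ∪ R) G univ W ∨ X2 (G ∪ R) univ W))
    (fun G => TC G ∧ ((∃ F ⊆ G, R ⊆ F ∧ ¬ Disc univ F ∧ ∀ v, dg F v = 2) ∨
      (NoCut2 (G ∪ R) ∧ H31S.Pi G univ)))
    (fun G G' hGG _ W hW => ⟨H85TF.disc_anti hGG hW.1, fun hT =>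
      (hW.2 (tc_mono hGG hT)).imp (fun h => h.anti hK (union_subset_union_left hGG) hGG)
        (fun h => h.anti (union_subset_union_left hGG))⟩)
    (fun G W _ h => h.1)
    (fun G G' hGG _ h => ⟨tc_mono hGG h.1, h.2.imp (fun ⟨F, h1, h2⟩ => ⟨F, h1.trans hGG, h2⟩)
      (fun h => ⟨noCut2_mono (union_subset_union_left hGG) h.1, pi_mono hGG h.2⟩)⟩)
    (fun G hGL hno => by
      have hEL : G ∪ R ⊆ LW univ := union_subset hGL hR
      by_cases hT : TC G
      · have hTE : TC (G ∪ R) := tc_mono subset_union_left hT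
        have hYE := tcy_of_tc h3 hEL hTE
        have hYG := tcy_of_tc h3 hGL hT
        have hdx : ∀ {W : Finset V}, X2 (G ∪ R) univ W → Disc W G := fun h =>
          H85TF.disc_anti subset_union_left (disc_of_x2 h)
        by_cases hU : U7 KF (G ∪ R) G univ univ
        · refine ac_congr (fun t => ?_) (H30D.remove_univ
            (P := fun W => U7 KF (G ∪ R) G univ W ∨ X2 (G ∪ R) univ W) (G := G) (fun M hM hMc => ?_) (Or.inl hU))
          · constructor
            · exact ch_mono fun W hW => ⟨hW.2, fun _ => hW.1⟩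
            · exact ch_mono fun W hW => ⟨hW.2 hT, hW.1⟩
          · exact L2_F ex subset_union_left hYG hYE hMc (hM.resolve_right fun h => hMc (hdx h))
        · have hU' : ∀ W, ¬ U7 KF (G ∪ R) G univ W := fun W h => hU (h.up hK (subset_univ W))
          have hcov : H31S.Pi G univ := by
            by_contra h
            refine hU (U7.base fun h6 => h ?_)
            unfold KF at h6
            rwa [univ_inter] at h6
          have hno' : ¬ ((∃ F ⊆ G, R ⊆ F ∧ ¬ Disc univ F ∧ ∀ v, dg F v = 2) ∨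
              (NoCut2 (G ∪ R) ∧ H31S.Pi G univ)) := fun h => hno ⟨hT, h⟩
          rw [not_or, not_and] at hno'
          have hsep : ∃ x y P Q, Sep (G ∪ R) univ x y P Q := by
            by_contra hcon
            push Not at hcon
            exact hno'.2 (noCut2_of_noSep hcon) hcov
          have hdeg : ¬ ∀ v, dg (G ∪ R) v = 2 := fun h => by
            have h5 := eq_of_two subset_union_left hYG hYE (fun v _ => h v)
            exact hno'.1 ⟨G, Subset.rfl, by
              intro e he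
              rw [h5]
              exact mem_union_right _ he, hT.1, fun v => by rw [h5]; exact h v⟩
          refine ac_congr (fun t => ?_) (H36R.L1_4 (G ∪ R) hEL hYE hsep hdeg)
          constructor
          · exact ch_mono fun W hW => ⟨hdx hW, fun _ => Or.inr hW⟩
          · exact ch_mono fun W hW => (hW.2 hT).resolve_left (hU' W)
      · refine ac_congr (fun t => ?_) (H30D.ac_disc G (by
          by_contra hcon
          rw [not_or, not_exists] at hcon
          exact hT hcon))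
        constructor
        · exact ch_mono fun W hW => ⟨hW, fun h => absurd h hT⟩
        · exact ch_mono fun W hW => hW.1)
  exact ⟨G, hGL, hGp, hT, hcard, hN⟩

/-- A Hamiltonian cycle is one cycle through all vertices. -/
theorem one_of_ham {V : Type} [Fintype V] [DecidableEq V] {F G : Finset (Sym2 V)} (hFG : F ⊆ G)
    (hc : ¬ Disc univ F) (h2 : ∀ v, dg F v = 2) : OneCyc G univ := by
  refine ⟨F, hFG, ⟨fun v => Or.inr (h2 v), fun T hT x hx _ y _ => ?_⟩, fun v _ => h2 v⟩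
  by_contra hy
  refine hc ⟨T, Tᶜ, ⟨x, hx⟩, ⟨y, mem_compl.2 hy⟩, disjoint_compl_right, union_compl T, ?_⟩
  intro a ha b hb hab
  exact (mem_compl.1 hb) (hT a ha b hab)

/-- THE FRACTIONAL FORM for simple drawings, for every graph `R` and a graph `U` of uncrossed edges, from the
exchange. -/
theorem mainF (ex : ∀ n : ℕ, ExF (Fin n)) {n : ℕ} (hn : 4 ≤ n) (D : SimpleDrawing n) (R U : SimpleGraph (Fin n))
    (hU : ∀ i j, U.Adj i j → ∀ k l, k ≠ l → s(i, j) ≠ s(k, l) → ∀ p ∈ D.curve i j ∩ D.curve k l,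
      ∃ v, (v = i ∨ v = j) ∧ (v = k ∨ v = l) ∧ p = D.pt v) :
    ∃ (G H F : SimpleGraph (Fin n)) (x : Fin n → Fin n → ℝ), D.Plane G ∧ U ≤ G ∧ H ≤ G ∧ H.Connected ∧
      (∀ v, (H.induce {w | w ≠ v}).Connected) ∧ H.edgeSet.ncard = 2 * n - 3 ∧
      (∀ u v, x u v = x v u) ∧ (∀ u v, 0 ≤ x u v) ∧ (∀ u v, ¬ G.Adj u v → x u v = 0) ∧
      (∀ v, ∑ u, x v u = 2) ∧ (∀ S : Finset (Fin n), S.Nonempty → S ≠ univ → 2 ≤ ∑ u ∈ S, ∑ v ∈ Sᶜ, x u v) ∧
      ((F ≤ H ∧ R ⊔ U ≤ F ∧ (∀ v, (F.neighborSet v).ncard = 2) ∧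
          ∃ (v : Fin n) (c : F.Walk v v), c.IsHamiltonianCycle) ∨
        ∀ u v, ((G ⊔ R).induce {w | w ≠ u ∧ w ≠ v}).Connected) := by
  obtain ⟨G, hGL, hGP, hT, hm, h⟩ := formF (ex n) (H53P.crossT_symm (H53P.table D))
    (H98W.hd_table (H53P.table D)) (by rw [Fintype.card_fin]; omega) (H36V.es_sub (R ⊔ U))
  have hd := not_diag_of_LW hGL
  have hPi : H31S.Pi G univ := by
    rcases h with ⟨F, hF, -, hc, h2⟩ | ⟨-, h⟩
    · exact pi_of_one hd (one_of_ham hF hc h2)
    · exact h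
  obtain ⟨x, ⟨hx1, hx2, hx3⟩, hx4, hx5⟩ := hPi
  have hcut : ∀ S : Finset (Fin n), S.Nonempty → S ≠ univ → 2 ≤ ∑ u ∈ S, ∑ v ∈ Sᶜ, x u v := by
    rintro S ⟨a, ha⟩ hS
    have h1 : ∃ b, b ∉ S := by
      by_contra hcon
      push Not at hcon
      exact hS (eq_univ_iff_forall.2 hcon)
    obtain ⟨b, hb⟩ := h1
    exact hx5 S ⟨⟨a, mem_univ a, ha⟩, b, mem_univ b, hb⟩
  have hdeg : ∀ v, ∑ u, x v u = 2 := by
    intro v
    refine le_antisymm (hx4 v) ?_
    have h1 := hcut {v} (singleton_nonempty v) (fun h => by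
      have h2 := card_univ (α := Fin n)
      rw [← h, card_singleton, Fintype.card_fin] at h2
      omega)
    rw [sum_singleton] at h1
    exact h1.trans (sum_le_sum_of_subset_of_nonneg (subset_univ _) fun i _ _ => hx2 v i)
  have hsupp : ∀ G' : SimpleGraph (Fin n), gr G ≤ G' → ∀ u v, ¬ G'.Adj u v → x u v = 0 := by
    intro G' hG' u v huv
    refine hx3 u v fun h => huv (hG' ?_)
    have h1 : (SimpleGraph.fromEdgeSet (G : Set (Sym2 (Fin n)))).Adj u v := by
      rw [SimpleGraph.fromEdgeSet_adj]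
      exact ⟨h, fun e => hd _ h (by rw [Sym2.mk_isDiag_iff]; exact e)⟩
    exact h1
  have e : gr G ⊔ (R ⊔ U) = gr G ⊔ U ⊔ R := by rw [sup_assoc, sup_comm R]
  rcases h with ⟨F, hF, hRF, hc, h2⟩ | ⟨hN, -⟩
  · have hdF : ∀ e ∈ F, ¬ e.IsDiag := fun e he => hd e (hF he)
    obtain ⟨H, g1, g2, g3, g4, g5, g6⟩ := layer2 (by omega) D hGL hGP hT hF (fun v => (h2 v).le) hm
    refine ⟨gr G ⊔ U, H, gr F, x, plane_uncrossed D hU g1, le_sup_right, g2.trans le_sup_left, g3, g4, g5, hx1, hx2,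
      hsupp _ le_sup_left, hdeg, hcut, Or.inl ⟨g6, ?_, fun v => (degree_gr hdF v).trans (h2 v),
        ⟨0, by omega⟩, ham_gr (by omega) hdF hc h2 _⟩⟩
    rw [← gr_es (R ⊔ U)]
    exact gr_mono hRF
  · obtain ⟨H, g1, g2, g3, g4, g5, g6⟩ := layer2 (F := ∅) (by omega) D hGL hGP hT (empty_subset G)
      (fun v => by unfold dg; simp) hm
    refine ⟨gr G ⊔ U, H, ⊥, x, plane_uncrossed D hU g1, le_sup_right, g2.trans le_sup_left, g3, g4, g5, hx1, hx2,
      hsupp _ le_sup_left, hdeg, hcut, Or.inr ?_⟩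
    have h8 := conn3 (G := G ∪ es (R ⊔ U)) (by omega) (tc_mono subset_union_left hT) hN
    rw [gr_union, gr_es, e] at h8
    exact h8

end H41S
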