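import Pool.Agent.Lib.H31S.D
import Pool.Agent.Lib.H47G5.Cv
import Pool.Agent.Lib.H85TF.P1

/-!
# H41S, file K: the fractional covering predicate of a cycle (MP_33911d)
-/

set_option autoImplicit false
set_option linter.unusedSectionVars false

namespace H41S

open Finset H98M LD H85TF H47G5

variable {V : Type} [Fintype V] [DecidableEq V]

/-- The degree as a sum over the vertices. -/
theorem dg_sum {M : Type} [AddCommMonoidWithOne M] (F : Finset (Sym2 V)) (u : V) :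
    ((dg F u : ℕ) : M) = ∑ v, if s(u, v) ∈ F then (1 : M) else 0 := by
  rw [Finset.sum_boole]
  congr 1
  unfold dg
  symm
  refine card_bij (fun v _ => s(u, v)) ?_ ?_ ?_
  · intro v hv
    exact mem_filter.2 ⟨(mem_filter.1 hv).2, by simp⟩
  · intro v _ w _ h
    exact Sym2.congr_right.1 h
  · intro e he
    obtain ⟨h1, h2⟩ := mem_filter.1 he
    obtain ⟨v, rfl⟩ := Sym2.mem_iff_exists.1 h2
    exact ⟨v, mem_filter.2 ⟨mem_univ v, h1⟩, rfl⟩

/-- A cycle crosses every set an even number of times. -/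
theorem even_cut {F : Finset (Sym2 V)} (hl : ∀ e ∈ F, ¬ e.IsDiag) (h2 : ∀ v, dg F v = 0 ∨ dg F v = 2)
    (S : Finset V) : Even (∑ u ∈ S, ∑ v ∈ Sᶜ, if s(u, v) ∈ F then 1 else 0 : ℕ) := by
  rw [← ZMod.natCast_eq_zero_iff_even]
  push_cast
  have h1 : ∑ u ∈ S, ∑ v, (if s(u, v) ∈ F then (1 : ZMod 2) else 0) = 0 := by
    refine sum_eq_zero fun u _ => ?_
    rw [← dg_sum]
    rcases h2 u with h | h
    · rw [h]; rfl
    · rw [h]; rfl
  have h3 : ∑ u ∈ S, ∑ v ∈ S, (if s(u, v) ∈ F then (1 : ZMod 2) else 0) = 0 := by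
    rw [← sum_product']
    refine sum_involution (fun p _ => (p.2, p.1)) ?_ ?_ ?_ ?_
    · rintro ⟨a, b⟩ _
      simp only
      rw [Sym2.eq_swap (a := b)]
      exact CharTwo.add_self_eq_zero _
    · rintro ⟨a, b⟩ _ h
      simp only at h ⊢
      intro hab
      rw [Prod.mk.injEq] at hab
      rw [hab.1] at h
      have h5 : s(a, a) ∉ F := fun h => hl _ h (by simp)
      rw [if_neg h5] at h
      exact h rfl
    · rintro ⟨a, b⟩ h
      rw [mem_product] at h ⊢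
      exact ⟨h.2, h.1⟩
    · rintro ⟨a, b⟩ _
      rfl
  have h4 : ∀ u, ∑ v, (if s(u, v) ∈ F then (1 : ZMod 2) else 0) =
      ∑ v ∈ S, (if s(u, v) ∈ F then (1 : ZMod 2) else 0) + ∑ v ∈ Sᶜ, (if s(u, v) ∈ F then (1 : ZMod 2) else 0) :=
    fun u => (sum_add_sum_compl S _).symm
  rw [sum_congr rfl fun u _ => h4 u, sum_add_distrib, h3, zero_add] at h1
  exact h1

/-- The vertices of one cycle are covered. -/
theorem pi_of_one {G : Finset (Sym2 V)} (hG : ∀ e ∈ G, ¬ e.IsDiag) {A : Finset V} (h : OneCyc G A) :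
    H31S.Pi G A := by
  obtain ⟨F, hF, hO, hA⟩ := h
  have hl : ∀ e ∈ F, ¬ e.IsDiag := fun e he => hG e (hF he)
  refine ⟨fun u v => if s(u, v) ∈ F then 1 else 0, ⟨fun u v => ?_, fun u v => ?_, fun u v h => ?_⟩, fun v => ?_,
    fun S hS => ?_⟩
  · rw [Sym2.eq_swap]
  · split_ifs <;> norm_num
  · exact if_neg fun h1 => h (hF h1)
  · unfold H31S.deg
    rw [← dg_sum (M := ℝ)]
    rcases hO.1 v with h | h
    · rw [h]; norm_num
    · rw [h]; norm_num
  · obtain ⟨⟨a, haA, haS⟩, b, hbA, hbS⟩ := hS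
    have h1 := even_cut hl hO.1 S
    have h2 : (∑ u ∈ S, ∑ v ∈ Sᶜ, if s(u, v) ∈ F then 1 else 0 : ℕ) ≠ 0 := by
      intro h0
      have h5 : ∀ u ∈ S, ∀ v, s(u, v) ∈ F → v ∈ S := by
        intro u hu v huv
        by_contra hv
        have h6 := (sum_eq_zero_iff.1 h0) u hu
        have h7 := (sum_eq_zero_iff.1 h6) v (mem_compl.2 hv)
        rw [if_pos huv] at h7
        exact one_ne_zero h7
      exact hbS (hO.2 S h5 a haS (by rw [hA a haA]; norm_num) b (by rw [hA b hbA]; norm_num))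
    have h3 : 2 ≤ (∑ u ∈ S, ∑ v ∈ Sᶜ, if s(u, v) ∈ F then 1 else 0 : ℕ) := by
      obtain ⟨k, hk⟩ := h1
      omega
    unfold H31S.cut
    have h4 : (2 : ℝ) ≤ ((∑ u ∈ S, ∑ v ∈ Sᶜ, if s(u, v) ∈ F then 1 else 0 : ℕ) : ℝ) := by exact_mod_cast h3
    push_cast at h4
    exact h4

end H41S
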