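import Pool.Agent.Lib.H36V.CovPi

/-!
# H41S, file P: the fractional Hamiltonian cycle on the graph with exactly `2n - 3` edges (MP_33911d), from the bound for
the number of edges of an extreme point
-/

set_option autoImplicit false
set_option linter.unusedSectionVars false

open H53P SimpleDraw

namespace H41S

open Finset H98P H98Z H98M H63F H30F H63L H97W H85TF LD H77D4 H98TF H36V

/-- The extreme point lemma: a fractional Hamiltonian cycle on at most `2n - 3` edges. -/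
def Ext (V : Type) [Fintype V] [DecidableEq V] : Prop :=
  ∀ (G : Finset (Sym2 V)), (∀ e ∈ G, ¬ e.IsDiag) → H31S.Pi G univ →
    ∃ S ⊆ G, S.card + 3 ≤ 2 * Fintype.card V ∧ H31S.Pi S univ

/-- The edges of positive weight of a fractional Hamiltonian cycle form a 2-connected graph. -/
theorem tc_of_pi {V : Type} [Fintype V] [DecidableEq V] {S : Finset (Sym2 V)} (hl : ∀ e ∈ S, ¬ e.IsDiag)
    (h : H31S.Pi S univ) : TC S := by
  obtain ⟨x, hx⟩ := h
  have h0 : ∀ v, x v v = 0 := fun v => hx.wt.supp v v fun h1 => hl _ h1 (by simp)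
  have sep : ∀ C : Finset V, C.Nonempty → (∃ d, d ∉ C) → 2 ≤ H31S.cut x C := fun C ⟨c, hc⟩ ⟨d, hd⟩ =>
    hx.sep C ⟨⟨c, mem_univ c, hc⟩, d, mem_univ d, hd⟩
  refine ⟨?_, fun z => ?_⟩
  · rintro ⟨C, D, hC, ⟨d, hd⟩, hdis, hun, hno⟩
    have h1 := sep C hC ⟨d, fun h => disjoint_left.1 hdis h hd⟩
    have h2 : H31S.cut x C = 0 := by
      unfold H31S.cut
      refine sum_eq_zero fun u hu => sum_eq_zero fun v hv => hx.wt.supp u v (hno u hu v ?_)
      have h3 : v ∈ C ∪ D := by rw [hun]; exact mem_univ v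
      exact (mem_union.1 h3).resolve_left (mem_compl.1 hv)
    linarith
  · rintro ⟨C, D, hC, hD, hdis, hun, hno⟩
    have hzC : z ∉ C := fun h => (mem_erase.1 (by rw [← hun]; exact mem_union_left _ h : z ∈ univ.erase z)).1 rfl
    have hzD : z ∉ D := fun h => (mem_erase.1 (by rw [← hun]; exact mem_union_right _ h : z ∈ univ.erase z)).1 rfl
    have key : ∀ C D : Finset V, C ∪ D = univ.erase z → z ∉ C → z ∉ D → (∀ u ∈ C, ∀ v ∈ D, s(u, v) ∉ S) →
        H31S.cut x C = ∑ u ∈ C, x z u := by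
      intro C D hun hzC hzD hno
      unfold H31S.cut
      refine sum_congr rfl fun u hu => ?_
      rw [sum_eq_single z, hx.wt.symm u z]
      · intro v hv hvz
        refine hx.wt.supp u v (hno u hu v ?_)
        have h3 : v ∈ C ∪ D := by rw [hun]; exact mem_erase.2 ⟨hvz, mem_univ v⟩
        exact (mem_union.1 h3).resolve_left (mem_compl.1 hv)
      · exact fun h => absurd (mem_compl.2 hzC) h
    have h1 := sep C hC ⟨z, hzC⟩
    have h2 := sep D hD ⟨z, hzD⟩
    rw [key C D hun hzC hzD hno] at h1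
    rw [key D C (by rw [union_comm]; exact hun) hzD hzC (fun u hu v hv h => hno v hv u hu (by
      rw [Sym2.eq_swap]; exact h))] at h2
    have h3 : H31S.deg x z = ∑ u ∈ C, x z u + ∑ u ∈ D, x z u := by
      unfold H31S.deg
      rw [← sum_union hdis, hun, ← add_sum_erase univ (fun w => x z w) (mem_univ z), h0 z, zero_add]
    have h4 := hx.deg_le z
    linarith

/-- THE FRACTIONAL FORM with the weights on the graph `H` with exactly `2n - 3` edges. -/
theorem mainP {n : ℕ} (hn : 3 ≤ n) (ext : Ext (Fin n)) (D : SimpleDrawing n) (R U : SimpleGraph (Fin n))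
    (hU : ∀ i j, U.Adj i j → ∀ k l, k ≠ l → s(i, j) ≠ s(k, l) → ∀ p ∈ D.curve i j ∩ D.curve k l,
      ∃ v, (v = i ∨ v = j) ∧ (v = k ∨ v = l) ∧ p = D.pt v) :
    ∃ (G H : SimpleGraph (Fin n)) (x : Fin n → Fin n → ℝ), D.Plane G ∧ U ≤ G ∧ H ≤ G ∧ H.Connected ∧
      (∀ v, (H.induce {w | w ≠ v}).Connected) ∧ H.edgeSet.ncard = 2 * n - 3 ∧
      (∀ u v, x u v = x v u) ∧ (∀ u v, 0 ≤ x u v) ∧ (∀ u v, ¬ H.Adj u v → x u v = 0) ∧
      (∀ v, ∑ w, x v w = 2) ∧
      (∀ S : Finset (Fin n), S.Nonempty → S ≠ univ → 2 ≤ ∑ u ∈ S, ∑ v ∈ Sᶜ, x u v) ∧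
      ((∃ F : SimpleGraph (Fin n), F ≤ H ∧ R ⊔ U ≤ F ∧ (∀ v, (F.neighborSet v).ncard = 2) ∧
        ∃ (v : Fin n) (c : F.Walk v v), c.IsHamiltonianCycle) ∨
        ∀ u v, ((G ⊔ R).induce {w | w ≠ u ∧ w ≠ v}).Connected) := by
  obtain ⟨G, hGL, hGP, hT, hm, hPi, h⟩ := (cov_pi (Fin n)).form (H53P.crossT_symm (H53P.table D))
    (H98W.hd_table (H53P.table D)) (by rw [Fintype.card_fin]; exact hn) (H36V.es_sub (R ⊔ U))
  have hd := not_diag_of_LW hGL
  have e : gr G ⊔ (R ⊔ U) = gr G ⊔ U ⊔ R := by rw [sup_assoc, sup_comm R]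
  rcases h with ⟨F, hF, hRF, hc, h2⟩ | hN
  · have hdF : ∀ e ∈ F, ¬ e.IsDiag := fun e he => hd e (hF he)
    obtain ⟨H, g2, g3, g4, g5, g6⟩ := layer2' hn hGL hT hF (fun v => (h2 v).le) hm
    have hone : H47G5.OneCyc F univ := by
      refine ⟨F, Subset.rfl, ⟨fun v => Or.inr (h2 v), fun T hT x hx _ y _ => ?_⟩, fun v _ => h2 v⟩
      by_contra hy
      refine hc ⟨T, Tᶜ, ⟨x, hx⟩, ⟨y, mem_compl.2 hy⟩, disjoint_compl_right, union_compl T, ?_⟩
      intro a ha b hb hab
      exact (mem_compl.1 hb) (hT a ha b hab)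
    obtain ⟨x, hx⟩ := H41S.pi_of_one hdF hone
    obtain ⟨a1, a2, a3⟩ := feas_univ hn (hF.trans hGL) hx
    refine ⟨gr G ⊔ U, H, x, plane_uncrossed D hU (plane_of D hGP), le_sup_right, g2.trans le_sup_left, g3, g4, g5,
      hx.wt.symm, hx.wt.nn, fun u v huv => a1 u v fun h => huv (g6 h), a2, a3,
      Or.inl ⟨gr F, g6, ?_, fun v => (degree_gr hdF v).trans (h2 v), ⟨0, by omega⟩, ham_gr (by omega) hdF hc h2 _⟩⟩
    rw [← gr_es (R ⊔ U)]
    exact gr_mono hRF
  · obtain ⟨S, hSG, hS, hPS⟩ := ext G hd hPi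
    have hTS := tc_of_pi (fun e he => hd e (hSG he)) hPS
    obtain ⟨H0, hSH, hHG, hHc⟩ := exists_subsuperset_card_eq (n := 2 * n - 3) hSG
      (by rw [Fintype.card_fin] at hS; omega) (by rw [Fintype.card_fin] at hm; omega)
    have hTH : TC H0 := tc_mono hSH hTS
    obtain ⟨x, hx⟩ := pi_mono hSH hPS
    obtain ⟨a1, a2, a3⟩ := feas_univ hn (hHG.trans hGL) hx
    have hdH : ∀ e ∈ H0, ¬ e.IsDiag := fun e he => hd e (hHG he)
    refine ⟨gr G ⊔ U, gr H0, x, plane_uncrossed D hU (plane_of D hGP), le_sup_right,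
      (gr_mono hHG).trans le_sup_left, conn_gr hn hTH.1, fun v => ?_, ?_, hx.wt.symm, hx.wt.nn, a1, a2, a3, Or.inr ?_⟩
    · have h6 : (univ.erase v).Nonempty := by
        rw [← card_pos, card_erase_of_mem (mem_univ _), card_univ, Fintype.card_fin]
        omega
      have h7 := induce_connected h6 (hTH.2 v)
      have h8 : {w : Fin n | w ∈ univ.erase v} = {w | w ≠ v} := by
        ext w
        simp
      rw [h8] at h7
      exact h7
    · rw [H85TF.gr_edgeSet fun e he => hdH e he, Set.ncard_coe_finset, hHc]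
    · have h8 := conn3 (G := G ∪ es (R ⊔ U)) (by omega) (tc_mono subset_union_left hT) hN
      rw [gr_union, gr_es, e] at h8
      exact h8

end H41S
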